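import Pool.Agent.K4H50.TM.D1

/-!
# Upper bound sieve of any dimension, divisor sums, Mertens products
-/

set_option autoImplicit false

namespace Pool.Agent.K4H50.QM

open Finset Filter
open Pool.Agent.K4H50.HL (range_mod crt_fin prod_dvd_int PZ)
open Pool.Agent.K4H50.TM (S1 S1_prod harm_bound0 prod_exp rho_eq)

/-- the sieve with at most `κ` classes -/
theorem sieveK : ∃ C0 : ℕ, 1 ≤ C0 ∧ ∀ (κ b0 J z0 : ℕ) (P : Finset ℕ), C0 * (κ + 1) ≤ b0 → C0 * (κ + 1) ≤ z0 →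
    (∀ p ∈ P, p.Prime ∧ z0 < p ∧ p ≤ 2 ^ 2 ^ J) → ∀ (Om : ℕ → Finset ℕ) (M : ℕ),
    (∀ p ∈ P, (Om p).card ≤ κ ∧ ∀ x ∈ Om p, x < p) →
    ((((range M).filter (fun t => ∀ p ∈ P, t % p ∉ Om p)).card : ℕ) : ℝ) ≤
      2 * ((M : ℝ) * ∏ p ∈ P, (1 - ((Om p).card : ℝ) * (1 / (p : ℝ)))) +
      ((J : ℝ) + 2) * ((((2 ^ 2 ^ J) ^ (C0 * b0) : ℕ) : ℝ)) ^ 3 := by
  obtain ⟨C0, hC0, H⟩ := Pool.Agent.TH423.SH.fll
  refine ⟨C0, hC0, ?_⟩
  intro κ b0 J z0 P hb hz hP Om M hOm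
  have hκz : κ + 1 ≤ z0 := le_trans (Nat.le_mul_of_pos_left _ (by omega)) hz
  have hpκ : ∀ p ∈ P, (κ : ℝ) + 1 ≤ p := by
    intro p hp
    have := (hP p hp).2.1
    exact_mod_cast (by omega : κ + 1 ≤ p)
  have hprod0 : 0 ≤ ∏ p ∈ P, (1 - ((Om p).card : ℝ) * (1 / (p : ℝ))) := by
    apply prod_nonneg
    intro p hp
    have h3 : ((Om p).card : ℝ) ≤ κ := by exact_mod_cast (hOm p hp).1
    have h4 := hpκ p hp
    have h6 : (0 : ℝ) ≤ κ := Nat.cast_nonneg _
    have h5 : ((Om p).card : ℝ) * (1 / (p : ℝ)) ≤ 1 := by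
      rw [mul_one_div, div_le_one (by linarith)]
      linarith
    linarith
  have hmain := H κ b0 J z0 P (fun p => 1 / (p : ℝ)) (fun p => Om p) hb hz hP
    (fun p hp => (hOm p hp).1)
    (fun p hp => by
      have h2 : (1 : ℝ) < p := by exact_mod_cast (hP p hp).1.one_lt
      refine ⟨by positivity, ?_⟩
      apply one_div_le_one_div_of_le (by linarith) (by linarith))
    (range M) (fun _ => 1) (M : ℝ) (fun _ => 1)
    (fun n _ => zero_le_one) (by positivity) (fun _ => zero_le_one) (by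
      intro T hTP _ c hc
      have hTp : ∀ p ∈ T, p.Prime := fun p hp => (hP p (hTP hp)).1
      obtain ⟨e, he⟩ : ∃ e, e = ∏ p ∈ T, p := ⟨_, rfl⟩
      have he0 : 0 < e := by rw [he]; exact prod_pos fun p hp => (hTp p hp).pos
      obtain ⟨ρ, hρ⟩ := crt_fin T hTp c
      have hg1 : ∏ p ∈ T, (1 / (p : ℝ)) = 1 / (e : ℝ) := by
        rw [he]
        push_cast
        rw [prod_div_distrib, prod_const_one]
      rw [hg1, sum_const, nsmul_eq_mul, mul_one, mul_one_div]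
      have hfe : (range M).filter (fun n => ∀ p ∈ T, n % p = c p) = (range M).filter (fun t => t ≡ ρ [MOD e]) := by
        apply filter_congr
        intro t _
        have hlt : ∀ p ∈ T, c p < p := fun p hp => (hOm p (hTP hp)).2 _ (hc p hp)
        rw [← Int.natCast_modEq_iff, Int.modEq_iff_dvd, he, prod_dvd_int T hTp]
        constructor
        · intro h p hp
          rw [← Int.modEq_iff_dvd, Int.natCast_modEq_iff]
          have h5 : t ≡ c p [MOD p] := by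
            unfold Nat.ModEq
            rw [h p hp, Nat.mod_eq_of_lt (hlt p hp)]
          exact h5.trans (hρ p hp).symm
        · intro h p hp
          have h6 := h p hp
          rw [← Int.modEq_iff_dvd, Int.natCast_modEq_iff] at h6
          have h7 := h6.trans (hρ p hp)
          unfold Nat.ModEq at h7
          rwa [Nat.mod_eq_of_lt (hlt p hp)] at h7
      rw [hfe]
      exact range_mod M e ρ he0)
  have h2 := (abs_le.1 hmain).2
  obtain ⟨Z, hZ⟩ : ∃ Z : ℕ, Z = (2 ^ 2 ^ J) ^ (C0 * b0) := ⟨_, rfl⟩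
  have herrs : ∑ T ∈ P.powerset.filter (fun T : Finset ℕ => ∏ p ∈ T, p ≤ (2 ^ 2 ^ J) ^ (C0 * b0)),
            (κ : ℝ) ^ T.card * 1 ≤ (Z : ℝ) ^ 3 := by
    have hterm : ∀ T ∈ P.powerset.filter (fun T : Finset ℕ => ∏ p ∈ T, p ≤ (2 ^ 2 ^ J) ^ (C0 * b0)),
        (κ : ℝ) ^ T.card * 1 ≤ (Z : ℝ) ^ 2 := by
      intro T hT
      rw [mem_filter, mem_powerset, ← hZ] at hT
      have h3 : κ ^ T.card ≤ ∏ p ∈ T, p := by
        rw [← prod_const]
        apply prod_le_prod'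
        intro p hp
        have := (hP p (hT.1 hp)).2.1
        omega
      have h4 : κ ^ T.card ≤ Z := h3.trans hT.2
      have h5 : (κ : ℝ) ^ T.card ≤ Z := by exact_mod_cast h4
      have h6 : (1 : ℝ) ≤ Z := by
        have : 1 ≤ Z := by rw [hZ]; exact Nat.one_le_pow _ _ (by positivity)
        exact_mod_cast this
      rw [mul_one]
      nlinarith
    have hcardT : (P.powerset.filter (fun T : Finset ℕ => ∏ p ∈ T, p ≤ (2 ^ 2 ^ J) ^ (C0 * b0))).card ≤ Z := by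
      calc _ ≤ (Icc 1 Z).card := by
            apply card_le_card_of_injOn (fun T => ∏ p ∈ T, p)
            · intro T hT
              rw [mem_coe, mem_filter, mem_powerset, ← hZ] at hT
              rw [mem_coe, mem_Icc]
              exact ⟨prod_pos fun p hp => (hP p (hT.1 hp)).1.pos, hT.2⟩
            · intro T hT T' hT' h
              rw [mem_coe, mem_filter, mem_powerset] at hT hT'
              have e1 : ∀ U : Finset ℕ, U ⊆ P → (∏ p ∈ U, p).primeFactors = U := by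
                intro U hU
                exact Nat.primeFactors_prod fun p hp => (hP p (hU hp)).1
              have h' : ∏ p ∈ T, p = ∏ p ∈ T', p := h
              rw [← e1 T hT.1, ← e1 T' hT'.1, h']
        _ = Z := by simp
    refine (sum_le_sum hterm).trans ?_
    rw [sum_const, nsmul_eq_mul, show (Z : ℝ) ^ 3 = Z * Z ^ 2 by ring]
    exact mul_le_mul_of_nonneg_right (by exact_mod_cast hcardT) (by positivity)
  rw [← hZ]
  have h6 := mul_le_mul_of_nonneg_left herrs (show (0 : ℝ) ≤ (J : ℝ) + 2 by positivity)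
  rw [sum_const, nsmul_eq_mul, mul_one] at h2
  have h7 : (1 / 2 : ℝ) ^ b0 ≤ 1 := pow_le_one₀ (by norm_num) (by norm_num)
  have h8 : (1 / 2 : ℝ) ^ b0 * ((M : ℝ) * ∏ p ∈ P, (1 - ((Om p).card : ℝ) * (1 / (p : ℝ)))) ≤
      1 * ((M : ℝ) * ∏ p ∈ P, (1 - ((Om p).card : ℝ) * (1 / (p : ℝ)))) :=
    mul_le_mul_of_nonneg_right h7 (mul_nonneg (Nat.cast_nonneg _) hprod0)
  linarith

/-- the factor of the primes dividing `a` -/
noncomputable def rhoK (K : ℝ) (a : ℕ) : ℝ := ∏ l ∈ a.primeFactors, (1 + K / (l : ℝ))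

theorem rhoK_ge (K : ℝ) (hK : 0 ≤ K) (a : ℕ) : 1 ≤ rhoK K a := by
  unfold rhoK
  apply prod_induction (fun l : ℕ => 1 + K / (l : ℝ)) (fun x => 1 ≤ x)
  · intro x y hx hy; nlinarith
  · exact le_rfl
  · intro l _
    have : 0 ≤ K / (l : ℝ) := by positivity
    linarith

theorem rhoK_mul (K : ℝ) {a b : ℕ} (hab : a.Coprime b) : rhoK K (a * b) = rhoK K a * rhoK K b := by
  unfold rhoK
  rw [Nat.Coprime.primeFactors_mul hab, prod_union (Nat.Coprime.disjoint_primeFactors hab)]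

theorem rhoK_sum (K : ℝ) (hK : 0 ≤ K) : ∃ C : ℝ, 0 < C ∧
    ∀ A : ℕ, ∑ a ∈ Icc 1 A, rhoK K a ^ 2 / a ≤ C * (1 + Real.log A) := by
  obtain ⟨Q, hQ⟩ : ∃ Q : ℝ, Q = 2 * K + K ^ 2 := ⟨_, rfl⟩
  have hQ0 : 0 ≤ Q := by rw [hQ]; positivity
  refine ⟨Real.exp Q, by positivity, fun A => ?_⟩
  have h := S1_prod (fun _ => 1) (fun _ => zero_le_one) (fun l => Q / (l : ℝ)) (fun l => by positivity)
    ((Icc 1 A).filter Nat.Prime) (fun l hl => (mem_filter.1 hl).2) (fun l _ a => rfl) A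
  have h1 : ∑ a ∈ Icc 1 A, rhoK K a ^ 2 / a ≤
      S1 (fun a => 1 * ∏ l ∈ (Icc 1 A).filter Nat.Prime, (if l ∣ a then 1 + Q / (l : ℝ) else 1)) A := by
    unfold S1
    apply sum_le_sum
    intro a ha
    rw [mem_Icc] at ha
    apply div_le_div_of_nonneg_right _ (Nat.cast_nonneg _)
    show rhoK K a ^ 2 ≤ 1 * ∏ l ∈ (Icc 1 A).filter Nat.Prime, (if l ∣ a then 1 + Q / (l : ℝ) else 1)
    rw [one_mul, ← rho_eq a A (by omega) ha.2 (fun l => 1 + Q / (l : ℝ))]
    unfold rhoK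
    rw [← prod_pow]
    apply Finset.prod_le_prod
    · intro l _; positivity
    · intro l hl
      have hlp := Nat.prime_of_mem_primeFactors hl
      have h2 : (1 : ℝ) ≤ l := by exact_mod_cast hlp.one_lt.le
      obtain ⟨x, hx⟩ : ∃ x : ℝ, x = 1 / (l : ℝ) := ⟨_, rfl⟩
      have hx0 : 0 ≤ x := by rw [hx]; positivity
      have hx1 : x ≤ 1 := by rw [hx, div_le_one (by linarith)]; exact h2
      have e1 : K / (l : ℝ) = K * x := by rw [hx]; ring
      have e2 : Q / (l : ℝ) = Q * x := by rw [hx]; ring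
      rw [e1, e2, hQ]
      nlinarith [mul_nonneg (mul_nonneg (pow_nonneg hK 2) hx0) (sub_nonneg.2 hx1)]
  have h2 : ∏ l ∈ (Icc 1 A).filter Nat.Prime, (1 + Q / (l : ℝ) / l) ≤ Real.exp Q := by
    have h3 := prod_exp Q hQ0 1 A le_rfl
    have h4 : ∏ l ∈ (Icc 1 A).filter Nat.Prime, (1 + Q / (l : ℝ) / l) =
        ∏ l ∈ (Ioc 1 A).filter Nat.Prime, (1 + Q / (l : ℝ) / l) := by
      congr 1
      ext l
      rw [mem_filter, mem_filter, mem_Icc, mem_Ioc]
      constructor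
      · rintro ⟨h5, h6⟩
        exact ⟨⟨h6.one_lt, h5.2⟩, h6⟩
      · rintro ⟨h5, h6⟩
        exact ⟨⟨h5.1.le, h5.2⟩, h6⟩
    rw [h4]
    refine h3.trans ?_
    push_cast
    rw [div_one]
  have h3 : S1 (fun _ => (1 : ℝ)) A ≤ 1 + Real.log A := by
    have := (abs_le.1 (harm_bound0 A)).2
    unfold S1
    linarith
  have h4 : 0 ≤ S1 (fun _ => (1 : ℝ)) A := by
    unfold S1; exact sum_nonneg fun a _ => by positivity
  calc ∑ a ∈ Icc 1 A, rhoK K a ^ 2 / a ≤ (∏ l ∈ (Icc 1 A).filter Nat.Prime, (1 + Q / (l : ℝ) / l)) * S1 (fun _ => (1 : ℝ)) A :=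
        h1.trans h
    _ ≤ (Real.exp Q) * S1 (fun _ => (1 : ℝ)) A := mul_le_mul_of_nonneg_right h2 h4
    _ ≤ _ := mul_le_mul_of_nonneg_left h3 (by positivity)

theorem mem_PZ {z0 J p : ℕ} (hp : p ∈ PZ z0 J) : p.Prime ∧ z0 < p ∧ p ≤ 2 ^ 2 ^ J := by
  unfold PZ at hp
  rw [mem_filter, mem_Icc] at hp
  exact ⟨hp.2.1, hp.2.2, hp.1.2⟩

/-- Mertens -/
theorem sumPZ : ∃ C : ℝ, 0 < C ∧ ∀ z0 J : ℕ, 1 ≤ J →
    J * Real.log 2 - (C + z0) ≤ ∑ p ∈ PZ z0 J, 1 / (p : ℝ) ∧ ∑ p ∈ PZ z0 J, 1 / (p : ℝ) ≤ J * Real.log 2 + C := by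
  obtain ⟨C, hC0, hC⟩ := Pool.Agent.Helper559.mertens
  refine ⟨C + 1, by positivity, ?_⟩
  intro z0 J hJ
  obtain ⟨w, hw⟩ : ∃ w : ℕ, w = 2 ^ 2 ^ J := ⟨_, rfl⟩
  have hw4 : 4 ≤ w := by
    rw [hw]
    calc 4 = 2 ^ 2 ^ 1 := by norm_num
      _ ≤ 2 ^ 2 ^ J := Nat.pow_le_pow_right (by norm_num) (Nat.pow_le_pow_right (by norm_num) hJ)
  have h1 := abs_le.1 (hC w (by omega))
  have hlog : Real.log (w : ℝ) = 2 ^ J * Real.log 2 := by
    rw [hw]; push_cast; rw [Real.log_pow]; push_cast; ring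
  have hl2 : 0 < Real.log 2 := Real.log_pos (by norm_num)
  have hl2' : Real.exp (-1) ≤ Real.log 2 := by
    have h2 := Real.exp_neg_one_lt_half
    have h3 := Real.log_two_gt_d9
    linarith
  have h9 : Real.log (Real.log w) = J * Real.log 2 + Real.log (Real.log 2) := by
    rw [hlog, Real.log_mul (by positivity) hl2.ne', Real.log_pow]
  have h10 : -1 ≤ Real.log (Real.log 2) := by
    rw [Real.le_log_iff_exp_le hl2]; exact hl2'
  have h11 : Real.log (Real.log 2) ≤ 0 := Real.log_nonpos hl2.le (by have := Real.log_two_lt_d9; linarith)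
  have hsum : Pool.Agent.Helper559.S w ≤ ∑ p ∈ PZ z0 J, 1 / (p : ℝ) + z0 := by
    unfold Pool.Agent.Helper559.S
    rw [← sum_filter_add_sum_filter_not ((Icc 1 w).filter Nat.Prime) (fun p => z0 < p)]
    apply add_le_add
    · apply le_of_eq
      rw [filter_filter]
      unfold PZ
      rw [hw]
    · calc ∑ p ∈ ((Icc 1 w).filter Nat.Prime).filter (fun p => ¬ z0 < p), 1 / (p : ℝ) ≤
          ∑ p ∈ ((Icc 1 w).filter Nat.Prime).filter (fun p => ¬ z0 < p), (1 : ℝ) := by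
            apply sum_le_sum
            intro p hp
            have hpp := (mem_filter.1 (mem_filter.1 hp).1).2
            have h4 : (1 : ℝ) ≤ p := by exact_mod_cast hpp.one_lt.le
            rw [div_le_one (by linarith)]; exact h4
        _ = ((((Icc 1 w).filter Nat.Prime).filter (fun p => ¬ z0 < p)).card : ℝ) := by
            rw [sum_const, nsmul_eq_mul, mul_one]
        _ ≤ ((Icc 1 z0).card : ℝ) := by
            have hsub : ((Icc 1 w).filter Nat.Prime).filter (fun p => ¬ z0 < p) ⊆ Icc 1 z0 := by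
              intro p hp
              rw [mem_filter, mem_filter, mem_Icc] at hp
              rw [mem_Icc]
              exact ⟨hp.1.1.1, by omega⟩
            exact_mod_cast card_le_card hsub
        _ = z0 := by simp
  have hsum2 : ∑ p ∈ PZ z0 J, 1 / (p : ℝ) ≤ Pool.Agent.Helper559.S w := by
    unfold Pool.Agent.Helper559.S
    apply sum_le_sum_of_subset_of_nonneg
    · intro p hp
      obtain ⟨a1, a2, a3⟩ := mem_PZ hp
      rw [mem_filter, mem_Icc, hw]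
      exact ⟨⟨a1.one_lt.le, a3⟩, a1⟩
    · intro p _ _; positivity
  constructor <;> linarith

/-- the product for a fixed dimension -/
theorem VK_le (g : ℕ) : ∃ C : ℝ, 0 < C ∧ ∀ z0 J : ℕ, 1 ≤ J → g ≤ z0 →
    ∏ p ∈ PZ z0 J, (1 - (g : ℝ) / (p : ℝ)) ≤ (Real.exp (C + z0) / 2 ^ J) ^ g := by
  obtain ⟨C, hC0, hC⟩ := sumPZ
  refine ⟨C, hC0, ?_⟩
  intro z0 J hJ hz0
  have h1 := (hC z0 J hJ).1
  have hexp : ∏ p ∈ PZ z0 J, (1 - (g : ℝ) / (p : ℝ)) ≤ (Real.exp (-∑ p ∈ PZ z0 J, 1 / (p : ℝ))) ^ g := by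
    rw [← sum_neg_distrib, Real.exp_sum, ← prod_pow]
    apply Finset.prod_le_prod
    · intro p hp
      obtain ⟨a1, a2, a3⟩ := mem_PZ hp
      have h5 : (0 : ℝ) < p := by exact_mod_cast a1.pos
      have h4 : (g : ℝ) ≤ p := by exact_mod_cast (by omega : g ≤ p)
      have : (g : ℝ) / (p : ℝ) ≤ 1 := by rw [div_le_one h5]; exact h4
      linarith
    · intro p _
      rw [← Real.exp_nat_mul]
      have := Real.add_one_le_exp ((g : ℝ) * -(1 / (p : ℝ)))
      refine le_trans (le_of_eq ?_) this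
      ring
  refine hexp.trans ?_
  apply pow_le_pow_left₀ (Real.exp_pos _).le
  have h11 : -∑ p ∈ PZ z0 J, 1 / (p : ℝ) ≤ (C + z0) - J * Real.log 2 := by
    linarith
  calc Real.exp (-∑ p ∈ PZ z0 J, 1 / (p : ℝ)) ≤ Real.exp ((C + z0) - J * Real.log 2) := Real.exp_le_exp.2 h11
    _ = Real.exp (C + z0) / 2 ^ J := by
        rw [Real.exp_sub, ← Real.log_pow, Real.exp_log (by positivity)]

end Pool.Agent.K4H50.QM
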