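import Pool.Agent.K4H50.QM.F9

/-!
# The small prime factors of `p + h` for the sifted primes
-/

set_option autoImplicit false

namespace Pool.Agent.K4H50.QM

open Finset Filter
open Pool.Agent.H442R2.KF (piN piAP Er)
open Pool.Agent.K4H50.HL (PZ npr_le)
open Pool.Agent.K4H50.TM (pi_lower log_inf rpow_inf modEq_iff Xl Y_point cnt cnt_div log_eq swap_cnt)
open ArithmeticFunction (vonMangoldt)

theorem swapS (S s : Finset ℕ) (h : ℕ) (f : ℕ → ℝ) :
    ∑ p ∈ S, ∑ d ∈ s.filter (fun d => d ∣ p + h), f d = ∑ d ∈ s, f d * ((S.filter (fun p => d ∣ p + h)).card : ℝ) := by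
  have e : ∀ p ∈ S, ∑ d ∈ s.filter (fun d => d ∣ p + h), f d =
      ∑ d ∈ s, if d ∣ p + h then f d else 0 := fun p _ => by rw [sum_filter]
  rw [sum_congr rfl e, sum_comm]
  apply sum_congr rfl
  intro d _
  rw [← sum_filter, sum_const, nsmul_eq_mul, mul_comm]

/-- the large prime powers -/
theorem third (X h D S0 : ℕ) (hX : 1 ≤ X) (hS0 : S0 ^ 3 ≤ D) (S : Finset ℕ) (hS : S ⊆ (Icc 1 X).filter Nat.Prime) :
    ∑ p ∈ S, ∑ d ∈ ((Ioc D (X + h)).filter (fun d => ¬ d.Prime)).filter (fun d => d ∣ p + h), vonMangoldt d ≤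
      Real.log ((X + h : ℕ) : ℝ) * ((X + h : ℝ) * (2 / (S0 + 1))) := by
  have hlog0 : 0 ≤ Real.log ((X + h : ℕ) : ℝ) := Real.log_natCast_nonneg _
  have hpoint : ∀ p ∈ S, ∑ d ∈ ((Ioc D (X + h)).filter (fun d => ¬ d.Prime)).filter (fun d => d ∣ p + h), vonMangoldt d ≤
      ∑ s ∈ (Ioc S0 (X + h)).filter (fun s => s ^ 2 ∣ p + h), Real.log ((X + h : ℕ) : ℝ) := by
    intro p hp
    have hp' := hS hp
    rw [mem_filter, mem_Icc] at hp'
    rcases ((Ioc S0 (X + h)).filter (fun s => s ^ 2 ∣ p + h)).eq_empty_or_nonempty with he | ⟨s, hs⟩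
    · rw [he, sum_empty]
      apply sum_nonpos
      intro d hd
      rw [mem_filter, mem_filter, mem_Ioc] at hd
      obtain ⟨⟨⟨d1, d2⟩, d3⟩, d4⟩ := hd
      apply le_of_eq
      rw [ArithmeticFunction.vonMangoldt_eq_zero_iff]
      rintro ⟨l, j, hl, hj, hlj⟩
      have hj2 : 2 ≤ j := by
        rcases Nat.lt_or_ge j 2 with hj' | hj'
        · have : j = 1 := by omega
          subst this
          rw [pow_one] at hlj
          exact absurd (hlj ▸ hl.nat_prime) d3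
        · exact hj'
      have hl1 : 1 ≤ l := hl.nat_prime.one_lt.le
      have hmem : l ^ (j / 2) ∈ (Ioc S0 (X + h)).filter (fun s => s ^ 2 ∣ p + h) := by
        rw [mem_filter, mem_Ioc]
        have hdv : (l ^ (j / 2)) ^ 2 ∣ p + h := by
          refine Dvd.dvd.trans ?_ d4
          rw [← hlj, ← pow_mul]
          exact pow_dvd_pow l (by omega)
        refine ⟨⟨?_, ?_⟩, hdv⟩
        · have h1 : d ≤ (l ^ (j / 2)) ^ 3 := by
            rw [← hlj, ← pow_mul]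
            exact Nat.pow_le_pow_right hl1 (by omega)
          have h2 : S0 ^ 3 < (l ^ (j / 2)) ^ 3 := by omega
          exact lt_of_pow_lt_pow_left₀ 3 (Nat.zero_le _) h2
        · have h1 := Nat.le_of_dvd (by omega) hdv
          have h2 : l ^ (j / 2) ≤ (l ^ (j / 2)) ^ 2 := Nat.le_self_pow (by norm_num) _
          omega
      rw [he] at hmem
      exact absurd hmem (notMem_empty _)
    · calc ∑ d ∈ ((Ioc D (X + h)).filter (fun d => ¬ d.Prime)).filter (fun d => d ∣ p + h), vonMangoldt d ≤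
            ∑ d ∈ (Icc 1 (X + h)).filter (fun d => d ∣ p + h), vonMangoldt d := by
            apply sum_le_sum_of_subset_of_nonneg
            · intro d hd
              rw [mem_filter, mem_filter, mem_Ioc] at hd
              rw [mem_filter, mem_Icc]
              exact ⟨⟨by omega, hd.1.1.2⟩, hd.2⟩
            · intro d _ _; exact ArithmeticFunction.vonMangoldt_nonneg
        _ = Real.log ((p + h : ℕ) : ℝ) := (log_eq X h p hp'.1.1 hp'.1.2).symm
        _ ≤ Real.log ((X + h : ℕ) : ℝ) := Real.log_le_log (by exact_mod_cast (by omega : 0 < p + h))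
            (by exact_mod_cast (by omega : p + h ≤ X + h))
        _ ≤ _ := single_le_sum (f := fun _ : ℕ => Real.log ((X + h : ℕ) : ℝ)) (fun _ _ => hlog0) hs
  have h1 : ∑ p ∈ S, ∑ s ∈ (Ioc S0 (X + h)).filter (fun s => s ^ 2 ∣ p + h), Real.log ((X + h : ℕ) : ℝ) ≤
      ∑ s ∈ Ioc S0 (X + h), Real.log ((X + h : ℕ) : ℝ) * (cnt X h (s ^ 2) : ℝ) := by
    have e : ∀ p ∈ S, ∑ s ∈ (Ioc S0 (X + h)).filter (fun s => s ^ 2 ∣ p + h), Real.log ((X + h : ℕ) : ℝ) =
        ∑ s ∈ Ioc S0 (X + h), if s ^ 2 ∣ p + h then Real.log ((X + h : ℕ) : ℝ) else 0 := fun p _ => by rw [sum_filter]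
    rw [sum_congr rfl e, sum_comm]
    apply sum_le_sum
    intro s _
    rw [← sum_filter, sum_const, nsmul_eq_mul, mul_comm]
    apply mul_le_mul_of_nonneg_left _ hlog0
    unfold cnt
    have : S.filter (fun p => s ^ 2 ∣ p + h) ⊆ (Icc 1 X).filter (fun p => p.Prime ∧ s ^ 2 ∣ p + h) := by
      intro p hp
      rw [mem_filter] at hp
      have := hS hp.1
      rw [mem_filter] at this
      rw [mem_filter]
      exact ⟨this.1, this.2, hp.2⟩
    exact_mod_cast card_le_card this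
  refine (sum_le_sum hpoint).trans (h1.trans ?_)
  rw [← mul_sum]
  apply mul_le_mul_of_nonneg_left _ hlog0
  calc ∑ s ∈ Ioc S0 (X + h), (cnt X h (s ^ 2) : ℝ) ≤ ∑ s ∈ Ioc S0 (X + h), (X + h : ℝ) * ((s : ℝ) ^ 2)⁻¹ := by
        apply sum_le_sum
        intro s hs
        rw [mem_Ioc] at hs
        have := cnt_div X h (s ^ 2) (Nat.one_le_pow _ _ (by omega))
        push_cast at this
        rw [div_eq_mul_inv] at this
        exact this
    _ = (X + h : ℝ) * ∑ s ∈ Ioo S0 (X + h + 1), ((s : ℝ) ^ 2)⁻¹ := by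
        rw [← mul_sum]
        congr 2
        ext s
        rw [mem_Ioc, mem_Ioo]
        omega
    _ ≤ _ := mul_le_mul_of_nonneg_left (sum_Ioo_inv_sq_le S0 (X + h + 1)) (by positivity)

/-- the conditions on the second sieving limit -/
def J2G (K : ℕ) (c2 : ℝ) (X J2 : ℕ) : Prop := c2 * Real.log X ≤ (2 : ℝ) ^ J2 ∧ (J2 : ℝ) + 2 ≤ Real.log X ∧
  (((2 ^ 2 ^ J2) ^ K : ℕ) : ℝ) ≤ (X : ℝ) ^ (1 / 24 : ℝ) ∧ ((2 ^ 2 ^ J2 : ℕ) : ℝ) ≤ (X : ℝ) ^ (1 / 24 : ℝ)

/-- the upper bound for one divisor -/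
def UPp (k z0 K : ℕ) (c2 C : ℝ) : Prop := ∀ᶠ X : ℕ in atTop, ∀ (J2 J : ℕ) (H : Finset ℕ) (w0 h d : ℕ),
    H.card = k → J ≤ J2 → 1 ≤ J → (∀ x ∈ H, 0 < x ∧ x ≤ z0) → IsPrimePow d →
    (d : ℝ) ≤ (X : ℝ) ^ (3 / 4 : ℝ) → J2G K c2 X J2 →
    ((((Sf X (Wz z0) w0 z0 J H).filter (fun p => d ∣ p + h)).card : ℕ) : ℝ) ≤ C * (M0 X z0 J k / d)

theorem TY (C0 : ℕ) (hFL : FLp C0) (k z0 b K2 : ℕ) (c2 C : ℝ) (hC : 0 < C) (hUP : UPp k z0 K2 c2 C)
    (η δ : ℝ) (hη : 0 < η) (hη1 : η ≤ 1) (hδ : 0 < δ) (hδ8 : δ ≤ 1 / 8)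
    (hb : C0 * (k + 1) ≤ b) (hz : C0 * (k + 1) ≤ z0) (hz2 : 2 * k + 2 ≤ z0)
    (hbη : (1 + (1 / 2 : ℝ) ^ b) * (1 + 2 * k / z0) ≤ 1 + η) :
    ∀ᶠ X : ℕ in atTop, ∀ (J2 J w0 h : ℕ) (H : Finset ℕ), H.card = k → (∀ h ∈ H, 0 < h ∧ h ≤ z0) →
      w0.Coprime (Wz z0) → JG (C0 * b) δ X J → J ≤ J2 → J2G K2 c2 X J2 → 0 < h → h ≤ z0 →
      ∑ p ∈ Sf X (Wz z0) w0 z0 J H, (Real.log ((p + h : ℕ) : ℝ) - Xl X h ⌊2 * (X : ℝ) ^ (1 / 2 + δ)⌋₊ p) ≤
      (1 / 2 + 2 * η + 2 * C * δ) * (M0 X z0 J k * Real.log X) := by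
  obtain ⟨C1, hC1, hTA⟩ := TA C0 hFL k z0 b η δ hη hδ hδ8 hb hz hz2 hbη
  obtain ⟨c, hc, hM⟩ := M0_lower z0 k hz2
  obtain ⟨C3, hC3, hnpr⟩ := npr_le
  obtain ⟨C4, hC4⟩ : ∃ C4 : ℝ, C4 = ∑ d ∈ Icc 1 z0, vonMangoldt d / (d : ℝ) := ⟨_, rfl⟩
  have hC40 : 0 ≤ C4 := by
    rw [hC4]
    exact sum_nonneg fun d _ => div_nonneg ArithmeticFunction.vonMangoldt_nonneg (Nat.cast_nonneg _)
  filter_upwards [hTA, hUP, hM, log_inf 1, log_inf ((2 * C1 + C * (C3 + C4) + 11 * C) / η), eventually_ge_atTop (z0 + 3),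
    rpow_inf (1 / 8) (by norm_num) 2, logpow_small (k + 1) (1 / 10) (by norm_num) (16 / (c * η)),
    rpow_inf (1 / 2 - δ) (by linarith) (z0 + 1)] with X e1 e2 e3 e4 e5 e6 e7 e8 e9
  intro J2 J w0 h H hH hle hw0 hJ hJJ hJ2 hh0 hhz
  have hTA' := e1 J w0 h H hH hle hw0 hJ hh0 hhz
  obtain ⟨j1, j2, j3, j4⟩ := hJ
  obtain ⟨m1, m2, m3⟩ := e3 J j1 j3
  have hU := fun d => e2 J2 J H w0 h d hH hJJ j1 hle
  have hX3 : (3 : ℝ) ≤ X := by exact_mod_cast (by omega : 3 ≤ X)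
  have hX0 : (0 : ℝ) < X := by linarith
  have hX1 : (1 : ℝ) ≤ X := by linarith
  obtain ⟨L, hL⟩ : ∃ L : ℝ, L = Real.log X := ⟨_, rfl⟩
  obtain ⟨M, hMd⟩ : ∃ M : ℝ, M = M0 X z0 J k := ⟨_, rfl⟩
  rw [← hL] at m1 e4 e5 e8 ⊢
  rw [← hMd] at m1 m2 hTA' ⊢
  simp only [← hMd] at hU
  have hL0 : 0 < L := by linarith
  obtain ⟨S, hS⟩ : ∃ S, S = Sf X (Wz z0) w0 z0 J H := ⟨_, rfl⟩
  rw [← hS] at hTA' ⊢
  simp only [← hS] at hU
  have hSsub : S ⊆ (Icc 1 X).filter Nat.Prime := by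
    intro p hp
    rw [hS, mem_Sf] at hp
    rw [mem_filter, mem_Icc]
    exact ⟨hp.1, hp.2.1⟩
  obtain ⟨D, hD⟩ : ∃ D, D = ⌊(X : ℝ) ^ (1 / 2 - δ)⌋₊ := ⟨_, rfl⟩
  obtain ⟨B, hB⟩ : ∃ B, B = ⌊2 * (X : ℝ) ^ (1 / 2 + δ)⌋₊ := ⟨_, rfl⟩
  rw [← hB]
  rw [← hD] at hTA'
  have hDle : (D : ℝ) ≤ (X : ℝ) ^ (1 / 2 - δ) := by rw [hD]; exact Nat.floor_le (by positivity)
  have hDge : (X : ℝ) ^ (1 / 2 - δ) < D + 1 := by rw [hD]; exact Nat.lt_floor_add_one _
  have hBle : (B : ℝ) ≤ 2 * (X : ℝ) ^ (1 / 2 + δ) := by rw [hB]; exact Nat.floor_le (by positivity)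
  have hBge : 2 * (X : ℝ) ^ (1 / 2 + δ) < B + 1 := by rw [hB]; exact Nat.lt_floor_add_one _
  have hD1 : 1 ≤ D := by
    rw [hD]; apply Nat.le_floor; push_cast
    exact Real.one_le_rpow hX1 (by linarith)
  have hDz : z0 ≤ D := by
    rw [hD]; apply Nat.le_floor; linarith
  have hD1r : (1 : ℝ) ≤ D := by exact_mod_cast hD1
  have hXhalf : (X : ℝ) ^ (1 / 2 - δ) ≤ (X : ℝ) ^ (1 / 2 : ℝ) := Real.rpow_le_rpow_of_exponent_le hX1 (by linarith)
  have hD34 : (D : ℝ) ≤ (X : ℝ) ^ (3 / 4 : ℝ) :=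
    (hDle.trans hXhalf).trans (Real.rpow_le_rpow_of_exponent_le hX1 (by norm_num))
  have hlogD : Real.log D ≤ 1 / 2 * L := by
    calc Real.log D ≤ Real.log ((X : ℝ) ^ (1 / 2 : ℝ)) := Real.log_le_log (by linarith) (hDle.trans hXhalf)
      _ = 1 / 2 * L := by rw [Real.log_rpow hX0, hL]
  have hlogD2 : (1 / 2 - δ) * L - 1 ≤ Real.log D := by
    have h1 : (X : ℝ) ^ (1 / 2 - δ) ≤ 2 * D := by linarith
    have h2 := Real.log_le_log (by positivity) h1
    rw [Real.log_rpow hX0, Real.log_mul (by norm_num) (by linarith), ← hL] at h2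
    have := Real.log_two_lt_d9
    linarith
  have hlogB : Real.log B ≤ (1 / 2 + δ) * L + 1 := by
    have hB1 : (1 : ℝ) ≤ (X : ℝ) ^ (1 / 2 + δ) := Real.one_le_rpow hX1 (by linarith)
    have hB0 : (0 : ℝ) < B := by linarith
    have h2 := Real.log_le_log hB0 hBle
    rw [Real.log_mul (by norm_num) (by positivity), Real.log_rpow hX0, ← hL] at h2
    have := Real.log_two_lt_d9
    linarith
  have hB1 : 1 ≤ B := by
    have hB1 : (1 : ℝ) ≤ (X : ℝ) ^ (1 / 2 + δ) := Real.one_le_rpow hX1 (by linarith)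
    have hB0 : (0 : ℝ) < B := by linarith
    exact_mod_cast hB0
  have hB34 : (B : ℝ) ≤ (X : ℝ) ^ (3 / 4 : ℝ) := by
    calc (B : ℝ) ≤ 2 * (X : ℝ) ^ (1 / 2 + δ) := hBle
      _ ≤ (X : ℝ) ^ (1 / 8 : ℝ) * (X : ℝ) ^ (5 / 8 : ℝ) := by
          apply mul_le_mul e7 _ (by positivity) (by positivity)
          exact Real.rpow_le_rpow_of_exponent_le hX1 (by linarith)
      _ = (X : ℝ) ^ (3 / 4 : ℝ) := by rw [← Real.rpow_add hX0]; norm_num
  -- the decomposition
  have hsum : ∑ p ∈ S, (Real.log ((p + h : ℕ) : ℝ) - Xl X h B p) ≤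
      ∑ d ∈ Icc 1 D, vonMangoldt d * ((S.filter (fun p => d ∣ p + h)).card : ℝ) +
      ∑ q ∈ (Ioc D B).filter Nat.Prime, Real.log q * ((S.filter (fun p => q ∣ p + h)).card : ℝ) +
      ∑ p ∈ S, ∑ d ∈ ((Ioc D (X + h)).filter (fun d => ¬ d.Prime)).filter (fun d => d ∣ p + h), vonMangoldt d := by
    rw [← swapS S (Icc 1 D), ← swapS S ((Ioc D B).filter Nat.Prime) h (fun q => Real.log (q : ℝ)),
      ← sum_add_distrib, ← sum_add_distrib]
    apply sum_le_sum
    intro p hp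
    have hp' := hSsub hp
    rw [mem_filter, mem_Icc] at hp'
    exact Y_point X h D B p hp'.1.1 hp'.1.2
  -- the first sum
  have hT1 : ∑ d ∈ Icc 1 D, vonMangoldt d * ((S.filter (fun p => d ∣ p + h)).card : ℝ) ≤
      (1 + η) * M * (Real.log D + C1) + C * M * (C3 + C4) := by
    obtain ⟨P, hP⟩ : ∃ P, P = (Ioc z0 D).filter Nat.Prime := ⟨_, rfl⟩
    rw [← hP] at hTA'
    have hPs : P ⊆ Icc 1 D := by
      intro q hq
      rw [hP, mem_filter, mem_Ioc] at hq
      rw [mem_Icc]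
      exact ⟨hq.2.one_lt.le, hq.1.2⟩
    rw [← sum_sdiff hPs]
    have g1 : ∑ d ∈ P, vonMangoldt d * ((S.filter (fun p => d ∣ p + h)).card : ℝ) ≤ (1 + η) * M * (Real.log D + C1) := by
      refine le_trans (le_of_eq ?_) hTA'
      apply sum_congr rfl
      intro q hq
      rw [hP, mem_filter] at hq
      rw [ArithmeticFunction.vonMangoldt_apply_prime hq.2]
    have g2 : ∑ d ∈ Icc 1 D \ P, vonMangoldt d * ((S.filter (fun p => d ∣ p + h)).card : ℝ) ≤ C * M * (C3 + C4) := by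
      have g3 : ∀ d ∈ Icc 1 D \ P, vonMangoldt d * ((S.filter (fun p => d ∣ p + h)).card : ℝ) ≤
          C * M * ((if d.Prime then 0 else vonMangoldt d / (d : ℝ)) + (if d ∈ Icc 1 z0 then vonMangoldt d / (d : ℝ) else 0)) := by
        intro d hd
        rw [Finset.mem_sdiff, mem_Icc] at hd
        have h0 : 0 ≤ vonMangoldt d := ArithmeticFunction.vonMangoldt_nonneg
        have hd0 : (0 : ℝ) < d := by exact_mod_cast hd.1.1
        have h00 : 0 ≤ vonMangoldt d / (d : ℝ) := by positivity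
        have g4 : vonMangoldt d * ((S.filter (fun p => d ∣ p + h)).card : ℝ) ≤ C * M * (vonMangoldt d / (d : ℝ)) := by
          by_cases hpp : IsPrimePow d
          · have h1 := hU d hpp (le_trans (by exact_mod_cast hd.1.2) hD34) hJ2
            calc vonMangoldt d * ((S.filter (fun p => d ∣ p + h)).card : ℝ) ≤ vonMangoldt d * (C * (M / d)) :=
                  mul_le_mul_of_nonneg_left h1 h0
              _ = _ := by ring
          · have : vonMangoldt d = 0 := ArithmeticFunction.vonMangoldt_eq_zero_iff.2 hpp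
            rw [this, zero_mul, zero_div, mul_zero]
        refine g4.trans ?_
        apply mul_le_mul_of_nonneg_left _ (by positivity)
        by_cases hdp : d.Prime
        · have hdz : d ∈ Icc 1 z0 := by
            rw [mem_Icc]
            refine ⟨hd.1.1, ?_⟩
            by_contra hlt
            apply hd.2
            rw [hP, mem_filter, mem_Ioc]
            exact ⟨⟨by omega, hd.1.2⟩, hdp⟩
          rw [if_pos hdp, if_pos hdz, zero_add]
        · rw [if_neg hdp]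
          have : 0 ≤ (if d ∈ Icc 1 z0 then vonMangoldt d / (d : ℝ) else 0) := by
            split_ifs
            · exact h00
            · exact le_rfl
          linarith
      refine (sum_le_sum g3).trans ?_
      rw [← mul_sum, sum_add_distrib]
      apply mul_le_mul_of_nonneg_left _ (by positivity)
      apply add_le_add (hnpr _)
      rw [hC4, ← sum_filter]
      apply sum_le_sum_of_subset_of_nonneg
      · intro d hd
        exact (mem_filter.1 hd).2
      · intro d _ _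
        exact div_nonneg ArithmeticFunction.vonMangoldt_nonneg (Nat.cast_nonneg _)
    linarith
  -- the second sum
  have hT2 : ∑ q ∈ (Ioc D B).filter Nat.Prime, Real.log q * ((S.filter (fun p => q ∣ p + h)).card : ℝ) ≤
      C * M * (2 * δ * L + 11) := by
    have ht : ∀ q ∈ (Ioc D B).filter Nat.Prime, Real.log q * ((S.filter (fun p => q ∣ p + h)).card : ℝ) ≤
        C * M * (Real.log q / q) := by
      intro q hq
      rw [mem_filter, mem_Ioc] at hq
      have h1 := hU q hq.2.isPrimePow (le_trans (by exact_mod_cast hq.1.2) hB34) hJ2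
      calc Real.log q * ((S.filter (fun p => q ∣ p + h)).card : ℝ) ≤ Real.log q * (C * (M / q)) :=
            mul_le_mul_of_nonneg_left h1 (Real.log_natCast_nonneg q)
        _ = _ := by ring
    refine (sum_le_sum ht).trans ?_
    rw [← mul_sum]
    apply mul_le_mul_of_nonneg_left _ (by positivity)
    rcases Nat.lt_or_ge B D with hBD | hBD
    · rw [Ioc_eq_empty (by omega), filter_empty, sum_empty]; positivity
    · have h2 : ∑ q ∈ (Ioc D B).filter Nat.Prime, Real.log q / (q : ℝ) =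
          Pool.Agent.Helper559.A1 B - Pool.Agent.Helper559.A1 D := by
        unfold Pool.Agent.Helper559.A1
        have h3 : (Icc 1 B).filter Nat.Prime = (Icc 1 D).filter Nat.Prime ∪ (Ioc D B).filter Nat.Prime := by
          rw [← filter_union]
          congr 1
          ext q; rw [mem_union, mem_Icc, mem_Icc, mem_Ioc]; omega
        rw [h3, sum_union]
        · ring
        · apply disjoint_filter_filter
          rw [disjoint_left]
          intro q hq hq'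
          rw [mem_Icc] at hq
          rw [mem_Ioc] at hq'
          omega
      rw [h2]
      have h3 := Pool.Agent.Helper559.A1_le B hB1
      have h4 := Pool.Agent.Helper559.le_A1 D hD1
      have h5 : Real.log 4 ≤ 2 := by
        have : Real.log 4 = 2 * Real.log 2 := by
          rw [show (4 : ℝ) = 2 ^ 2 by norm_num, Real.log_pow]; norm_num
        have := Real.log_two_lt_d9
        linarith
      linarith
  -- the third sum
  have hT3 : ∑ p ∈ S, ∑ d ∈ ((Ioc D (X + h)).filter (fun d => ¬ d.Prime)).filter (fun d => d ∣ p + h), vonMangoldt d ≤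
      η / 2 * (M * L) := by
    obtain ⟨S0, hS0⟩ : ∃ S0, S0 = ⌊(X : ℝ) ^ (1 / 10 : ℝ)⌋₊ := ⟨_, rfl⟩
    have hS0le : (S0 : ℝ) ≤ (X : ℝ) ^ (1 / 10 : ℝ) := by rw [hS0]; exact Nat.floor_le (by positivity)
    have hS0ge : (X : ℝ) ^ (1 / 10 : ℝ) < S0 + 1 := by rw [hS0]; exact Nat.lt_floor_add_one _
    have hcube : S0 ^ 3 ≤ D := by
      rw [hD]
      apply Nat.le_floor
      push_cast
      calc (S0 : ℝ) ^ 3 ≤ ((X : ℝ) ^ (1 / 10 : ℝ)) ^ 3 := pow_le_pow_left₀ (Nat.cast_nonneg _) hS0le 3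
        _ = (X : ℝ) ^ (3 / 10 : ℝ) := by rw [← Real.rpow_natCast, ← Real.rpow_mul hX0.le]; norm_num
        _ ≤ _ := Real.rpow_le_rpow_of_exponent_le hX1 (by linarith)
    have hhX : (h : ℝ) ≤ X := by exact_mod_cast (by omega : h ≤ X)
    refine (third X h D S0 (by omega) hcube S hSsub).trans ?_
    have g1 : Real.log ((X + h : ℕ) : ℝ) ≤ 2 * L := by
      have g2 : ((X + h : ℕ) : ℝ) ≤ (X : ℝ) ^ 2 := by push_cast; nlinarith
      have g3 := Real.log_le_log (by exact_mod_cast (by omega : 0 < X + h)) g2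
      rw [Real.log_pow, ← hL] at g3
      push_cast at g3 ⊢
      linarith
    have g4 : (X + h : ℝ) * (2 / (S0 + 1)) ≤ 4 * (X : ℝ) ^ (9 / 10 : ℝ) := by
      have g5 : (2 : ℝ) / (S0 + 1) ≤ 2 / (X : ℝ) ^ (1 / 10 : ℝ) :=
        div_le_div_of_nonneg_left (by norm_num) (by positivity) hS0ge.le
      calc (X + h : ℝ) * (2 / (S0 + 1)) ≤ (2 * X) * (2 / (X : ℝ) ^ (1 / 10 : ℝ)) := by
            apply mul_le_mul (by linarith) g5 (by positivity) (by positivity)
        _ = 4 * (X / (X : ℝ) ^ (1 / 10 : ℝ)) := by ring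
        _ = 4 * (X : ℝ) ^ (9 / 10 : ℝ) := by
            congr 1
            nth_rewrite 1 [← Real.rpow_one (X : ℝ)]
            rw [← Real.rpow_sub hX0]; norm_num
    have g6 : 8 * (X : ℝ) ^ (9 / 10 : ℝ) ≤ η / 2 * M := by
      have g7 : 16 / (c * η) * L ^ (k + 1) = 16 * L ^ (k + 1) / (c * η) := by ring
      rw [g7, div_le_iff₀ (by positivity)] at e8
      have g8 : X / L ^ (k + 1) * c ≤ M := by linarith
      refine le_trans ?_ (mul_le_mul_of_nonneg_left g8 (by positivity))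
      have g9 : η / 2 * (X / L ^ (k + 1) * c) = (η * c * X / 2) / L ^ (k + 1) := by ring
      rw [g9, le_div_iff₀ (by positivity)]
      have g10 : (X : ℝ) = (X : ℝ) ^ (9 / 10 : ℝ) * (X : ℝ) ^ (1 / 10 : ℝ) := by
        rw [← Real.rpow_add hX0]; norm_num
      calc 8 * (X : ℝ) ^ (9 / 10 : ℝ) * L ^ (k + 1) = (X : ℝ) ^ (9 / 10 : ℝ) * (16 * L ^ (k + 1)) / 2 := by ring
        _ ≤ (X : ℝ) ^ (9 / 10 : ℝ) * ((X : ℝ) ^ (1 / 10 : ℝ) * (c * η)) / 2 := by
            apply div_le_div_of_nonneg_right _ (by norm_num)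
            exact mul_le_mul_of_nonneg_left e8 (by positivity)
        _ = (η * c * ((X : ℝ) ^ (9 / 10 : ℝ) * (X : ℝ) ^ (1 / 10 : ℝ)) / 2) := by ring
        _ = _ := by rw [← g10]
    calc Real.log ((X + h : ℕ) : ℝ) * ((X + h : ℝ) * (2 / (S0 + 1))) ≤ (2 * L) * (4 * (X : ℝ) ^ (9 / 10 : ℝ)) :=
          mul_le_mul g1 g4 (by positivity) (by positivity)
      _ = L * (8 * (X : ℝ) ^ (9 / 10 : ℝ)) := by ring
      _ ≤ L * (η / 2 * M) := mul_le_mul_of_nonneg_left g6 hL0.le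
      _ = _ := by ring
  have hfin : (2 * C1 + C * (C3 + C4) + 11 * C) * M ≤ η * (M * L) := by
    rw [div_le_iff₀ hη] at e5
    calc (2 * C1 + C * (C3 + C4) + 11 * C) * M ≤ (L * η) * M := mul_le_mul_of_nonneg_right e5 m2.le
      _ = _ := by ring
  have hlogDM : (1 + η) * M * (Real.log D + C1) ≤ (1 + η) * M * (1 / 2 * L) + 2 * C1 * M := by
    have h1 : (1 + η) * M * (Real.log D + C1) ≤ (1 + η) * M * (1 / 2 * L + C1) :=
      mul_le_mul_of_nonneg_left (by linarith) (by positivity)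
    have h2 : (1 + η) * (M * C1) ≤ 2 * (M * C1) := mul_le_mul_of_nonneg_right (by linarith) (by positivity)
    have h3 : (1 + η) * M * (1 / 2 * L + C1) = (1 + η) * M * (1 / 2 * L) + (1 + η) * (M * C1) := by ring
    linarith
  have e10 : (1 / 2 + 2 * η + 2 * C * δ) * (M * L) = (1 + η) * M * (1 / 2 * L) + C * M * (2 * δ * L) + η / 2 * (M * L) + η * (M * L) := by
    ring
  have e11 : C * M * (2 * δ * L + 11) = C * M * (2 * δ * L) + 11 * C * M := by ring
  rw [e10]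
  rw [e11] at hT2
  linarith

end Pool.Agent.K4H50.QM
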