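import Pool.Agent.K4H50.QM.F10

/-!
# Large prime factors of both `p + h1` and `p + h2` for the sifted primes
-/

set_option autoImplicit false

namespace Pool.Agent.K4H50.QM

open Finset Filter
open Pool.Agent.H442R2.KF (piN piAP Er)
open Pool.Agent.K4H50.HL (PZ npr_le)
open Pool.Agent.K4H50.TM (pi_lower log_inf rpow_inf modEq_iff Xl Y_point PP mem_PP yl yl_le yl_nonneg PP_point)
open ArithmeticFunction (vonMangoldt)

theorem LLs (X h1 h2 : ℕ) (η : ℝ) (hη0 : 0 < η) (hη1 : η < 1) (hX : 1 ≤ X) (S : Finset ℕ) (hS : S ⊆ Icc 1 X) :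
    (1 - η) ^ 2 * Real.log X ^ 2 * ((S.card : ℝ) - (X : ℝ) ^ (1 - η)) ≤
      ∑ p ∈ S, Real.log ((p + h1 : ℕ) : ℝ) * Real.log ((p + h2 : ℕ) : ℝ) := by
  have hX1 : (1 : ℝ) ≤ X := by exact_mod_cast hX
  have hX0 : (0 : ℝ) < X := by linarith
  obtain ⟨L, hL⟩ : ∃ L, L = Real.log (X : ℝ) := ⟨_, rfl⟩
  rw [← hL]
  have hL0 : 0 ≤ L := by rw [hL]; exact Real.log_nonneg hX1
  obtain ⟨M, hM⟩ : ∃ M, M = ⌊(X : ℝ) ^ (1 - η)⌋₊ := ⟨_, rfl⟩
  have hMle : (M : ℝ) ≤ (X : ℝ) ^ (1 - η) := by rw [hM]; exact Nat.floor_le (by positivity)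
  have hMge : (X : ℝ) ^ (1 - η) < M + 1 := by rw [hM]; exact Nat.lt_floor_add_one _
  obtain ⟨s, hs⟩ : ∃ s, s = S.filter (fun p => M < p) := ⟨_, rfl⟩
  have hcard : (S.card : ℝ) - (X : ℝ) ^ (1 - η) ≤ s.card := by
    have h3 : S.card ≤ s.card + M := by
      rw [← card_filter_add_card_filter_not (s := S) (fun p => M < p), ← hs]
      apply Nat.add_le_add_left
      calc _ ≤ (Icc 1 M).card := by
            apply card_le_card
            intro p hp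
            rw [mem_filter] at hp
            have := hS hp.1
            rw [mem_Icc] at this
            rw [mem_Icc]
            exact ⟨this.1, by omega⟩
        _ = M := by simp
    have h4 : (S.card : ℝ) ≤ s.card + M := by exact_mod_cast h3
    linarith
  have hterm : ∀ p ∈ s, (1 - η) ^ 2 * L ^ 2 ≤ Real.log ((p + h1 : ℕ) : ℝ) * Real.log ((p + h2 : ℕ) : ℝ) := by
    intro p hp
    rw [hs, mem_filter] at hp
    have hp1 : (X : ℝ) ^ (1 - η) ≤ p := by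
      have : (M : ℝ) + 1 ≤ p := by exact_mod_cast hp.2
      linarith
    have hlog : ∀ h : ℕ, (1 - η) * L ≤ Real.log ((p + h : ℕ) : ℝ) := by
      intro h
      have h5 : (X : ℝ) ^ (1 - η) ≤ ((p + h : ℕ) : ℝ) := by push_cast; have : (0 : ℝ) ≤ h := Nat.cast_nonneg _; linarith
      have h6 := Real.log_le_log (by positivity) h5
      rwa [Real.log_rpow hX0, ← hL] at h6
    calc (1 - η) ^ 2 * L ^ 2 = ((1 - η) * L) * ((1 - η) * L) := by ring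
      _ ≤ _ := mul_le_mul (hlog h1) (hlog h2) (mul_nonneg (by linarith) hL0) (Real.log_natCast_nonneg _)
  calc (1 - η) ^ 2 * L ^ 2 * ((S.card : ℝ) - (X : ℝ) ^ (1 - η)) ≤ (1 - η) ^ 2 * L ^ 2 * s.card :=
        mul_le_mul_of_nonneg_left hcard (by positivity)
    _ = ∑ p ∈ s, (1 - η) ^ 2 * L ^ 2 := by rw [sum_const, nsmul_eq_mul]; ring
    _ ≤ ∑ p ∈ s, Real.log ((p + h1 : ℕ) : ℝ) * Real.log ((p + h2 : ℕ) : ℝ) := sum_le_sum hterm
    _ ≤ _ := by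
        apply sum_le_sum_of_subset_of_nonneg
        · rw [hs]; exact filter_subset _ _
        · intro p _ _
          exact mul_nonneg (Real.log_natCast_nonneg _) (Real.log_natCast_nonneg _)

theorem PP_mono {h h' D : ℕ} (hh : h ≤ h') : PP h' D ⊆ PP h D := by
  intro x hx
  obtain ⟨a1, a2, a3, a4, a5, a6, a7, a8, a9, a10⟩ := mem_PP hx
  unfold PP
  rw [mem_filter, mem_product, mem_Icc, mem_Icc]
  exact ⟨⟨⟨a1, a2⟩, ⟨a3, a4⟩⟩, a5, a6, by omega, by omega, a9, a10⟩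

theorem XXl (C0 : ℕ) (hFL : FLp C0) (k z0 b K2 : ℕ) (c2 C : ℝ) (hC : 0 < C) (hUP : UPp k z0 K2 c2 C)
    (δ : ℝ) (hδ : 0 < δ) (hCδ : (5 * C + 1) * δ ≤ 1 / 32)
    (hb : C0 * (k + 1) ≤ b) (hz : C0 * (k + 1) ≤ z0) (hz2 : 2 * k + 2 ≤ z0) (hb2 : (1 / 2 : ℝ) ^ b ≤ 1 / 800)
    (hbη : (1 + (1 / 2 : ℝ) ^ b) * (1 + 2 * k / z0) ≤ 1 + 1 / 400)
    (h1 h2 : ℕ) (h0 : 0 < h1) (h12 : h1 < h2) (h2z : h2 ≤ z0) :
    ∀ᶠ X : ℕ in atTop, ∀ (J2 J w0 : ℕ) (H : Finset ℕ), H.card = k → (∀ h ∈ H, 0 < h ∧ h ≤ z0 ∧ h ≠ h1 ∧ h ≠ h2) →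
      w0.Coprime (Wz z0) → JG (C0 * b) δ X J → J ≤ J2 → J2G K2 c2 X J2 →
      1 / 16 * (M0 X z0 J k * Real.log X ^ 2) ≤
      ∑ p ∈ Sf X (Wz z0) w0 z0 J H, Xl X h1 ⌊2 * (X : ℝ) ^ (1 / 2 + δ)⌋₊ p * Xl X h2 ⌊2 * (X : ℝ) ^ (1 / 2 + δ)⌋₊ p := by
  have hδ8 : δ ≤ 1 / 8 := by nlinarith
  obtain ⟨c, hc, hM⟩ := M0_lower z0 k hz2
  obtain ⟨C1, hC1, hTZ⟩ := TZ C0 hFL k z0 b (1 / 400) δ (by norm_num) (by norm_num) hδ hδ8 hb hz hz2 (by linarith) h1 h2 h0 h12 h2z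
  filter_upwards [T1 C0 hFL k z0 b (1 / 400) δ (by norm_num) hδ hδ8 hb hz hz2 (by linarith), hTZ,
    TY C0 hFL k z0 b K2 c2 C hC hUP (1 / 400) δ (by norm_num) (by norm_num) hδ hδ8 hb hz hz2 hbη, hM,
    log_inf 1, log_inf (400 * (2 * C1 + 2)), eventually_ge_atTop (z0 + 3),
    logpow_small (k + 1) (1 / 400) (by norm_num) (400 / c), rpow_inf (1 / 2 - δ) (by linarith) (z0 + 1)]
    with X e1 e2 e3 e4 e5 e6 e7 e8 e9
  intro J2 J w0 H hH hle hw0 hJ hJJ hJ2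
  have hle' : ∀ h ∈ H, 0 < h ∧ h ≤ z0 := fun h hh => ⟨(hle h hh).1, (hle h hh).2.1⟩
  have t1 := (abs_le.1 (e1 J w0 H hH hle' hw0 hJ)).1
  have tz := e2 J w0 H hH hle hw0 hJ
  have ty1 := e3 J2 J w0 h1 H hH hle' hw0 hJ hJJ hJ2 h0 (by omega)
  have ty2 := e3 J2 J w0 h2 H hH hle' hw0 hJ hJJ hJ2 (by omega) h2z
  obtain ⟨j1, j2, j3, j4⟩ := hJ
  obtain ⟨m1, m2, m3⟩ := e4 J j1 j3
  have hX3 : (3 : ℝ) ≤ X := by exact_mod_cast (by omega : 3 ≤ X)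
  have hX0 : (0 : ℝ) < X := by linarith
  have hX1 : (1 : ℝ) ≤ X := by linarith
  obtain ⟨L, hL⟩ : ∃ L : ℝ, L = Real.log X := ⟨_, rfl⟩
  obtain ⟨M, hMd⟩ : ∃ M : ℝ, M = M0 X z0 J k := ⟨_, rfl⟩
  obtain ⟨S, hS⟩ : ∃ S, S = Sf X (Wz z0) w0 z0 J H := ⟨_, rfl⟩
  obtain ⟨D, hD⟩ : ∃ D, D = ⌊(X : ℝ) ^ (1 / 2 - δ)⌋₊ := ⟨_, rfl⟩
  obtain ⟨B, hB⟩ : ∃ B, B = ⌊2 * (X : ℝ) ^ (1 / 2 + δ)⌋₊ := ⟨_, rfl⟩
  rw [← hL] at m1 e5 e6 e8 ty1 ty2 ⊢
  rw [← hMd] at m1 m2 t1 tz ty1 ty2 ⊢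
  rw [← hS] at t1 tz ty1 ty2 ⊢
  rw [← hD] at tz
  rw [← hB] at ty1 ty2 ⊢
  have hL0 : 0 < L := by linarith
  have hSsub : S ⊆ Icc 1 X := by
    intro p hp
    rw [hS, mem_Sf] at hp
    rw [mem_Icc]
    exact hp.1
  have hDle : (D : ℝ) ≤ (X : ℝ) ^ (1 / 2 - δ) := by rw [hD]; exact Nat.floor_le (by positivity)
  have hDge : (X : ℝ) ^ (1 / 2 - δ) < D + 1 := by rw [hD]; exact Nat.lt_floor_add_one _
  have hD1 : 1 ≤ D := by
    rw [hD]; apply Nat.le_floor; push_cast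
    exact Real.one_le_rpow hX1 (by linarith)
  have hD1r : (1 : ℝ) ≤ D := by exact_mod_cast hD1
  have hDB : D ≤ B := by
    rw [hD, hB]
    apply Nat.floor_le_floor
    have h3 : (X : ℝ) ^ (1 / 2 - δ) ≤ (X : ℝ) ^ (1 / 2 + δ) := Real.rpow_le_rpow_of_exponent_le hX1 (by linarith)
    have h4 : 0 < (X : ℝ) ^ (1 / 2 + δ) := by positivity
    linarith
  have hDX : D ≤ X := by
    have : (D : ℝ) ≤ X := by
      calc (D : ℝ) ≤ (X : ℝ) ^ (1 / 2 - δ) := hDle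
        _ ≤ (X : ℝ) ^ (1 : ℝ) := Real.rpow_le_rpow_of_exponent_le hX1 (by linarith)
        _ = X := Real.rpow_one _
    exact_mod_cast this
  have hlogD : Real.log D ≤ L := by
    rw [hL]; exact Real.log_le_log (by exact_mod_cast hD1) (by exact_mod_cast hDX)
  have hlogD2 : (1 / 2 - δ) * L - 1 ≤ Real.log D := by
    have h1 : (X : ℝ) ^ (1 / 2 - δ) ≤ 2 * D := by linarith
    have h2 := Real.log_le_log (by positivity) h1
    rw [Real.log_rpow hX0, Real.log_mul (by norm_num) (by linarith), ← hL] at h2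
    have := Real.log_two_lt_d9
    linarith
  have hMl : ∀ p : ℕ, 1 ≤ p → p ≤ X → ∀ k : ℕ, k ≤ h2 → Real.log ((p + k : ℕ) : ℝ) ≤ L + 1 := by
    intro p hp hpX k hk
    have h3 : ((p + k : ℕ) : ℝ) ≤ 2 * X := by
      have : p + k ≤ 2 * X := by omega
      exact_mod_cast this
    have h4 : Real.log ((p + k : ℕ) : ℝ) ≤ Real.log (2 * X) :=
      Real.log_le_log (by exact_mod_cast (by omega : 0 < p + k)) h3
    rw [Real.log_mul (by norm_num) (by linarith), ← hL] at h4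
    have := Real.log_two_lt_d9
    linarith
  have hpt : ∀ p ∈ S,
      Real.log ((p + h1 : ℕ) : ℝ) * Real.log ((p + h2 : ℕ) : ℝ) -
        (L + 1) * (Real.log ((p + h1 : ℕ) : ℝ) - Xl X h1 B p) - (L + 1) * (Real.log ((p + h2 : ℕ) : ℝ) - Xl X h2 B p) +
        ∑ x ∈ (PP z0 D).filter (fun x => x.1 ∣ p + h1 ∧ x.2 ∣ p + h2), Real.log x.1 * Real.log x.2 ≤
      Xl X h1 B p * Xl X h2 B p := by
    intro p hp
    have hp' := hSsub hp
    rw [mem_Icc] at hp'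
    have a1 := hMl p hp'.1 hp'.2 h1 h12.le
    have a2 := hMl p hp'.1 hp'.2 h2 le_rfl
    have a3 : ∑ x ∈ (PP z0 D).filter (fun x => x.1 ∣ p + h1 ∧ x.2 ∣ p + h2), Real.log x.1 * Real.log x.2 ≤
        yl h1 D p * yl h2 D p := by
      refine le_trans ?_ (PP_point h1 h2 D p)
      apply sum_le_sum_of_subset_of_nonneg
      · exact filter_subset_filter _ (PP_mono h2z)
      · intro x _ _
        exact mul_nonneg (Real.log_natCast_nonneg _) (Real.log_natCast_nonneg _)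
    have a4 := yl_le X h1 D B p hp'.1 hp'.2 hDB hDX
    have a5 := yl_le X h2 D B p hp'.1 hp'.2 hDB hDX
    have a6 := yl_nonneg h1 D p
    have a7 := yl_nonneg h2 D p
    obtain ⟨l1, hl1⟩ : ∃ l1, l1 = Real.log ((p + h1 : ℕ) : ℝ) := ⟨_, rfl⟩
    obtain ⟨l2, hl2⟩ : ∃ l2, l2 = Real.log ((p + h2 : ℕ) : ℝ) := ⟨_, rfl⟩
    rw [← hl1] at a1 a4 ⊢
    rw [← hl2] at a2 a5 ⊢
    obtain ⟨y1, hy1⟩ : ∃ y1, y1 = l1 - Xl X h1 B p := ⟨_, rfl⟩
    obtain ⟨y2, hy2⟩ : ∃ y2, y2 = l2 - Xl X h2 B p := ⟨_, rfl⟩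
    have b1 : Xl X h1 B p = l1 - y1 := by rw [hy1]; ring
    have b2 : Xl X h2 B p = l2 - y2 := by rw [hy2]; ring
    rw [b1, b2]
    rw [← hy1] at a4
    rw [← hy2] at a5
    have c1 : yl h1 D p * yl h2 D p ≤ y1 * y2 := mul_le_mul a4 a5 a7 (a6.trans a4)
    have c2 : l2 * y1 ≤ (L + 1) * y1 := mul_le_mul_of_nonneg_right a2 (a6.trans a4)
    have c3 : l1 * y2 ≤ (L + 1) * y2 := mul_le_mul_of_nonneg_right a1 (a7.trans a5)
    have c4 : (l1 - y1) * (l2 - y2) = l1 * l2 - l1 * y2 - l2 * y1 + y1 * y2 := by ring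
    have c5 : l1 - (l1 - y1) = y1 := by ring
    have c6 : l2 - (l2 - y2) = y2 := by ring
    rw [c4, c5, c6]
    linarith
  refine le_trans ?_ (sum_le_sum hpt)
  have hswap : ∑ p ∈ S, ∑ x ∈ (PP z0 D).filter (fun x => x.1 ∣ p + h1 ∧ x.2 ∣ p + h2), Real.log x.1 * Real.log x.2 =
      ∑ x ∈ PP z0 D, Real.log x.1 * Real.log x.2 * ((S.filter (fun p => x.1 ∣ p + h1 ∧ x.2 ∣ p + h2)).card : ℝ) := by
    have e : ∀ p ∈ S, ∑ x ∈ (PP z0 D).filter (fun x => x.1 ∣ p + h1 ∧ x.2 ∣ p + h2),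
        Real.log x.1 * Real.log x.2 = ∑ x ∈ PP z0 D, if x.1 ∣ p + h1 ∧ x.2 ∣ p + h2 then Real.log x.1 * Real.log x.2 else 0 :=
      fun p _ => by rw [sum_filter]
    rw [sum_congr rfl e, sum_comm]
    apply sum_congr rfl
    intro x _
    rw [← sum_filter, sum_const, nsmul_eq_mul, mul_comm]
  rw [sum_add_distrib, sum_sub_distrib, sum_sub_distrib, ← mul_sum, ← mul_sum, hswap]
  have f0 := LLs X h1 h2 (1 / 400) (by norm_num) (by norm_num) (by omega) S hSsub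
  rw [← hL] at f0
  -- the small primes
  have g1 : (X : ℝ) ^ (1 - 1 / 400 : ℝ) ≤ 1 / 400 * M := by
    have g2 : 400 / c * L ^ (k + 1) = 400 * L ^ (k + 1) / c := by ring
    rw [g2, div_le_iff₀ hc] at e8
    have g10 : (X : ℝ) = (X : ℝ) ^ (1 - 1 / 400 : ℝ) * (X : ℝ) ^ (1 / 400 : ℝ) := by
      rw [← Real.rpow_add hX0]; norm_num
    have g3 : (X : ℝ) ^ (1 - 1 / 400 : ℝ) ≤ 1 / 400 * (c * (X / L ^ (k + 1))) := by
      have g4 : 1 / 400 * (c * (X / L ^ (k + 1))) = (c * X / 400) / L ^ (k + 1) := by ring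
      rw [g4, le_div_iff₀ (by positivity)]
      calc (X : ℝ) ^ (1 - 1 / 400 : ℝ) * L ^ (k + 1) = (X : ℝ) ^ (1 - 1 / 400 : ℝ) * (400 * L ^ (k + 1)) / 400 := by ring
        _ ≤ (X : ℝ) ^ (1 - 1 / 400 : ℝ) * ((X : ℝ) ^ (1 / 400 : ℝ) * c) / 400 := by
            apply div_le_div_of_nonneg_right _ (by norm_num)
            exact mul_le_mul_of_nonneg_left e8 (by positivity)
        _ = c * ((X : ℝ) ^ (1 - 1 / 400 : ℝ) * (X : ℝ) ^ (1 / 400 : ℝ)) / 400 := by ring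
        _ = _ := by rw [← g10]
    linarith
  have f1 : (1 - 4 / 400) * (M * L ^ 2) ≤
      ∑ p ∈ S, Real.log ((p + h1 : ℕ) : ℝ) * Real.log ((p + h2 : ℕ) : ℝ) := by
    refine le_trans ?_ f0
    have g5 : (1 - 2 / 400) * M ≤ (S.card : ℝ) - (X : ℝ) ^ (1 - 1 / 400 : ℝ) := by linarith
    have g6 : 0 ≤ M * L ^ 2 := by positivity
    calc (1 - 4 / 400) * (M * L ^ 2) ≤ ((1 - 1 / 400) ^ 2 * (1 - 2 / 400)) * (M * L ^ 2) :=
          mul_le_mul_of_nonneg_right (by norm_num) g6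
      _ = (1 - 1 / 400) ^ 2 * L ^ 2 * ((1 - 2 / 400) * M) := by ring
      _ ≤ _ := mul_le_mul_of_nonneg_left g5 (by positivity)
  have hCd : 0 ≤ C * δ := by positivity
  have hCd2 : C * δ ≤ 1 / 160 := by nlinarith
  have hd2 : δ ≤ 1 / 32 := by nlinarith
  have hLbig : 800 ≤ L := by nlinarith
  have f2 : (L + 1) * ∑ p ∈ S, (Real.log ((p + h1 : ℕ) : ℝ) - Xl X h1 B p) ≤
      (1 + 1 / 800) * (1 / 2 + 2 / 400 + 2 * C * δ) * (M * L ^ 2) := by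
    calc (L + 1) * ∑ p ∈ S, (Real.log ((p + h1 : ℕ) : ℝ) - Xl X h1 B p) ≤
          (L + 1) * ((1 / 2 + 2 * (1 / 400) + 2 * C * δ) * (M * L)) := mul_le_mul_of_nonneg_left ty1 (by linarith)
      _ ≤ ((1 + 1 / 800) * L) * ((1 / 2 + 2 * (1 / 400) + 2 * C * δ) * (M * L)) := by
          apply mul_le_mul_of_nonneg_right (by linarith)
          have : 0 ≤ 2 * C * δ := by positivity
          positivity
      _ = _ := by ring
  have f3 : (L + 1) * ∑ p ∈ S, (Real.log ((p + h2 : ℕ) : ℝ) - Xl X h2 B p) ≤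
      (1 + 1 / 800) * (1 / 2 + 2 / 400 + 2 * C * δ) * (M * L ^ 2) := by
    calc (L + 1) * ∑ p ∈ S, (Real.log ((p + h2 : ℕ) : ℝ) - Xl X h2 B p) ≤
          (L + 1) * ((1 / 2 + 2 * (1 / 400) + 2 * C * δ) * (M * L)) := mul_le_mul_of_nonneg_left ty2 (by linarith)
      _ ≤ ((1 + 1 / 800) * L) * ((1 / 2 + 2 * (1 / 400) + 2 * C * δ) * (M * L)) := by
          apply mul_le_mul_of_nonneg_right (by linarith)
          have : 0 ≤ 2 * C * δ := by positivity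
          positivity
      _ = _ := by ring
  have f4 : (1 - 1 / 400) * ((1 / 8 - δ / 2 - 1 / 200) * (M * L ^ 2)) ≤
      (1 - 1 / 400) * M * (Real.log D ^ 2 / 2 - C1 * (1 + Real.log D)) := by
    have g5 : (1 / 8 - δ / 2 - 1 / 200) * L ^ 2 ≤ Real.log D ^ 2 / 2 - C1 * (1 + Real.log D) := by
      have g6 : C1 * (1 + Real.log D) ≤ 2 * C1 * L := by nlinarith
      have g7 : 0 ≤ (1 / 2 - δ) * L - 1 := by nlinarith
      have g8 : ((1 / 2 - δ) * L - 1) ^ 2 ≤ Real.log D ^ 2 := pow_le_pow_left₀ g7 hlogD2 2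
      have g9 : (1 / 4 - δ) * L ^ 2 - L ≤ ((1 / 2 - δ) * L - 1) ^ 2 := by nlinarith [sq_nonneg (δ * L), mul_pos hδ hL0]
      have g11 : 2 * C1 * L + L ≤ 1 / 200 * L ^ 2 := by nlinarith
      nlinarith
    have g12 := mul_le_mul_of_nonneg_left g5 (show 0 ≤ (1 - 1 / 400) * M by nlinarith)
    linarith
  have f5 : 0 ≤ M * L ^ 2 := by positivity
  have f6 : 1 / 16 * (M * L ^ 2) ≤ ((1 - 4 / 400) - 2 * ((1 + 1 / 800) * (1 / 2 + 2 / 400 + 2 * C * δ)) +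
      (1 - 1 / 400) * (1 / 8 - δ / 2 - 1 / 200)) * (M * L ^ 2) := by
    apply mul_le_mul_of_nonneg_right _ f5
    nlinarith
  linarith

end Pool.Agent.K4H50.QM
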