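import Pool.Agent.K4H50.QM.F11

/-!
# A positive proportion of the pairs of multipliers
-/

set_option autoImplicit false

namespace Pool.Agent.K4H50.QM

open Finset Filter
open Pool.Agent.H442R2.KF (piN piAP Er)
open Pool.Agent.K4H50.HL (PZ npr_le)
open Pool.Agent.K4H50.TM (pi_lower log_inf rpow_inf modEq_iff Xl Xl_nonneg Xl_le_sum Np mem_Np sum_union_le')

theorem XX_le_N (h1 h2 X B N : ℕ) (h12 : h1 < h2) (h2X : h2 ≤ X) (hX : 2 ≤ X) (hN1 : (X + h1) / (B + 1) ≤ N)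
    (hN2 : (X + h2) / (B + 1) ≤ N) (S : Finset ℕ) (hS : S ⊆ (Icc 1 X).filter Nat.Prime) :
    ∑ p ∈ S, Xl X h1 B p * Xl X h2 B p ≤
      4 * Real.log X ^ 2 * ∑ x ∈ (Icc 1 N) ×ˢ (Icc 1 N), ((Nq h1 h2 X x.1 x.2 S).card : ℝ) := by
  obtain ⟨L, hL⟩ : ∃ L, L = Real.log (X : ℝ) := ⟨_, rfl⟩
  have hX2 : (2 : ℝ) ≤ X := by exact_mod_cast hX
  have hL0 : 0 ≤ L := by rw [hL]; exact Real.log_natCast_nonneg _
  rw [← hL]
  have hlog : ∀ p ∈ S, ∀ h a : ℕ, h ≤ h2 → Real.log (((p + h) / a : ℕ) : ℝ) ≤ 2 * L := by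
    intro p hp h a hh
    have hp' := hS hp
    rw [mem_filter, mem_Icc] at hp'
    rcases Nat.eq_zero_or_pos ((p + h) / a) with h0 | h0
    · rw [h0, Nat.cast_zero, Real.log_zero]; linarith
    · have h3 : (((p + h) / a : ℕ) : ℝ) ≤ (X : ℝ) ^ 2 := by
        have h4 : (p + h) / a ≤ p + h := Nat.div_le_self _ _
        have h5 : p + h ≤ 2 * X := by omega
        have h6 : 2 * X ≤ X ^ 2 := by nlinarith
        exact_mod_cast (h4.trans (h5.trans h6))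
      have h7 := Real.log_le_log (by exact_mod_cast h0) h3
      rw [Real.log_pow, ← hL] at h7
      exact_mod_cast h7
  have hpt : ∀ p ∈ S, Xl X h1 B p * Xl X h2 B p ≤
      ∑ x ∈ (Icc 1 N) ×ˢ (Icc 1 N), (if p ∈ Np h1 h2 X x.1 x.2 then 4 * L ^ 2 else 0) := by
    intro p hp
    have hp' := hS hp
    rw [mem_filter, mem_Icc] at hp'
    have g1 : ∀ h : ℕ, h ≤ h2 → (X + h) / (B + 1) ≤ N → Xl X h B p ≤
        ∑ a ∈ (Icc 1 N).filter (fun a => a ∣ p + h ∧ ((p + h) / a).Prime), 2 * L := by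
      intro h hh hhN
      refine (Xl_le_sum X h B N p hp'.1.1 hp'.1.2 hhN).trans ?_
      apply sum_le_sum
      intro a _
      exact hlog p hp h a hh
    refine (mul_le_mul (g1 h1 h12.le hN1) (g1 h2 le_rfl hN2) (Xl_nonneg _ _ _ _) (sum_nonneg fun _ _ => by linarith)).trans ?_
    rw [sum_mul_sum, ← sum_product', ← sum_filter]
    apply le_of_eq
    have e : 2 * L * (2 * L) = 4 * L ^ 2 := by ring
    simp only [e]
    congr 1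
    ext ⟨a, b⟩
    rw [mem_product, mem_filter, mem_filter, mem_filter, mem_product, mem_Np]
    simp only
    constructor
    · rintro ⟨⟨a1, a2, a3⟩, b1, b2, b3⟩
      exact ⟨⟨a1, b1⟩, hp'.1, hp'.2, a2, b2, a3, b3⟩
    · rintro ⟨⟨a1, b1⟩, _, _, a2, b2, a3, b3⟩
      exact ⟨⟨a1, a2, a3⟩, b1, b2, b3⟩
  refine (sum_le_sum hpt).trans (le_of_eq ?_)
  rw [sum_comm, mul_sum]
  apply sum_congr rfl
  intro x _
  rw [← sum_filter, sum_const, nsmul_eq_mul, mul_comm]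
  congr 2
  unfold Nq
  congr 1
  ext p
  rw [mem_filter, mem_filter]
  tauto

theorem rhoK_rect (K C : ℝ) (hK : 0 ≤ K) (hC : 0 < C) (h : ∀ A : ℕ, ∑ a ∈ Icc 1 A, rhoK K a ^ 2 / a ≤ C * (1 + Real.log A))
    (A B : ℕ) :
    ∑ x ∈ (Icc 1 A) ×ˢ (Icc 1 B), (rhoK K x.1 * rhoK K x.2) ^ 2 / ((x.1 : ℝ) * x.2) ≤
      C ^ 2 * ((1 + Real.log A) * (1 + Real.log B)) := by
  have e : ∑ x ∈ (Icc 1 A) ×ˢ (Icc 1 B), (rhoK K x.1 * rhoK K x.2) ^ 2 / ((x.1 : ℝ) * x.2) =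
      (∑ a ∈ Icc 1 A, rhoK K a ^ 2 / a) * ∑ b ∈ Icc 1 B, rhoK K b ^ 2 / b := by
    rw [sum_mul_sum, ← sum_product']
    apply sum_congr rfl
    intro x _
    rw [mul_pow, mul_div_mul_comm]
  rw [e]
  have h1 := Real.log_natCast_nonneg A
  have h2 := Real.log_natCast_nonneg B
  calc _ ≤ (C * (1 + Real.log A)) * (C * (1 + Real.log B)) :=
        mul_le_mul (h A) (h B) (sum_nonneg fun _ _ => by positivity) (by positivity)
    _ = _ := by ring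

open Classical in
/-- the primes counted -/
noncomputable def QQ (h1 h2 : ℕ) (H : Finset ℕ) (z : ℝ) (X a b : ℕ) : Finset ℕ :=
  (Icc 1 X).filter (fun p => p.Prime ∧ a ∣ p + h1 ∧ b ∣ p + h2 ∧ ((p + h1) / a).Prime ∧ ((p + h2) / b).Prime ∧
    ∀ h ∈ H, ∀ l : ℕ, l.Prime → l ∣ p + h → z < l)

theorem Nq_QQ (h1 h2 : ℕ) (H : Finset ℕ) (z : ℝ) (X a b z0 w0 J : ℕ) (hw : ∀ h ∈ H, (w0 + h).Coprime (Wz z0))
    (hz : z ≤ ((2 ^ 2 ^ J : ℕ) : ℝ)) :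
    (Nq h1 h2 X a b (Sf X (Wz z0) w0 z0 J H)).card ≤ (QQ h1 h2 H z X a b).card := by
  classical
  apply card_le_card
  intro p hp
  unfold Nq at hp
  rw [mem_filter, mem_Np, mem_Sf] at hp
  obtain ⟨⟨a1, a2, a3, a4, a5, a6⟩, _, _, b1, b2⟩ := hp
  unfold QQ
  rw [mem_filter, mem_Icc]
  refine ⟨a1, a2, a3, a4, a5, a6, ?_⟩
  intro h hh l hl hd
  by_contra hlt
  rw [not_lt] at hlt
  have hlJ : l ≤ 2 ^ 2 ^ J := by exact_mod_cast hlt.trans hz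
  by_cases hlz : l ≤ z0
  · have h1 := Wz_dvd hl hlz
    have h2 : p + h ≡ w0 + h [MOD l] := (b1.of_dvd h1).add_right h
    have h3 : l ∣ w0 + h := (h2.dvd_iff (dvd_refl l)).1 hd
    have h4 := Nat.dvd_gcd h3 h1
    rw [hw h hh] at h4
    have := Nat.le_of_dvd one_pos h4
    have := hl.one_lt
    omega
  · rw [not_le] at hlz
    have hPZ : l ∈ PZ z0 J := by
      unfold PZ
      rw [mem_filter, mem_Icc]
      exact ⟨⟨hl.one_lt.le, hlJ⟩, hl, hlz⟩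
    exact b2 l hPZ (Wz_not hl hlz) h hh hd

open Classical in
/-- the pairs of multipliers with many primes -/
noncomputable def RR (h1 h2 : ℕ) (H : Finset ℕ) (δ c η : ℝ) (X : ℕ) : Finset (ℕ × ℕ) :=
  ((Icc 1 X) ×ˢ (Icc 1 X)).filter (fun x => (X : ℝ) ^ δ ≤ x.1 ∧ (x.1 : ℝ) ≤ (X : ℝ) ^ (1 / 2 - δ) ∧
    (X : ℝ) ^ δ ≤ x.2 ∧ (x.2 : ℝ) ≤ (X : ℝ) ^ (1 / 2 - δ) ∧
    η * (X / (((x.1 : ℝ) * x.2) * Real.log X ^ (H.card + 3))) ≤ ((QQ h1 h2 H ((X : ℝ) ^ c) X x.1 x.2).card : ℝ))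

theorem main (h1 h2 : ℕ) (h0 : 0 < h1) (h12 : h1 < h2) (H : Finset ℕ) (hH : ∀ h ∈ H, 0 < h ∧ h ≠ h1 ∧ h ≠ h2)
    (adm : ∀ l : ℕ, l.Prime → ∃ w : ℕ, ¬ l ∣ w ∧ ∀ h ∈ H, ¬ l ∣ w + h) :
    ∃ δ c κ η : ℝ, 0 < δ ∧ δ < 1 / 4 ∧ 0 < c ∧ 0 < κ ∧ 0 < η ∧ ∀ᶠ X : ℕ in atTop,
      κ * Real.log X ^ 2 ≤ ∑ x ∈ RR h1 h2 H δ c η X, 1 / ((x.1 : ℝ) * x.2) := by
  classical
  obtain ⟨k, hk⟩ : ∃ k, k = H.card := ⟨_, rfl⟩
  obtain ⟨C0, hC0, hFL⟩ := FL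
  have hFL' : FLp C0 := hFL
  obtain ⟨CU, hCU, hU⟩ := cntU k
  obtain ⟨CN, hCN, hN⟩ := cntab k
  obtain ⟨z0, hz0⟩ : ∃ z0 : ℕ, z0 = C0 * (k + 1) + CU * (k + 2) + CN * (k + 4) + 2000 * k + 8 + h2 + H.sup id := ⟨_, rfl⟩
  have hsup : ∀ h ∈ H, h ≤ H.sup id := fun h hh => le_sup (f := id) hh
  have hHz : ∀ h ∈ H, 0 < h ∧ h ≤ z0 ∧ h ≠ h1 ∧ h ≠ h2 := by
    intro h hh
    have h3 := hsup h hh
    obtain ⟨a1, a2, a3⟩ := hH h hh
    exact ⟨a1, by omega, a2, a3⟩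
  have z1 : C0 * (k + 1) ≤ z0 := by omega
  have z2 : CU * (k + 2) ≤ z0 := by omega
  have z3 : CN * (k + 4) ≤ z0 := by omega
  have z4 : 2 * k + 8 ≤ z0 := by omega
  have z5 : h2 ≤ z0 := by omega
  have z6 : 2000 * k ≤ z0 := by omega
  obtain ⟨w0, hw0, hw0H⟩ := ex_w0 H adm z0
  obtain ⟨b, hb⟩ : ∃ b : ℕ, b = C0 * (k + 1) + 10 := ⟨_, rfl⟩
  have hb1 : C0 * (k + 1) ≤ b := by omega
  have hb2 : (1 / 2 : ℝ) ^ b ≤ 1 / 1024 := by
    calc (1 / 2 : ℝ) ^ b ≤ (1 / 2 : ℝ) ^ 10 := pow_le_pow_of_le_one (by norm_num) (by norm_num) (by omega)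
      _ = 1 / 1024 := by norm_num
  have hz0pos : (0 : ℝ) < z0 := by exact_mod_cast (by omega : 0 < z0)
  have hkz : 2 * (k : ℝ) / z0 ≤ 1 / 1000 := by
    rw [div_le_div_iff₀ hz0pos (by norm_num)]
    have : 2000 * (k : ℝ) ≤ z0 := by exact_mod_cast z6
    linarith
  have hkz0 : 0 ≤ 2 * (k : ℝ) / z0 := by positivity
  have hbη : (1 + (1 / 2 : ℝ) ^ b) * (1 + 2 * k / z0) ≤ 1 + 1 / 400 := by
    have h3 : 0 ≤ (1 / 2 : ℝ) ^ b := by positivity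
    calc (1 + (1 / 2 : ℝ) ^ b) * (1 + 2 * k / z0) ≤ (1 + 1 / 1024) * (1 + 1 / 1000) :=
          mul_le_mul (by linarith) (by linarith) (by linarith) (by norm_num)
      _ ≤ _ := by norm_num
  -- the second level
  obtain ⟨K2, hK2⟩ : ∃ K2 : ℕ, K2 = CU * (CU * (k + 2)) + CN * (CN * (k + 4)) + 1 := ⟨_, rfl⟩
  obtain ⟨c2, hc2, hJ2⟩ := Jchoice K2 (by omega) (1 / 24) (by norm_num)
  obtain ⟨C, hC, hUX⟩ := hU z0 z2 (by omega) c2 (1 / 24) hc2 (by norm_num) (by norm_num)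
  obtain ⟨CB, hCB, hNX⟩ := hN h1 h2 z0 h0 h12 z5 z3 z4 c2 (1 / 24) hc2 (by norm_num) (by norm_num)
  have hpowmono : ∀ J K K' : ℕ, K ≤ K' → (((2 ^ 2 ^ J) ^ K : ℕ) : ℝ) ≤ (((2 ^ 2 ^ J) ^ K' : ℕ) : ℝ) := by
    intro J K K' h
    exact_mod_cast Nat.pow_le_pow_right (by positivity) h
  have hUP : UPp k z0 K2 c2 C := by
    unfold UPp
    filter_upwards [hUX] with X e1
    intro J2 J H' w h d hH' hJJ hJ1 hle hd hdX hJ2
    obtain ⟨g1, g2, g3, g4⟩ := hJ2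
    exact e1 J2 J H' w h d hH' hJJ hJ1 hle hd (by rw [show (1 : ℝ) - 6 * (1 / 24) = 3 / 4 by norm_num]; exact hdX) g1 g2
      (le_trans (hpowmono J2 _ _ (by omega)) g3) g4
  -- the parameters delta
  obtain ⟨δ, hδ⟩ : ∃ δ : ℝ, δ = 1 / (32 * (5 * C + 1)) := ⟨_, rfl⟩
  have hδ0 : 0 < δ := by rw [hδ]; positivity
  have hCδ : (5 * C + 1) * δ ≤ 1 / 32 := by
    rw [hδ]
    apply le_of_eq
    field_simp
  have hδ32 : δ ≤ 1 / 32 := by nlinarith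
  have hK : (0 : ℝ) ≤ 2 * k + 6 := by positivity
  obtain ⟨Cr, hCr, hr⟩ := rhoK_sum (2 * (k : ℝ) + 6) hK
  obtain ⟨δ1, hδ1⟩ : ∃ δ1 : ℝ, δ1 = min δ (1 / (1024 * CB * Cr ^ 2)) := ⟨_, rfl⟩
  have hδ10 : 0 < δ1 := by rw [hδ1]; positivity
  have hδ1δ : δ1 ≤ δ := by rw [hδ1]; exact min_le_left _ _
  have hδ1C : 4 * CB * Cr ^ 2 * δ1 ≤ 1 / 256 := by
    have : δ1 ≤ 1 / (1024 * CB * Cr ^ 2) := by rw [hδ1]; exact min_le_right _ _
    calc 4 * CB * Cr ^ 2 * δ1 ≤ 4 * CB * Cr ^ 2 * (1 / (1024 * CB * Cr ^ 2)) := mul_le_mul_of_nonneg_left this (by positivity)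
      _ = 1 / 256 := by field_simp; norm_num
  -- the first level
  obtain ⟨K3, hK3⟩ : ∃ K3 : ℕ, K3 = C0 * b + CN * (CN * (k + 4)) + 1 := ⟨_, rfl⟩
  obtain ⟨c3, hc3, hJ3⟩ := Jchoice K3 (by omega) (δ / 4) (by positivity)
  obtain ⟨cJ, hcJ⟩ : ∃ cJ : ℝ, cJ = min c2 c3 := ⟨_, rfl⟩
  have hcJ0 : 0 < cJ := by rw [hcJ]; positivity
  obtain ⟨CD, hCD, hND⟩ := hN h1 h2 z0 h0 h12 z5 z3 z4 cJ (δ / 3) hcJ0 (by positivity) (by linarith)
  obtain ⟨cM, hcM, hM⟩ := M0_lower z0 k (by omega)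
  refine ⟨δ1, cJ / 2, (1 / (128 * CD)) ^ 2 / Cr ^ 2, 1 / 256 * cM, hδ10, by linarith, by positivity, by positivity,
    by positivity, ?_⟩
  filter_upwards [hJ2, hJ3, hNX, hND, hM,
    XXl C0 hFL' k z0 b K2 c2 C hC hUP δ hδ0 hCδ hb1 z1 (by omega) (by linarith) hbη h1 h2 h0 h12 z5,
    log_inf 2, log_inf (1 / δ1), eventually_ge_atTop (h2 + 3)] with X e1 e2 e3 e4 e5 e6 e7 e8 e9
  obtain ⟨J2, i1, i2, i3, i4⟩ := e1
  obtain ⟨J3, l1, l2, l3, l4⟩ := e2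
  obtain ⟨J, hJ⟩ : ∃ J, J = min J3 J2 := ⟨_, rfl⟩
  have hJ3' : J ≤ J3 := by rw [hJ]; exact min_le_left _ _
  have hJ2' : J ≤ J2 := by rw [hJ]; exact min_le_right _ _
  have hJ1 : 1 ≤ J := by rw [hJ]; exact le_min l1 i1
  have hX3 : (3 : ℝ) ≤ X := by exact_mod_cast (by omega : 3 ≤ X)
  have hX0 : (0 : ℝ) < X := by linarith
  have hX1 : (1 : ℝ) ≤ X := by linarith
  have hlevJ : ∀ K : ℕ, K ≤ K3 → (((2 ^ 2 ^ J) ^ K : ℕ) : ℝ) ≤ (X : ℝ) ^ (δ / 4) := by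
    intro K hKK
    refine le_trans ?_ l2
    refine (hpowmono J K K3 hKK).trans ?_
    exact_mod_cast Nat.pow_le_pow_left (Nat.pow_le_pow_right (by norm_num) (Nat.pow_le_pow_right (by norm_num) hJ3')) K3
  have hJc : cJ * Real.log X ≤ (2 : ℝ) ^ J := by
    have hlog0 : 0 ≤ Real.log X := by linarith
    rcases le_total J3 J2 with hle | hle
    · have : J = J3 := by rw [hJ]; exact min_eq_left hle
      rw [this]
      refine le_trans ?_ l3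
      exact mul_le_mul_of_nonneg_right (by rw [hcJ]; exact min_le_right _ _) hlog0
    · have : J = J2 := by rw [hJ]; exact min_eq_right hle
      rw [this]
      refine le_trans ?_ i3
      exact mul_le_mul_of_nonneg_right (by rw [hcJ]; exact min_le_left _ _) hlog0
  have hJL : (J : ℝ) + 2 ≤ Real.log X := by
    have : (J : ℝ) ≤ J3 := by exact_mod_cast hJ3'
    linarith
  have h2J : ((2 ^ 2 ^ J : ℕ) : ℝ) ≤ (X : ℝ) ^ (δ / 4) := by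
    have := hlevJ 1 (by omega)
    rwa [pow_one] at this
  have hJX : 2 ^ 2 ^ J ≤ X := by
    have : ((2 ^ 2 ^ J : ℕ) : ℝ) ≤ X := by
      calc ((2 ^ 2 ^ J : ℕ) : ℝ) ≤ (X : ℝ) ^ (δ / 4) := h2J
        _ ≤ (X : ℝ) ^ (1 : ℝ) := Real.rpow_le_rpow_of_exponent_le hX1 (by linarith)
        _ = X := Real.rpow_one _
    exact_mod_cast this
  have hJG : JG (C0 * b) δ X J := ⟨hJ1, hlevJ _ (by omega), hJX, hJL⟩
  have hJ2G : J2G K2 c2 X J2 := by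
    refine ⟨i3, i4, i2, ?_⟩
    refine le_trans ?_ i2
    have := hpowmono J2 1 K2 (by omega)
    rwa [pow_one] at this
  obtain ⟨m1, m2, m3⟩ := e5 J hJ1 hJX
  have hxx := e6 J2 J w0 H hk.symm hHz hw0 hJG hJ2' hJ2G
  obtain ⟨L, hL⟩ : ∃ L : ℝ, L = Real.log X := ⟨_, rfl⟩
  obtain ⟨M, hMd⟩ : ∃ M : ℝ, M = M0 X z0 J k := ⟨_, rfl⟩
  obtain ⟨S, hS⟩ : ∃ S, S = Sf X (Wz z0) w0 z0 J H := ⟨_, rfl⟩
  obtain ⟨B, hB⟩ : ∃ B, B = ⌊2 * (X : ℝ) ^ (1 / 2 + δ)⌋₊ := ⟨_, rfl⟩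
  obtain ⟨N, hNd⟩ : ∃ N, N = ⌊(X : ℝ) ^ (1 / 2 - δ)⌋₊ := ⟨_, rfl⟩
  obtain ⟨M1, hM1⟩ : ∃ M1, M1 = ⌊(X : ℝ) ^ δ1⌋₊ := ⟨_, rfl⟩
  rw [← hL, ← hMd, ← hS, ← hB] at hxx
  rw [← hL] at e7 e8 m1
  rw [← hMd] at m1 m2
  have hL0 : 0 < L := by linarith
  have hSsub : S ⊆ (Icc 1 X).filter Nat.Prime := by
    intro p hp
    rw [hS, mem_Sf] at hp
    rw [mem_filter, mem_Icc]
    exact ⟨hp.1, hp.2.1⟩
  have hNle : (N : ℝ) ≤ (X : ℝ) ^ (1 / 2 - δ) := by rw [hNd]; exact Nat.floor_le (by positivity)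
  have hMle : (M1 : ℝ) ≤ (X : ℝ) ^ δ1 := by rw [hM1]; exact Nat.floor_le (by positivity)
  have hN1' : 1 ≤ N := by
    rw [hNd]; apply Nat.le_floor; push_cast
    exact Real.one_le_rpow hX1 (by linarith)
  have hM11 : 1 ≤ M1 := by
    rw [hM1]; apply Nat.le_floor; push_cast
    exact Real.one_le_rpow hX1 hδ10.le
  have hN1r : (1 : ℝ) ≤ N := by exact_mod_cast hN1'
  have hM1r : (1 : ℝ) ≤ M1 := by exact_mod_cast hM11
  have hBge : 2 * (X : ℝ) ^ (1 / 2 + δ) < B + 1 := by rw [hB]; exact Nat.lt_floor_add_one _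
  have hNX : N ≤ X := by
    have : (N : ℝ) ≤ X := by
      calc (N : ℝ) ≤ (X : ℝ) ^ (1 / 2 - δ) := hNle
        _ ≤ (X : ℝ) ^ (1 : ℝ) := Real.rpow_le_rpow_of_exponent_le hX1 (by linarith)
        _ = X := Real.rpow_one _
    exact_mod_cast this
  have hlogN : Real.log N ≤ L / 2 := by
    calc Real.log N ≤ Real.log ((X : ℝ) ^ (1 / 2 : ℝ)) := by
          apply Real.log_le_log (by linarith) (hNle.trans _)
          exact Real.rpow_le_rpow_of_exponent_le hX1 (by linarith)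
      _ = L / 2 := by rw [Real.log_rpow hX0, hL]; ring
  have hlogM : Real.log M1 ≤ δ1 * L := by
    calc Real.log M1 ≤ Real.log ((X : ℝ) ^ δ1) := Real.log_le_log (by linarith) hMle
      _ = δ1 * L := by rw [Real.log_rpow hX0, hL]
  have hMN : M1 ≤ N := by
    rw [hM1, hNd]
    apply Nat.floor_le_floor
    exact Real.rpow_le_rpow_of_exponent_le hX1 (by linarith)
  have hdiv : ∀ k : ℕ, k ≤ X → (X + k) / (B + 1) ≤ N := by
    intro k hk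
    rw [hNd]
    apply Nat.le_floor
    have h3 : (((X + k) / (B + 1) : ℕ) : ℝ) ≤ ((X + k : ℕ) : ℝ) / ((B + 1 : ℕ) : ℝ) := Nat.cast_div_le
    refine h3.trans ?_
    push_cast
    have hkr : (k : ℝ) ≤ X := by exact_mod_cast hk
    have hBp : (0 : ℝ) < (B : ℝ) + 1 := by positivity
    rw [div_le_iff₀ hBp]
    have h5 : (X : ℝ) ^ (1 / 2 - δ) * (X : ℝ) ^ (1 / 2 + δ) = X := by
      rw [← Real.rpow_add hX0]
      have : (1 : ℝ) / 2 - δ + (1 / 2 + δ) = 1 := by ring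
      rw [this, Real.rpow_one]
    have h6 : (X : ℝ) ^ (1 / 2 - δ) * (2 * (X : ℝ) ^ (1 / 2 + δ)) ≤ (X : ℝ) ^ (1 / 2 - δ) * ((B : ℝ) + 1) :=
      mul_le_mul_of_nonneg_left hBge.le (by positivity)
    have h7 : (X : ℝ) ^ (1 / 2 - δ) * (2 * (X : ℝ) ^ (1 / 2 + δ)) = 2 * X := by rw [← mul_assoc, mul_comm _ (2 : ℝ), mul_assoc, h5]
    linarith
  obtain ⟨W, hW⟩ : ∃ W : ℕ × ℕ → ℝ, W = fun x => ((Nq h1 h2 X x.1 x.2 S).card : ℝ) := ⟨_, rfl⟩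
  have hWn : ∀ x, 0 ≤ W x := fun x => by rw [hW]; exact Nat.cast_nonneg _
  obtain ⟨bx, hbx⟩ : ∃ bx : Finset (ℕ × ℕ), bx = (Icc 1 N) ×ˢ (Icc 1 N) := ⟨_, rfl⟩
  have htot : 1 / 64 * M ≤ ∑ x ∈ bx, W x := by
    have h3 := hxx.trans (XX_le_N h1 h2 X B N h12 (by omega) (by omega) (hdiv h1 (by omega)) (hdiv h2 (by omega)) S hSsub)
    rw [← hL, ← hbx] at h3
    have h4 : ∑ x ∈ bx, ((Nq h1 h2 X x.1 x.2 S).card : ℝ) = ∑ x ∈ bx, W x := by rw [hW]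
    rw [h4] at h3
    have h5 : (1 / 64 * M) * (4 * L ^ 2) ≤ (∑ x ∈ bx, W x) * (4 * L ^ 2) := by linarith
    exact le_of_mul_le_mul_right h5 (by positivity)
  have hbm : ∀ x ∈ bx, 1 ≤ x.1 ∧ 1 ≤ x.2 ∧ x.1 ≤ N ∧ x.2 ≤ N := by
    intro x hx
    rw [hbx, mem_product, mem_Icc, mem_Icc] at hx
    exact ⟨hx.1.1, hx.2.1, hx.1.2, hx.2.2⟩
  have hrge : ∀ a, 1 ≤ rhoK (2 * (k : ℝ) + 6) a := fun a => rhoK_ge _ hK a
  obtain ⟨R, hR⟩ : ∃ R : Finset (ℕ × ℕ), R = bx.filter (fun x => M1 < x.1 ∧ M1 < x.2 ∧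
    1 / 256 * (M / (((x.1 : ℝ) * x.2) * L ^ 2)) ≤ W x) := ⟨_, rfl⟩
  obtain ⟨s1, hs1⟩ : ∃ s1, s1 = (Icc 1 M1) ×ˢ (Icc 1 N) := ⟨_, rfl⟩
  obtain ⟨s2, hs2⟩ : ∃ s2, s2 = (Icc 1 N) ×ˢ (Icc 1 M1) := ⟨_, rfl⟩
  obtain ⟨s4, hs4⟩ : ∃ s4, s4 = bx.filter (fun x => W x ≤ 1 / 256 * (M / (((x.1 : ℝ) * x.2) * L ^ 2))) := ⟨_, rfl⟩
  have hcover : bx ⊆ s1 ∪ (s2 ∪ (s4 ∪ R)) := by
    intro x hx
    obtain ⟨a1, a2, a3, a4⟩ := hbm x hx
    rw [mem_union, mem_union, mem_union, hs1, hs2, hs4, hR, mem_product, mem_product, mem_filter, mem_filter,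
      mem_Icc, mem_Icc, mem_Icc, mem_Icc]
    by_cases c1 : x.1 ≤ M1
    · left; exact ⟨⟨a1, c1⟩, a2, a4⟩
    by_cases c2 : x.2 ≤ M1
    · right; left; exact ⟨⟨a1, a3⟩, a2, c2⟩
    by_cases c4 : W x ≤ 1 / 256 * (M / (((x.1 : ℝ) * x.2) * L ^ 2))
    · right; right; left; exact ⟨hx, c4⟩
    right; right; right
    exact ⟨hx, by omega, by omega, (not_le.1 c4).le⟩
  have hsum : ∑ x ∈ bx, W x ≤ ∑ x ∈ s1, W x + (∑ x ∈ s2, W x + (∑ x ∈ s4, W x + ∑ x ∈ R, W x)) := by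
    refine (sum_le_sum_of_subset_of_nonneg hcover fun x _ _ => hWn x).trans ?_
    refine (sum_union_le' W hWn).trans (add_le_add le_rfl ?_)
    refine (sum_union_le' W hWn).trans (add_le_add le_rfl ?_)
    exact sum_union_le' W hWn
  -- small multipliers
  have hsmallpt : ∀ x ∈ bx, x.1 ≤ M1 ∨ x.2 ≤ M1 → W x ≤ CB * (M / L ^ 2) *
      ((rhoK (2 * (k : ℝ) + 6) x.1 * rhoK (2 * (k : ℝ) + 6) x.2) ^ 2 / ((x.1 : ℝ) * x.2)) := by
    intro x hx hxM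
    obtain ⟨a1, a2, a3, a4⟩ := hbm x hx
    have hab : ((x.1 * x.2 : ℕ) : ℝ) ≤ (X : ℝ) ^ ((1 : ℝ) - 6 * (1 / 24)) := by
      have h5 : x.1 * x.2 ≤ M1 * N := by
        rcases hxM with h6 | h6
        · exact Nat.mul_le_mul h6 a4
        · rw [mul_comm]; exact Nat.mul_le_mul h6 a3
      calc ((x.1 * x.2 : ℕ) : ℝ) ≤ ((M1 * N : ℕ) : ℝ) := by exact_mod_cast h5
        _ = M1 * N := by push_cast; ring
        _ ≤ (X : ℝ) ^ δ1 * (X : ℝ) ^ (1 / 2 - δ) := mul_le_mul hMle hNle (by positivity) (by positivity)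
        _ = (X : ℝ) ^ (δ1 + (1 / 2 - δ)) := by rw [← Real.rpow_add hX0]
        _ ≤ _ := Real.rpow_le_rpow_of_exponent_le hX1 (by linarith)
    have h7 := e3 J2 J H w0 x.1 x.2 hk.symm hJ2' hJ1 hHz a1 a2 hab i3 i4
      (le_trans (hpowmono J2 _ _ (by omega)) i2) hJ2G.2.2.2
    rw [← hS, ← hMd, ← hL] at h7
    have d1 : (0 : ℝ) < x.1 := by exact_mod_cast a1
    have d2 : (0 : ℝ) < x.2 := by exact_mod_cast a2
    have r1 := hrge x.1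
    have r2 := hrge x.2
    obtain ⟨ρ, hρ⟩ : ∃ ρ : ℝ, ρ = rhoK (2 * (k : ℝ) + 6) x.1 * rhoK (2 * (k : ℝ) + 6) x.2 := ⟨_, rfl⟩
    rw [← hρ] at h7 ⊢
    have hρ1 : 1 ≤ ρ := by rw [hρ]; nlinarith
    have hWx : W x = ((Nq h1 h2 X x.1 x.2 S).card : ℝ) := by rw [hW]
    rw [hWx]
    refine h7.trans ?_
    calc CB * ρ * (M / (((x.1 : ℝ) * x.2) * L ^ 2)) ≤ CB * ρ ^ 2 * (M / (((x.1 : ℝ) * x.2) * L ^ 2)) := by
          apply mul_le_mul_of_nonneg_right _ (by positivity)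
          apply mul_le_mul_of_nonneg_left _ hCB.le
          nlinarith
      _ = _ := by field_simp
  have hrect : CB * (M / L ^ 2) * (Cr ^ 2 * ((1 + Real.log M1) * (1 + Real.log N))) ≤ 2 * CB * Cr ^ 2 * δ1 * M := by
    have g1 : 1 + Real.log M1 ≤ 2 * (δ1 * L) := by
      rw [div_le_iff₀ hδ10] at e8
      linarith
    have g2 : 1 + Real.log N ≤ L := by linarith
    have g3 : 0 ≤ Real.log N := Real.log_natCast_nonneg _
    calc CB * (M / L ^ 2) * (Cr ^ 2 * ((1 + Real.log M1) * (1 + Real.log N))) ≤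
          CB * (M / L ^ 2) * (Cr ^ 2 * ((2 * (δ1 * L)) * L)) := by
            apply mul_le_mul_of_nonneg_left _ (by positivity)
            apply mul_le_mul_of_nonneg_left _ (by positivity)
            exact mul_le_mul g1 g2 (by linarith) (by positivity)
      _ = _ := by field_simp
  have hS1 : ∑ x ∈ s1, W x ≤ 2 * CB * Cr ^ 2 * δ1 * M := by
    refine le_trans ?_ hrect
    calc ∑ x ∈ s1, W x ≤ ∑ x ∈ s1, CB * (M / L ^ 2) *
          ((rhoK (2 * (k : ℝ) + 6) x.1 * rhoK (2 * (k : ℝ) + 6) x.2) ^ 2 / ((x.1 : ℝ) * x.2)) := by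
          apply sum_le_sum
          intro x hx
          rw [hs1, mem_product, mem_Icc, mem_Icc] at hx
          apply hsmallpt x _ (Or.inl hx.1.2)
          rw [hbx, mem_product, mem_Icc, mem_Icc]
          exact ⟨⟨hx.1.1, hx.1.2.trans hMN⟩, hx.2⟩
      _ = CB * (M / L ^ 2) * ∑ x ∈ s1, (rhoK (2 * (k : ℝ) + 6) x.1 * rhoK (2 * (k : ℝ) + 6) x.2) ^ 2 / ((x.1 : ℝ) * x.2) := by
          rw [mul_sum]
      _ ≤ _ := by
          rw [hs1]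
          exact mul_le_mul_of_nonneg_left (rhoK_rect _ Cr hK hCr hr M1 N) (by positivity)
  have hS2 : ∑ x ∈ s2, W x ≤ 2 * CB * Cr ^ 2 * δ1 * M := by
    refine le_trans ?_ hrect
    calc ∑ x ∈ s2, W x ≤ ∑ x ∈ s2, CB * (M / L ^ 2) *
          ((rhoK (2 * (k : ℝ) + 6) x.1 * rhoK (2 * (k : ℝ) + 6) x.2) ^ 2 / ((x.1 : ℝ) * x.2)) := by
          apply sum_le_sum
          intro x hx
          rw [hs2, mem_product, mem_Icc, mem_Icc] at hx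
          apply hsmallpt x _ (Or.inr hx.2.2)
          rw [hbx, mem_product, mem_Icc, mem_Icc]
          exact ⟨hx.1, ⟨hx.2.1, hx.2.2.trans hMN⟩⟩
      _ = CB * (M / L ^ 2) * ∑ x ∈ s2, (rhoK (2 * (k : ℝ) + 6) x.1 * rhoK (2 * (k : ℝ) + 6) x.2) ^ 2 / ((x.1 : ℝ) * x.2) := by
          rw [mul_sum]
      _ ≤ CB * (M / L ^ 2) * (Cr ^ 2 * ((1 + Real.log N) * (1 + Real.log M1))) := by
          rw [hs2]
          exact mul_le_mul_of_nonneg_left (rhoK_rect _ Cr hK hCr hr N M1) (by positivity)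
      _ = _ := by ring
  -- poor pairs
  have hharm : ∑ x ∈ bx, 1 / ((x.1 : ℝ) * x.2) ≤ L ^ 2 := by
    have g1 : ∑ x ∈ bx, 1 / ((x.1 : ℝ) * x.2) = (∑ a ∈ Icc 1 N, 1 / (a : ℝ)) * ∑ b ∈ Icc 1 N, 1 / (b : ℝ) := by
      rw [hbx, sum_mul_sum, ← sum_product']
      apply sum_congr rfl
      intro x _
      rw [one_div_mul_one_div]
    have g2 := (abs_le.1 (Pool.Agent.K4H50.TM.harm_bound0 N)).2
    have g3 : ∑ a ∈ Icc 1 N, 1 / (a : ℝ) ≤ L := by linarith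
    have g4 : 0 ≤ ∑ a ∈ Icc 1 N, 1 / (a : ℝ) := sum_nonneg fun _ _ => by positivity
    rw [g1, pow_two]
    exact mul_le_mul g3 g3 g4 hL0.le
  have hS4 : ∑ x ∈ s4, W x ≤ 1 / 256 * M := by
    calc ∑ x ∈ s4, W x ≤ ∑ x ∈ s4, 1 / 256 * (M / (((x.1 : ℝ) * x.2) * L ^ 2)) := by
          apply sum_le_sum
          intro x hx
          rw [hs4, mem_filter] at hx
          exact hx.2
      _ ≤ ∑ x ∈ bx, 1 / 256 * (M / (((x.1 : ℝ) * x.2) * L ^ 2)) := by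
          apply sum_le_sum_of_subset_of_nonneg
          · rw [hs4]; exact filter_subset _ _
          · intro x _ _; positivity
      _ = 1 / 256 * (M / L ^ 2) * ∑ x ∈ bx, 1 / ((x.1 : ℝ) * x.2) := by
          rw [mul_sum]
          apply sum_congr rfl
          intro x hx
          obtain ⟨a1, a2, a3, a4⟩ := hbm x hx
          have d1 : (0 : ℝ) < x.1 := by exact_mod_cast a1
          have d2 : (0 : ℝ) < x.2 := by exact_mod_cast a2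
          field_simp
      _ ≤ 1 / 256 * (M / L ^ 2) * L ^ 2 := mul_le_mul_of_nonneg_left hharm (by positivity)
      _ = _ := by field_simp
  have hRlow : 1 / 128 * M ≤ ∑ x ∈ R, W x := by
    have g1 : 4 * CB * Cr ^ 2 * δ1 * M ≤ 1 / 256 * M := mul_le_mul_of_nonneg_right hδ1C m2.le
    linarith
  -- rich pairs
  have hRm : ∀ x ∈ R, x ∈ bx ∧ M1 < x.1 ∧ M1 < x.2 ∧ 1 / 256 * (M / (((x.1 : ℝ) * x.2) * L ^ 2)) ≤ W x := by
    intro x hx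
    rw [hR, mem_filter] at hx
    exact hx
  have hpt : ∀ x ∈ R, W x ≤ CD * (M / L ^ 2) * (rhoK (2 * (k : ℝ) + 6) x.1 * rhoK (2 * (k : ℝ) + 6) x.2 / ((x.1 : ℝ) * x.2)) := by
    intro x hx
    obtain ⟨a1, a2, a3, a4⟩ := hbm x (hRm x hx).1
    have hab : ((x.1 * x.2 : ℕ) : ℝ) ≤ (X : ℝ) ^ (1 - 6 * (δ / 3)) := by
      calc ((x.1 * x.2 : ℕ) : ℝ) ≤ ((N * N : ℕ) : ℝ) := by exact_mod_cast Nat.mul_le_mul a3 a4
        _ = N * N := by push_cast; ring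
        _ ≤ (X : ℝ) ^ (1 / 2 - δ) * (X : ℝ) ^ (1 / 2 - δ) := mul_le_mul hNle hNle (by positivity) (by positivity)
        _ = _ := by rw [← Real.rpow_add hX0]; congr 1; ring
    have hδ43 : (X : ℝ) ^ (δ / 4) ≤ (X : ℝ) ^ (δ / 3) := Real.rpow_le_rpow_of_exponent_le hX1 (by linarith)
    have h7 := e4 J J H w0 x.1 x.2 hk.symm le_rfl hJ1 hHz a1 a2 hab hJc hJL
      ((hlevJ _ (by omega)).trans hδ43) (h2J.trans hδ43)
    rw [← hS, ← hMd, ← hL] at h7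
    have d1 : (0 : ℝ) < x.1 := by exact_mod_cast a1
    have d2 : (0 : ℝ) < x.2 := by exact_mod_cast a2
    have hWx : W x = ((Nq h1 h2 X x.1 x.2 S).card : ℝ) := by rw [hW]
    rw [hWx]
    refine h7.trans (le_of_eq ?_)
    field_simp
  obtain ⟨T, hT⟩ : ∃ T, T = ∑ x ∈ R, rhoK (2 * (k : ℝ) + 6) x.1 * rhoK (2 * (k : ℝ) + 6) x.2 / ((x.1 : ℝ) * x.2) := ⟨_, rfl⟩
  have hTlow : 1 / (128 * CD) * L ^ 2 ≤ T := by
    have h9 : 1 / 128 * M ≤ CD * (M / L ^ 2) * T := by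
      rw [hT, mul_sum]
      exact hRlow.trans (sum_le_sum hpt)
    have h10 : 1 / (128 * CD) * L ^ 2 = (1 / 128 * M) / (CD * (M / L ^ 2)) := by field_simp
    rw [h10, div_le_iff₀ (by positivity)]
    linarith
  have hrn : ∀ x : ℕ × ℕ, 0 ≤ rhoK (2 * (k : ℝ) + 6) x.1 * rhoK (2 * (k : ℝ) + 6) x.2 := by
    intro x
    have := hrge x.1
    have := hrge x.2
    positivity
  have hcs : T ^ 2 ≤ (∑ x ∈ R, 1 / ((x.1 : ℝ) * x.2)) *
      ∑ x ∈ R, (rhoK (2 * (k : ℝ) + 6) x.1 * rhoK (2 * (k : ℝ) + 6) x.2) ^ 2 / ((x.1 : ℝ) * x.2) := by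
    rw [hT]
    apply sum_sq_le_sum_mul_sum_of_sq_eq_mul
    · intro x _; positivity
    · intro x _; positivity
    · intro x _
      ring
  have hT2 : ∑ x ∈ R, (rhoK (2 * (k : ℝ) + 6) x.1 * rhoK (2 * (k : ℝ) + 6) x.2) ^ 2 / ((x.1 : ℝ) * x.2) ≤ Cr ^ 2 * L ^ 2 := by
    calc _ ≤ ∑ x ∈ (Icc 1 N) ×ˢ (Icc 1 N), (rhoK (2 * (k : ℝ) + 6) x.1 * rhoK (2 * (k : ℝ) + 6) x.2) ^ 2 / ((x.1 : ℝ) * x.2) := by
          apply sum_le_sum_of_subset_of_nonneg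
          · intro x hx
            rw [← hbx]
            exact (hRm x hx).1
          · intro x _ _; positivity
      _ ≤ Cr ^ 2 * ((1 + Real.log N) * (1 + Real.log N)) := rhoK_rect _ Cr hK hCr hr N N
      _ ≤ Cr ^ 2 * L ^ 2 := by
          apply mul_le_mul_of_nonneg_left _ (by positivity)
          rw [pow_two]
          have := Real.log_natCast_nonneg N
          exact mul_le_mul (by linarith) (by linarith) (by linarith) hL0.le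
  have hS0 : 0 ≤ ∑ x ∈ R, 1 / ((x.1 : ℝ) * x.2) := sum_nonneg fun x _ => by positivity
  have h11 : (1 / (128 * CD) * L ^ 2) ^ 2 ≤ (∑ x ∈ R, 1 / ((x.1 : ℝ) * x.2)) * (Cr ^ 2 * L ^ 2) := by
    calc (1 / (128 * CD) * L ^ 2) ^ 2 ≤ T ^ 2 := pow_le_pow_left₀ (by positivity) hTlow 2
      _ ≤ _ := hcs
      _ ≤ _ := mul_le_mul_of_nonneg_left hT2 hS0
  have h12' : (1 / (128 * CD)) ^ 2 / Cr ^ 2 * L ^ 2 = (1 / (128 * CD) * L ^ 2) ^ 2 / (Cr ^ 2 * L ^ 2) := by field_simp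
  rw [← hL, h12']
  have h13 : (1 / (128 * CD) * L ^ 2) ^ 2 / (Cr ^ 2 * L ^ 2) ≤ ∑ x ∈ R, 1 / ((x.1 : ℝ) * x.2) := by
    rw [div_le_iff₀ (by positivity)]
    exact h11
  refine h13.trans ?_
  apply sum_le_sum_of_subset_of_nonneg
  · intro x hx
    obtain ⟨hxb, g1, g2, g3⟩ := hRm x hx
    obtain ⟨a1, a2, a3, a4⟩ := hbm x hxb
    unfold RR
    rw [mem_filter, mem_product, mem_Icc, mem_Icc]
    have d1 : (0 : ℝ) < x.1 := by exact_mod_cast a1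
    have d2 : (0 : ℝ) < x.2 := by exact_mod_cast a2
    have b1 : (X : ℝ) ^ δ1 ≤ x.1 := by
      have h5 : (X : ℝ) ^ δ1 < M1 + 1 := by rw [hM1]; exact Nat.lt_floor_add_one _
      have h6 : ((M1 + 1 : ℕ) : ℝ) ≤ x.1 := by exact_mod_cast (by omega : M1 + 1 ≤ x.1)
      push_cast at h6
      linarith
    have b2 : (X : ℝ) ^ δ1 ≤ x.2 := by
      have h5 : (X : ℝ) ^ δ1 < M1 + 1 := by rw [hM1]; exact Nat.lt_floor_add_one _
      have h6 : ((M1 + 1 : ℕ) : ℝ) ≤ x.2 := by exact_mod_cast (by omega : M1 + 1 ≤ x.2)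
      push_cast at h6
      linarith
    have hδδ : (X : ℝ) ^ (1 / 2 - δ) ≤ (X : ℝ) ^ (1 / 2 - δ1) := Real.rpow_le_rpow_of_exponent_le hX1 (by linarith)
    have b3 : (x.1 : ℝ) ≤ (X : ℝ) ^ (1 / 2 - δ1) := le_trans (le_trans (by exact_mod_cast a3) hNle) hδδ
    have b4 : (x.2 : ℝ) ≤ (X : ℝ) ^ (1 / 2 - δ1) := le_trans (le_trans (by exact_mod_cast a4) hNle) hδδ
    refine ⟨⟨⟨a1, by omega⟩, a2, by omega⟩, b1, b3, b2, b4, ?_⟩
    have hz : (X : ℝ) ^ (cJ / 2) ≤ ((2 ^ 2 ^ J : ℕ) : ℝ) := by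
      have h5 : Real.log ((X : ℝ) ^ (cJ / 2)) ≤ Real.log ((2 ^ 2 ^ J : ℕ) : ℝ) := by
        rw [Real.log_rpow hX0]
        push_cast
        rw [Real.log_pow]
        push_cast
        have h6 := Real.log_two_gt_d9
        have h7 : (0 : ℝ) < 2 ^ J := by positivity
        nlinarith
      exact (Real.log_le_log_iff (by positivity) (by positivity)).1 h5
    have h5 := Nq_QQ h1 h2 H ((X : ℝ) ^ (cJ / 2)) X x.1 x.2 z0 w0 J hw0H hz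
    rw [← hS] at h5
    have h6 : W x ≤ ((QQ h1 h2 H ((X : ℝ) ^ (cJ / 2)) X x.1 x.2).card : ℝ) := by
      have hWx : W x = ((Nq h1 h2 X x.1 x.2 S).card : ℝ) := by rw [hW]
      rw [hWx]; exact_mod_cast h5
    refine le_trans ?_ (g3.trans h6)
    rw [← hk, ← hL]
    calc 1 / 256 * cM * (X / (((x.1 : ℝ) * x.2) * L ^ (k + 3))) =
          1 / 256 * ((cM * (X / L ^ (k + 1))) / (((x.1 : ℝ) * x.2) * L ^ 2)) := by
          rw [show k + 3 = (k + 1) + 2 by ring, pow_add L (k + 1) 2]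
          field_simp
      _ ≤ 1 / 256 * (M / (((x.1 : ℝ) * x.2) * L ^ 2)) := by
          apply mul_le_mul_of_nonneg_left _ (by norm_num)
          exact div_le_div_of_nonneg_right m1 (by positivity)
  · intro x _ _
    positivity

end Pool.Agent.K4H50.QM
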