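import Pool.Agent.K4H50.QM.F1

/-!
# The largest error of the primes in the classes of a modulus, and the sifted primes of a class
-/

set_option autoImplicit false

namespace Pool.Agent.K4H50.QM

open Finset Filter
open Pool.Agent.H442R2.KF (piN piAP Er bvY)
open Pool.Agent.K4H50.HL (crt_fin prod_dvd_int PZ)

/-- the reduced classes -/
def cl (m : ℕ) : Finset ℕ := (range m).filter (fun a => a.Coprime m)

open Classical in
/-- the largest error modulo `m` -/
noncomputable def Em (X m : ℕ) : ℝ := if h : (cl m).Nonempty then (cl m).sup' h (fun a => |Er X m a|) else 0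

theorem Em_nonneg (X m : ℕ) : 0 ≤ Em X m := by
  unfold Em
  split_ifs with h
  · obtain ⟨a, ha⟩ := h
    exact (abs_nonneg _).trans (le_sup' (fun a => |Er X m a|) ha)
  · exact le_rfl

theorem Er_mod (X m a : ℕ) : Er X m a = Er X m (a % m) := by
  unfold Er
  congr 2
  unfold piAP
  congr 1
  apply filter_congr
  intro p _
  have : (p ≡ a [MOD m]) ↔ (p ≡ a % m [MOD m]) := by
    constructor
    · intro h; exact h.trans (Nat.mod_modEq a m).symm
    · intro h; exact h.trans (Nat.mod_modEq a m)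
  rw [this]

theorem le_Em (X m a : ℕ) (hm : 1 ≤ m) (ha : a.Coprime m) : |Er X m a| ≤ Em X m := by
  have hmem : a % m ∈ cl m := by
    unfold cl
    rw [mem_filter, mem_range]
    refine ⟨Nat.mod_lt _ (by omega), ?_⟩
    unfold Nat.Coprime
    rw [(Nat.mod_modEq a m).gcd_eq]
    exact ha
  have hne : (cl m).Nonempty := ⟨_, hmem⟩
  unfold Em
  rw [dif_pos hne, Er_mod]
  exact le_sup' (fun a => |Er X m a|) hmem

theorem Em_bv (δ : ℝ) (hδ : δ < 1 / 2) (U : ℕ) : ∃ C : ℝ, 0 < C ∧ ∀ X : ℕ, 3 ≤ X →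
    ∑ m ∈ Icc 1 ⌊(X : ℝ) ^ δ⌋₊, Em X m ≤ C * (X / Real.log X ^ U) := by
  classical
  obtain ⟨C, hC, h⟩ := bvY δ hδ U
  refine ⟨C, hC, fun X hX => ?_⟩
  have hex : ∀ m : ℕ, ∃ a : ℕ, (1 ≤ m → a.Coprime m ∧ Em X m = |Er X m a|) := by
    intro m
    by_cases hm : 1 ≤ m
    · have hne : (cl m).Nonempty := by
        refine ⟨1 % m, ?_⟩
        unfold cl
        rw [mem_filter, mem_range]
        refine ⟨Nat.mod_lt _ (by omega), ?_⟩
        unfold Nat.Coprime
        rw [(Nat.mod_modEq 1 m).gcd_eq]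
        exact Nat.gcd_one_left m
      obtain ⟨a, ha, he⟩ := exists_mem_eq_sup' hne (fun a => |Er X m a|)
      refine ⟨a, fun _ => ⟨(mem_filter.1 ha).2, ?_⟩⟩
      unfold Em
      rw [dif_pos hne]
      exact he
    · exact ⟨0, fun h => absurd h hm⟩
  choose a ha using hex
  refine le_trans (le_of_eq ?_) (h X hX X le_rfl a (fun d hd => (ha d hd).1))
  apply sum_congr rfl
  intro m hm
  exact (ha m (mem_Icc.1 hm).1).2

theorem piAP_le (X m a : ℕ) (hm : 1 ≤ m) : piAP X m a ≤ X / m + 1 := by
  unfold piAP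
  calc _ ≤ (range (X / m + 1)).card := by
        apply card_le_card_of_injOn (fun p => p / m)
        · intro p hp
          rw [mem_coe, mem_filter, mem_Icc] at hp
          rw [mem_coe, mem_range]
          exact Nat.lt_succ_of_le (Nat.div_le_div_right hp.1.2)
        · intro p hp q hq hpq
          rw [mem_coe, mem_filter] at hp hq
          have e1 : p % m = q % m := hp.2.2.trans hq.2.2.symm
          have e2 : p / m = q / m := hpq
          rw [← Nat.div_add_mod p m, ← Nat.div_add_mod q m, e1, e2]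
    _ = _ := card_range _

theorem piN_le (X : ℕ) : piN X ≤ X := by
  unfold piN
  calc _ ≤ (Icc 1 X).card := card_filter_le _ _
    _ = X := by simp

theorem Em_le (X m : ℕ) (hm : 1 ≤ m) (hmX : m ≤ X) : Em X m ≤ 3 * X / (Nat.totient m : ℝ) := by
  have hφ : (0 : ℝ) < (Nat.totient m : ℝ) := by exact_mod_cast Nat.totient_pos.2 hm
  have hφm : (Nat.totient m : ℝ) ≤ m := by exact_mod_cast Nat.totient_le m
  have hm0 : (0 : ℝ) < m := by exact_mod_cast hm
  have hmXr : (m : ℝ) ≤ X := by exact_mod_cast hmX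
  have key : ∀ a : ℕ, |Er X m a| ≤ 3 * X / (Nat.totient m : ℝ) := by
    intro a
    unfold Er
    have h1 : (piAP X m a : ℝ) ≤ X / m + 1 := by
      have h2 : ((X / m : ℕ) : ℝ) ≤ (X : ℝ) / m := Nat.cast_div_le
      have h3 : (piAP X m a : ℝ) ≤ ((X / m + 1 : ℕ) : ℝ) := by exact_mod_cast piAP_le X m a hm
      push_cast at h3
      linarith
    have h4 : (X : ℝ) / m + 1 ≤ 2 * X / (Nat.totient m : ℝ) := by
      have h5 : (1 : ℝ) ≤ X / m := by rw [le_div_iff₀ hm0]; linarith
      have h6 : (X : ℝ) / m ≤ X / (Nat.totient m : ℝ) := div_le_div_of_nonneg_left (Nat.cast_nonneg _) hφ hφm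
      have h7 : 2 * (X : ℝ) / (Nat.totient m : ℝ) = X / (Nat.totient m : ℝ) + X / (Nat.totient m : ℝ) := by ring
      rw [h7]
      linarith
    have h8 : (piN X : ℝ) / (Nat.totient m : ℝ) ≤ X / (Nat.totient m : ℝ) := by
      apply div_le_div_of_nonneg_right _ hφ.le
      exact_mod_cast piN_le X
    have h9 : 0 ≤ (piN X : ℝ) / (Nat.totient m : ℝ) := by positivity
    have h10 : (0 : ℝ) ≤ piAP X m a := Nat.cast_nonneg _
    have h11 : 3 * (X : ℝ) / (Nat.totient m : ℝ) = 2 * X / (Nat.totient m : ℝ) + X / (Nat.totient m : ℝ) := by ring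
    rw [abs_le, h11]
    constructor
    · have : 0 ≤ 2 * (X : ℝ) / (Nat.totient m : ℝ) := by positivity
      linarith
    · linarith [div_nonneg (Nat.cast_nonneg (α := ℝ) X) hφ.le]
  unfold Em
  split_ifs with h
  · exact sup'_le h _ fun a _ => key a
  · positivity

theorem totient_prod (T : Finset ℕ) (hT : ∀ p ∈ T, p.Prime) : Nat.totient (∏ p ∈ T, p) = ∏ p ∈ T, (p - 1) := by
  induction T using Finset.induction_on with
  | empty => simp
  | insert q T hq ih =>
    have hqp := hT q (mem_insert_self _ _)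
    have hTp : ∀ p ∈ T, p.Prime := fun p hp => hT p (mem_insert_of_mem hp)
    rw [prod_insert hq, prod_insert hq, Nat.totient_mul, ih hTp, Nat.totient_prime hqp]
    apply Nat.Coprime.prod_right
    intro p hp
    exact (Nat.coprime_primes hqp (hTp p hp)).2 (fun h => hq (h ▸ hp))

/-- the sifted primes of a class -/
def Sf (X M c z0 J : ℕ) (H : Finset ℕ) : Finset ℕ := (Icc 1 X).filter (fun p => p.Prime ∧ p ≡ c [MOD M] ∧
  ∀ l ∈ PZ z0 J, ¬ l ∣ M → ∀ h ∈ H, ¬ l ∣ p + h)

/-- the density of the sifted primes -/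
noncomputable def Vm (M z0 J k : ℕ) : ℝ := ∏ l ∈ (PZ z0 J).filter (fun l => ¬ l ∣ M), (1 - (k : ℝ) * (1 / ((l : ℝ) - 1)))

/-- the error sum -/
noncomputable def Es (X M z0 J k E : ℕ) : ℝ :=
  ∑ T ∈ ((PZ z0 J).filter (fun l => ¬ l ∣ M)).powerset.filter (fun T : Finset ℕ => ∏ p ∈ T, p ≤ E),
    (k : ℝ) ^ T.card * Em X (M * ∏ p ∈ T, p)

/-- the fundamental lemma for the primes of a class -/
theorem FL : ∃ C0 : ℕ, 1 ≤ C0 ∧ ∀ (b J z0 : ℕ) (H : Finset ℕ) (X M c : ℕ), C0 * (H.card + 1) ≤ b → C0 * (H.card + 1) ≤ z0 →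
    (∀ h ∈ H, 0 < h ∧ h ≤ z0) → 1 ≤ M → c.Coprime M →
    |((Sf X M c z0 J H).card : ℝ) - (piN X : ℝ) / (Nat.totient M : ℝ) * Vm M z0 J H.card| ≤
      (1 / 2 : ℝ) ^ b * ((piN X : ℝ) / (Nat.totient M : ℝ) * Vm M z0 J H.card) +
      ((J : ℝ) + 2) * Es X M z0 J H.card ((2 ^ 2 ^ J) ^ (C0 * b)) := by
  obtain ⟨C0, hC0, fll⟩ := Pool.Agent.TH423.SH.fll
  refine ⟨C0, hC0, ?_⟩
  intro b J z0 H X M c hb hz hH hM hcM
  have hκz : H.card + 1 ≤ z0 := le_trans (Nat.le_mul_of_pos_left _ (by omega)) hz
  obtain ⟨P, hP⟩ : ∃ P, P = (PZ z0 J).filter (fun l => ¬ l ∣ M) := ⟨_, rfl⟩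
  have hPm : ∀ p ∈ P, p.Prime ∧ z0 < p ∧ p ≤ 2 ^ 2 ^ J ∧ ¬ p ∣ M := by
    intro p hp
    rw [hP, mem_filter] at hp
    obtain ⟨a1, a2, a3⟩ := mem_PZ hp.1
    exact ⟨a1, a2, a3, hp.2⟩
  obtain ⟨Om, hOm⟩ : ∃ Om : ℕ → Finset ℕ, Om = fun p => H.image (fun h => p - h) := ⟨_, rfl⟩
  have hcard : ∀ p ∈ P, (Om p).card = H.card := by
    intro p hp
    rw [hOm]
    apply card_image_of_injOn
    intro h hh h' hh' e
    have h1 := (hH h hh).2
    have h2 := (hH h' hh').2
    have h3 := (hPm p hp).2.1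
    have e' : p - h = p - h' := e
    omega
  have hmemOm : ∀ p ∈ P, ∀ n : ℕ, n % p ∉ Om p ↔ ∀ h ∈ H, ¬ p ∣ n + h := by
    intro p hp n
    obtain ⟨q1, q2, q3, q4⟩ := hPm p hp
    rw [hOm]
    simp only [mem_image, not_exists, not_and]
    apply forall_congr'
    intro h
    apply imp_congr_right
    intro hh
    have h1 := (hH h hh).1
    have h2 := (hH h hh).2
    apply not_congr
    have hlt := Nat.mod_lt n q1.pos
    constructor
    · intro e
      have h3 : (n % p + h) % p = 0 := by
        rw [← e]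
        have : p - h + h = p := by omega
        rw [this, Nat.mod_self]
      rw [Nat.add_mod, Nat.mod_mod] at h3
      exact Nat.dvd_of_mod_eq_zero (by rw [Nat.add_mod]; exact h3)
    · intro e
      have h3 : p ∣ n % p + h := by
        rw [Nat.dvd_iff_mod_eq_zero, Nat.add_mod, Nat.mod_mod, ← Nat.add_mod]
        exact Nat.mod_eq_zero_of_dvd e
      obtain ⟨k, hk⟩ := h3
      have hk1 : k = 1 := by
        rcases k with _ | _ | k
        · omega
        · rfl
        · exfalso
          have : p * (k + 1 + 1) = p * k + p + p := by ring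
          nlinarith [Nat.zero_le (p * k)]
      subst hk1
      omega
  obtain ⟨S, hS⟩ : ∃ S, S = (Icc 1 X).filter (fun p => p.Prime ∧ p ≡ c [MOD M]) := ⟨_, rfl⟩
  have hg1 : ∀ p ∈ P, (1 : ℝ) < p := fun p hp => by exact_mod_cast (hPm p hp).1.one_lt
  have hmain := fll H.card b J z0 P (fun p => 1 / ((p : ℝ) - 1)) Om hb hz
    (fun p hp => ⟨(hPm p hp).1, (hPm p hp).2.1, (hPm p hp).2.2.1⟩)
    (fun p hp => (hcard p hp).le)
    (fun p hp => by
      have := hg1 p hp
      have h2 : 0 < (p : ℝ) - 1 := by linarith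
      exact ⟨by positivity, le_rfl⟩)
    S (fun _ => 1) ((piN X : ℝ) / (Nat.totient M : ℝ)) (fun e => Em X (M * e))
    (fun n _ => zero_le_one) (by positivity) (fun e => Em_nonneg _ _) (by
      intro T hTP _ c' hc'
      have hTp : ∀ p ∈ T, p.Prime := fun p hp => (hPm p (hTP hp)).1
      obtain ⟨e, he⟩ : ∃ e, e = ∏ p ∈ T, p := ⟨_, rfl⟩
      rw [← he]
      have he0 : 0 < e := by rw [he]; exact prod_pos fun p hp => (hTp p hp).pos
      have hMe : Nat.Coprime M e := by
        rw [he]
        apply Nat.Coprime.prod_right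
        intro p hp
        exact ((Nat.Prime.coprime_iff_not_dvd (hTp p hp)).2 (hPm p (hTP hp)).2.2.2).symm
      obtain ⟨ρ, hρ⟩ := crt_fin T hTp c'
      obtain ⟨a, ha1, ha2⟩ : ∃ a : ℕ, a ≡ c [MOD M] ∧ a ≡ ρ [MOD e] :=
        ⟨Nat.chineseRemainder hMe c ρ, (Nat.chineseRemainder hMe c ρ).2.1, (Nat.chineseRemainder hMe c ρ).2.2⟩
      have hlt : ∀ p ∈ T, c' p < p ∧ 0 < c' p := by
        intro p hp
        have h1 := hc' p hp
        rw [hOm, mem_image] at h1
        obtain ⟨h, hh, e1⟩ := h1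
        have h2 := (hH h hh).1
        have h3 := (hH h hh).2
        have h4 := (hPm p (hTP hp)).2.1
        omega
      have hac : a.Coprime (M * e) := by
        apply Nat.Coprime.mul_right
        · unfold Nat.Coprime
          rw [ha1.gcd_eq]; exact hcM
        · rw [he]
          apply Nat.Coprime.prod_right
          intro p hp
          apply Nat.Coprime.symm
          rw [Nat.Prime.coprime_iff_not_dvd (hTp p hp)]
          intro hd
          have h5 : a ≡ c' p [MOD p] := by
            have h6 : a ≡ ρ [MOD p] := ha2.of_dvd (by rw [he]; exact dvd_prod_of_mem _ hp)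
            exact h6.trans (hρ p hp)
          have h7 : p ∣ c' p := (h5.dvd_iff (dvd_refl p)).1 hd
          have := Nat.le_of_dvd (hlt p hp).2 h7
          have := (hlt p hp).1
          omega
      have hcnt : S.filter (fun n => ∀ p ∈ T, n % p = c' p) =
          (Icc 1 X).filter (fun p => p.Prime ∧ p ≡ a [MOD (M * e)]) := by
        rw [hS, filter_filter]
        apply filter_congr
        intro n _
        rw [and_assoc]
        apply and_congr_right
        intro _
        rw [← Nat.modEq_and_modEq_iff_modEq_mul hMe]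
        apply and_congr
        · constructor
          · intro h; exact h.trans ha1.symm
          · intro h; exact h.trans ha1
        · rw [← Int.natCast_modEq_iff, Int.modEq_iff_dvd, he, prod_dvd_int T hTp]
          have hap : ∀ p ∈ T, a ≡ c' p [MOD p] := by
            intro p hp
            have h6 : a ≡ ρ [MOD p] := ha2.of_dvd (by rw [he]; exact dvd_prod_of_mem _ hp)
            exact h6.trans (hρ p hp)
          constructor
          · intro h p hp
            rw [← Int.modEq_iff_dvd, Int.natCast_modEq_iff]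
            have h5 : n ≡ c' p [MOD p] := by
              unfold Nat.ModEq
              rw [h p hp, Nat.mod_eq_of_lt (hlt p hp).1]
            exact h5.trans (hap p hp).symm
          · intro h p hp
            have h6 := h p hp
            rw [← Int.modEq_iff_dvd, Int.natCast_modEq_iff] at h6
            have h7 := h6.trans (hap p hp)
            unfold Nat.ModEq at h7
            rwa [Nat.mod_eq_of_lt (hlt p hp).1] at h7
      rw [hcnt, sum_const, nsmul_eq_mul, mul_one]
      have hφ : (Nat.totient (M * e) : ℝ) = (Nat.totient M : ℝ) * ∏ p ∈ T, ((p : ℝ) - 1) := by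
        rw [Nat.totient_mul hMe, he, totient_prod T hTp]
        push_cast
        congr 1
        apply prod_congr rfl
        intro p hp
        rw [Nat.cast_sub (hTp p hp).one_lt.le, Nat.cast_one]
      have hprod : (piN X : ℝ) / (Nat.totient M : ℝ) * ∏ p ∈ T, (1 / ((p : ℝ) - 1)) =
          (piN X : ℝ) / (Nat.totient (M * e) : ℝ) := by
        rw [hφ, prod_div_distrib, prod_const_one, div_mul_div_comm, mul_one]
      rw [hprod]
      have h8 := le_Em X (M * e) a (Nat.mul_pos hM he0) hac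
      unfold Er piAP at h8
      exact h8)
  have e1 : S.filter (fun n => ∀ p ∈ P, n % p ∉ Om p) = Sf X M c z0 J H := by
    rw [hS, filter_filter]
    unfold Sf
    apply filter_congr
    intro n _
    rw [and_assoc]
    apply and_congr_right
    intro _
    apply and_congr_right
    intro _
    constructor
    · intro h l hl hlM
      have hlP : l ∈ P := by rw [hP, mem_filter]; exact ⟨hl, hlM⟩
      exact (hmemOm l hlP n).1 (h l hlP)
    · intro h l hl
      have hl' := hl
      rw [hP, mem_filter] at hl'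
      exact (hmemOm l hl n).2 (h l hl'.1 hl'.2)
  have e2 : ∏ p ∈ P, (1 - ((Om p).card : ℝ) * (1 / ((p : ℝ) - 1))) = Vm M z0 J H.card := by
    unfold Vm
    rw [← hP]
    apply prod_congr rfl
    intro p hp
    rw [hcard p hp]
  rw [e1, e2, sum_const, nsmul_eq_mul, mul_one] at hmain
  unfold Es
  rw [← hP]
  exact hmain

end Pool.Agent.K4H50.QM
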