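import Pool.Agent.K4H50.QM.F2

/-!
# Sums of the errors
-/

set_option autoImplicit false

namespace Pool.Agent.K4H50.QM

open Finset Filter
open Pool.Agent.H442R2.KF (piN piAP Er bvY)
open Pool.Agent.K4H50.HL (crt_fin prod_dvd_int PZ)
open ArithmeticFunction (vonMangoldt)

theorem weight_prod : ∃ C : ℝ, 0 < C ∧ ∀ (k z0 J : ℕ) (P : Finset ℕ), P ⊆ PZ z0 J → 1 ≤ J →
    ∏ p ∈ P, (1 + (k : ℝ) ^ 2 * (1 / ((p : ℝ) - 1))) ≤ Real.exp (2 * (k : ℝ) ^ 2 * C) * ((2 : ℝ) ^ J) ^ (2 * k ^ 2) := by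
  obtain ⟨C, hC, h⟩ := sumPZ
  refine ⟨C, hC, fun k z0 J P hP hJ => ?_⟩
  have h1 := (h z0 J hJ).2
  have hk : (0 : ℝ) ≤ (k : ℝ) ^ 2 := by positivity
  have hp2 : ∀ p ∈ P, (2 : ℝ) ≤ p := fun p hp => by exact_mod_cast (mem_PZ (hP hp)).1.two_le
  calc ∏ p ∈ P, (1 + (k : ℝ) ^ 2 * (1 / ((p : ℝ) - 1))) ≤ ∏ p ∈ P, Real.exp (2 * (k : ℝ) ^ 2 * (1 / (p : ℝ))) := by
        apply Finset.prod_le_prod
        · intro p hp
          have := hp2 p hp
          have : 0 < (p : ℝ) - 1 := by linarith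
          positivity
        · intro p hp
          have h2 := hp2 p hp
          have h3 : 1 / ((p : ℝ) - 1) ≤ 2 * (1 / (p : ℝ)) := by
            rw [mul_one_div, div_le_div_iff₀ (by linarith) (by linarith)]
            linarith
          have h4 : (k : ℝ) ^ 2 * (1 / ((p : ℝ) - 1)) ≤ (k : ℝ) ^ 2 * (2 * (1 / (p : ℝ))) := mul_le_mul_of_nonneg_left h3 hk
          have h5 := Real.add_one_le_exp (2 * (k : ℝ) ^ 2 * (1 / (p : ℝ)))
          linarith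
    _ = Real.exp (2 * (k : ℝ) ^ 2 * ∑ p ∈ P, 1 / (p : ℝ)) := by
        rw [← Real.exp_sum, mul_sum]
    _ ≤ Real.exp (2 * (k : ℝ) ^ 2 * (J * Real.log 2 + C)) := by
        apply Real.exp_le_exp.2
        apply mul_le_mul_of_nonneg_left _ (by positivity)
        refine le_trans ?_ h1
        exact sum_le_sum_of_subset_of_nonneg hP fun p _ _ => by positivity
    _ = _ := by
        rw [mul_add, Real.exp_add, mul_comm]
        congr 1
        have e : 2 * (k : ℝ) ^ 2 * (J * Real.log 2) = ((2 * k ^ 2 : ℕ) : ℝ) * (J * Real.log 2) := by push_cast; ring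
        rw [e, Real.exp_nat_mul, Real.exp_nat_mul, Real.exp_log (by norm_num)]

/-- the part with the weights -/
theorem EsA (X M z0 J k E : ℕ) (hM : 1 ≤ M) (hME : M * E ≤ X) :
    ∑ T ∈ ((PZ z0 J).filter (fun l => ¬ l ∣ M)).powerset.filter (fun T : Finset ℕ => ∏ p ∈ T, p ≤ E),
      ((k : ℝ) ^ 2) ^ T.card * Em X (M * ∏ p ∈ T, p) ≤
    3 * X / (Nat.totient M : ℝ) * ∏ p ∈ (PZ z0 J).filter (fun l => ¬ l ∣ M), (1 + (k : ℝ) ^ 2 * (1 / ((p : ℝ) - 1))) := by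
  obtain ⟨P, hP⟩ : ∃ P, P = (PZ z0 J).filter (fun l => ¬ l ∣ M) := ⟨_, rfl⟩
  rw [← hP]
  have hPp : ∀ p ∈ P, p.Prime ∧ ¬ p ∣ M := by
    intro p hp
    rw [hP, mem_filter] at hp
    exact ⟨(mem_PZ hp.1).1, hp.2⟩
  have hφM : (0 : ℝ) < (Nat.totient M : ℝ) := by exact_mod_cast Nat.totient_pos.2 hM
  have ht : ∀ T ∈ P.powerset.filter (fun T : Finset ℕ => ∏ p ∈ T, p ≤ E),
      ((k : ℝ) ^ 2) ^ T.card * Em X (M * ∏ p ∈ T, p) ≤
        3 * X / (Nat.totient M : ℝ) * ∏ p ∈ T, ((k : ℝ) ^ 2 * (1 / ((p : ℝ) - 1))) := by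
    intro T hT
    rw [mem_filter, mem_powerset] at hT
    have hTp : ∀ p ∈ T, p.Prime := fun p hp => (hPp p (hT.1 hp)).1
    have he0 : 0 < ∏ p ∈ T, p := prod_pos fun p hp => (hTp p hp).pos
    have hMe : Nat.Coprime M (∏ p ∈ T, p) := by
      apply Nat.Coprime.prod_right
      intro p hp
      exact ((Nat.Prime.coprime_iff_not_dvd (hTp p hp)).2 (hPp p (hT.1 hp)).2).symm
    have h1 := Em_le X (M * ∏ p ∈ T, p) (Nat.mul_pos hM he0) ((Nat.mul_le_mul_left M hT.2).trans hME)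
    have hφ : (Nat.totient (M * ∏ p ∈ T, p) : ℝ) = (Nat.totient M : ℝ) * ∏ p ∈ T, ((p : ℝ) - 1) := by
      rw [Nat.totient_mul hMe, totient_prod T hTp]
      push_cast
      congr 1
      apply prod_congr rfl
      intro p hp
      rw [Nat.cast_sub (hTp p hp).one_lt.le, Nat.cast_one]
    rw [hφ] at h1
    rw [prod_mul_distrib, prod_const, prod_div_distrib, prod_const_one]
    have hpos : 0 < ∏ p ∈ T, ((p : ℝ) - 1) := by
      apply prod_pos
      intro p hp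
      have : (1 : ℝ) < p := by exact_mod_cast (hTp p hp).one_lt
      linarith
    calc ((k : ℝ) ^ 2) ^ T.card * Em X (M * ∏ p ∈ T, p) ≤
          ((k : ℝ) ^ 2) ^ T.card * (3 * X / ((Nat.totient M : ℝ) * ∏ p ∈ T, ((p : ℝ) - 1))) :=
          mul_le_mul_of_nonneg_left h1 (by positivity)
      _ = _ := by field_simp
  refine (sum_le_sum ht).trans ?_
  rw [← mul_sum]
  apply mul_le_mul_of_nonneg_left _ (by positivity)
  have hnn : ∀ p ∈ P, 0 ≤ (k : ℝ) ^ 2 * (1 / ((p : ℝ) - 1)) := by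
    intro p hp
    have : (1 : ℝ) < p := by exact_mod_cast (hPp p hp).1.one_lt
    have : 0 < (p : ℝ) - 1 := by linarith
    positivity
  rw [prod_one_add]
  apply sum_le_sum_of_subset_of_nonneg (filter_subset _ _)
  intro T hT _
  rw [mem_powerset] at hT
  exact prod_nonneg fun p hp => hnn p (hT hp)

/-- the part without weights -/
theorem EsB {ι : Type} (X N z0 J E B : ℕ) (S : Finset ι) (m : ι → ℕ) (hm : ∀ x ∈ S, 1 ≤ m x)
    (hN : ∀ x ∈ S, m x * E ≤ N) (hB : ∀ n ∈ Icc 1 N, (S.filter (fun x => m x ∣ n)).card ≤ B) :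
    ∑ x ∈ S, ∑ T ∈ ((PZ z0 J).filter (fun l => ¬ l ∣ m x)).powerset.filter (fun T : Finset ℕ => ∏ p ∈ T, p ≤ E),
      Em X (m x * ∏ p ∈ T, p) ≤ B * ∑ n ∈ Icc 1 N, Em X n := by
  classical
  rw [sum_sigma' S (fun x => ((PZ z0 J).filter (fun l => ¬ l ∣ m x)).powerset.filter (fun T : Finset ℕ => ∏ p ∈ T, p ≤ E))
    (fun x T => Em X (m x * ∏ p ∈ T, p))]
  obtain ⟨G, hG⟩ : ∃ G, G = S.sigma (fun x => ((PZ z0 J).filter (fun l => ¬ l ∣ m x)).powerset.filter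
    (fun T : Finset ℕ => ∏ p ∈ T, p ≤ E)) := ⟨_, rfl⟩
  rw [← hG]
  have hGm : ∀ y ∈ G, y.1 ∈ S ∧ (∀ p ∈ y.2, p.Prime) ∧ ∏ p ∈ y.2, p ≤ E := by
    intro y hy
    rw [hG, mem_sigma, mem_filter, mem_powerset] at hy
    exact ⟨hy.1, fun p hp => (mem_PZ (mem_filter.1 (hy.2.1 hp)).1).1, hy.2.2⟩
  have hmaps : ∀ y ∈ G, m y.1 * ∏ p ∈ y.2, p ∈ Icc 1 N := by
    intro y hy
    obtain ⟨a1, a2, a3⟩ := hGm y hy
    rw [mem_Icc]
    exact ⟨Nat.mul_pos (hm _ a1) (prod_pos fun p hp => (a2 p hp).pos), (Nat.mul_le_mul_left _ a3).trans (hN _ a1)⟩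
  rw [← sum_fiberwise_of_maps_to hmaps (fun y => Em X (m y.1 * ∏ p ∈ y.2, p)), mul_sum]
  apply sum_le_sum
  intro n hn
  calc ∑ y ∈ G.filter (fun y => m y.1 * ∏ p ∈ y.2, p = n), Em X (m y.1 * ∏ p ∈ y.2, p) =
        ∑ y ∈ G.filter (fun y => m y.1 * ∏ p ∈ y.2, p = n), Em X n := by
        apply sum_congr rfl
        intro y hy
        rw [(mem_filter.1 hy).2]
    _ = (G.filter (fun y => m y.1 * ∏ p ∈ y.2, p = n)).card * Em X n := by rw [sum_const, nsmul_eq_mul]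
    _ ≤ B * Em X n := by
        apply mul_le_mul_of_nonneg_right _ (Em_nonneg _ _)
        have h1 : (G.filter (fun y => m y.1 * ∏ p ∈ y.2, p = n)).card ≤ (S.filter (fun x => m x ∣ n)).card := by
          apply card_le_card_of_injOn (fun y => y.1)
          · intro y hy
            rw [mem_coe, mem_filter] at hy
            rw [mem_coe, mem_filter]
            exact ⟨(hGm y hy.1).1, by rw [← hy.2]; exact dvd_mul_right _ _⟩
          · rintro ⟨x, T⟩ hy ⟨x', T'⟩ hy' h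
            rw [mem_coe, mem_filter] at hy hy'
            have h' : x = x' := h
            subst h'
            obtain ⟨a1, a2, _⟩ := hGm _ hy.1
            obtain ⟨_, b2, _⟩ := hGm _ hy'.1
            simp only at a1 a2 b2 hy hy'
            have e1 : ∏ p ∈ T, p = ∏ p ∈ T', p := by
              have := hy.2.trans hy'.2.symm
              exact Nat.eq_of_mul_eq_mul_left (hm x a1) this
            have e2 : T = T' := by
              rw [← Nat.primeFactors_prod a2, ← Nat.primeFactors_prod b2, e1]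
            rw [e2]
        exact_mod_cast h1.trans (hB n hn)

theorem Es_le (X M z0 J k E : ℕ) (lam : ℝ) (hl : 0 < lam) : Es X M z0 J k E ≤
    lam * ∑ T ∈ ((PZ z0 J).filter (fun l => ¬ l ∣ M)).powerset.filter (fun T : Finset ℕ => ∏ p ∈ T, p ≤ E),
      ((k : ℝ) ^ 2) ^ T.card * Em X (M * ∏ p ∈ T, p) +
    1 / lam * ∑ T ∈ ((PZ z0 J).filter (fun l => ¬ l ∣ M)).powerset.filter (fun T : Finset ℕ => ∏ p ∈ T, p ≤ E),
      Em X (M * ∏ p ∈ T, p) := by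
  unfold Es
  rw [mul_sum, mul_sum, ← sum_add_distrib]
  apply sum_le_sum
  intro T _
  have h1 := Em_nonneg X (M * ∏ p ∈ T, p)
  obtain ⟨x, hx⟩ : ∃ x : ℝ, x = (k : ℝ) ^ T.card := ⟨_, rfl⟩
  have hx2 : ((k : ℝ) ^ 2) ^ T.card = x ^ 2 := by rw [hx, ← pow_mul, ← pow_mul, mul_comm]
  rw [hx2, ← hx]
  have h2 : x ≤ lam * x ^ 2 + 1 / lam := by
    have h3 : 0 ≤ (lam * x - 1) ^ 2 := sq_nonneg _
    have h4 : 0 ≤ x ^ 2 * lam := by positivity
    have h5 : lam * x ^ 2 + 1 / lam - x = ((lam * x - 1) ^ 2 + lam * x) / lam := by field_simp; ring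
    have h6 : 0 ≤ x := by rw [hx]; positivity
    have h7 : 0 ≤ ((lam * x - 1) ^ 2 + lam * x) / lam := by positivity
    linarith
  calc x * Em X (M * ∏ p ∈ T, p) ≤ (lam * x ^ 2 + 1 / lam) * Em X (M * ∏ p ∈ T, p) := mul_le_mul_of_nonneg_right h2 h1
    _ = _ := by ring

/-- the prime powers dividing `n` -/
theorem pp_count (n : ℕ) (hn : 1 ≤ n) : ((n.divisors.filter IsPrimePow).card : ℝ) ≤ 2 * Real.log n := by
  have h1 : ∑ d ∈ n.divisors, vonMangoldt d = Real.log n := ArithmeticFunction.vonMangoldt_sum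
  have h2 : ∑ d ∈ n.divisors.filter IsPrimePow, (1 / 2 : ℝ) ≤ ∑ d ∈ n.divisors, vonMangoldt d := by
    calc _ ≤ ∑ d ∈ n.divisors.filter IsPrimePow, vonMangoldt d := by
          apply sum_le_sum
          intro d hd
          obtain ⟨l, k, hl, hk, rfl⟩ := (mem_filter.1 hd).2
          rw [ArithmeticFunction.vonMangoldt_apply_pow hk.ne', ArithmeticFunction.vonMangoldt_apply_prime hl.nat_prime]
          have h3 : (2 : ℝ) ≤ l := by exact_mod_cast hl.nat_prime.two_le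
          have h4 := Real.log_le_log (by norm_num) h3
          have := Real.log_two_gt_d9
          linarith
      _ ≤ _ := sum_le_sum_of_subset_of_nonneg (filter_subset _ _) fun _ _ _ => ArithmeticFunction.vonMangoldt_nonneg
  rw [h1, sum_const, nsmul_eq_mul] at h2
  linarith

/-- the sum of the errors of a family of moduli -/
theorem errsum (θ : ℝ) (hθ0 : 0 < θ) (hθ : θ < 1 / 2) (k A : ℕ) : ∃ C : ℝ, 0 < C ∧ ∀ᶠ X : ℕ in atTop,
    ∀ (ι : Type) (S : Finset ι) (m : ι → ℕ) (z0 J E : ℕ), 1 ≤ J → 2 ^ 2 ^ J ≤ X → (∀ x ∈ S, 1 ≤ m x) →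
    (∀ x ∈ S, ((m x * E : ℕ) : ℝ) ≤ (X : ℝ) ^ θ) →
    (∀ n : ℕ, 1 ≤ n → n ≤ X → (((S.filter (fun x => m x ∣ n)).card : ℕ) : ℝ) ≤ 5 * Real.log X ^ 2) →
    ∑ x ∈ S, 1 / (Nat.totient (m x) : ℝ) ≤ 5 * Real.log X ^ 2 →
    ∑ x ∈ S, Es X (m x) z0 J k E ≤ C * (X / Real.log X ^ A) := by
  obtain ⟨C1, hC1, hw⟩ := weight_prod
  obtain ⟨A1, hA1⟩ : ∃ A1 : ℕ, A1 = A + 2 + 2 * k ^ 2 := ⟨_, rfl⟩
  obtain ⟨C2, hC2, hbv⟩ := Em_bv θ hθ (A + A1 + 3)
  refine ⟨15 * (Real.exp (2 * (k : ℝ) ^ 2 * C1) * 2 ^ (2 * k ^ 2)) + 6 * C2, by positivity, ?_⟩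
  filter_upwards [Pool.Agent.K4H50.TM.log_inf 1, eventually_ge_atTop 3] with X e1 e2
  intro ι S m z0 J E hJ hJX hm hmE hmult hphi
  have hX3 : (3 : ℝ) ≤ X := by exact_mod_cast e2
  have hX0 : (0 : ℝ) < X := by linarith
  have hX1 : (1 : ℝ) ≤ X := by linarith
  obtain ⟨L, hL⟩ : ∃ L, L = Real.log (X : ℝ) := ⟨_, rfl⟩
  rw [← hL] at e1 hmult hphi ⊢
  have hL0 : 0 < L := by linarith
  obtain ⟨N, hN⟩ : ∃ N, N = ⌊(X : ℝ) ^ θ⌋₊ := ⟨_, rfl⟩
  have hNX : N ≤ X := by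
    have : (N : ℝ) ≤ X := by
      calc (N : ℝ) ≤ (X : ℝ) ^ θ := by rw [hN]; exact Nat.floor_le (by positivity)
        _ ≤ (X : ℝ) ^ (1 : ℝ) := Real.rpow_le_rpow_of_exponent_le hX1 (by linarith)
        _ = X := Real.rpow_one _
    exact_mod_cast this
  have hmN : ∀ x ∈ S, m x * E ≤ N := fun x hx => by rw [hN]; exact Nat.le_floor (hmE x hx)
  have h2J : (2 : ℝ) ^ J ≤ 2 * L := by
    have h1 : Real.log (((2 ^ 2 ^ J : ℕ)) : ℝ) ≤ Real.log X :=
      Real.log_le_log (by positivity) (by exact_mod_cast hJX)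
    push_cast at h1
    rw [Real.log_pow, ← hL] at h1
    push_cast at h1
    have h2 := Real.log_two_gt_d9
    have h3 : (0 : ℝ) < 2 ^ J := by positivity
    nlinarith
  obtain ⟨lam, hlam⟩ : ∃ lam : ℝ, lam = 1 / L ^ A1 := ⟨_, rfl⟩
  have hlam0 : 0 < lam := by rw [hlam]; positivity
  have hb : ∀ n ∈ Icc 1 N, (S.filter (fun x => m x ∣ n)).card ≤ ⌊5 * L ^ 2⌋₊ := by
    intro n hn
    rw [mem_Icc] at hn
    exact Nat.le_floor (hmult n hn.1 (hn.2.trans hNX))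
  have hB := EsB X N z0 J E ⌊5 * L ^ 2⌋₊ S m hm hmN hb
  have hfl : ((⌊5 * L ^ 2⌋₊ : ℕ) : ℝ) ≤ 5 * L ^ 2 := Nat.floor_le (by positivity)
  have hbv' := hbv X e2
  rw [← hN, ← hL] at hbv'
  have hEsum0 : 0 ≤ ∑ n ∈ Icc 1 N, Em X n := sum_nonneg fun n _ => Em_nonneg _ _
  have hA : ∀ x ∈ S, ∑ T ∈ ((PZ z0 J).filter (fun l => ¬ l ∣ m x)).powerset.filter (fun T : Finset ℕ => ∏ p ∈ T, p ≤ E),
      ((k : ℝ) ^ 2) ^ T.card * Em X (m x * ∏ p ∈ T, p) ≤
      3 * X * (Real.exp (2 * (k : ℝ) ^ 2 * C1) * (2 * L) ^ (2 * k ^ 2)) * (1 / (Nat.totient (m x) : ℝ)) := by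
    intro x hx
    have hφ : (0 : ℝ) < (Nat.totient (m x) : ℝ) := by exact_mod_cast Nat.totient_pos.2 (hm x hx)
    refine (EsA X (m x) z0 J k E (hm x hx) ((hmN x hx).trans hNX)).trans ?_
    have h1 := hw k z0 J ((PZ z0 J).filter (fun l => ¬ l ∣ m x)) (filter_subset _ _) hJ
    have h2 : ((2 : ℝ) ^ J) ^ (2 * k ^ 2) ≤ (2 * L) ^ (2 * k ^ 2) := pow_le_pow_left₀ (by positivity) h2J _
    calc _ ≤ 3 * X / (Nat.totient (m x) : ℝ) * (Real.exp (2 * (k : ℝ) ^ 2 * C1) * (2 * L) ^ (2 * k ^ 2)) := by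
          apply mul_le_mul_of_nonneg_left _ (by positivity)
          exact h1.trans (mul_le_mul_of_nonneg_left h2 (by positivity))
      _ = _ := by ring
  have hEs : ∑ x ∈ S, Es X (m x) z0 J k E ≤
      lam * (3 * X * (Real.exp (2 * (k : ℝ) ^ 2 * C1) * (2 * L) ^ (2 * k ^ 2)) * (5 * L ^ 2)) +
        1 / lam * ((5 * L ^ 2) * (C2 * (X / L ^ (A + A1 + 3)))) := by
    calc ∑ x ∈ S, Es X (m x) z0 J k E ≤ ∑ x ∈ S, (lam * (3 * X * (Real.exp (2 * (k : ℝ) ^ 2 * C1) * (2 * L) ^ (2 * k ^ 2)) *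
          (1 / (Nat.totient (m x) : ℝ))) + 1 / lam *
          ∑ T ∈ ((PZ z0 J).filter (fun l => ¬ l ∣ m x)).powerset.filter (fun T : Finset ℕ => ∏ p ∈ T, p ≤ E),
            Em X (m x * ∏ p ∈ T, p)) := by
          apply sum_le_sum
          intro x hx
          refine (Es_le X (m x) z0 J k E lam hlam0).trans ?_
          apply add_le_add _ le_rfl
          exact mul_le_mul_of_nonneg_left (hA x hx) hlam0.le
      _ = lam * (3 * X * (Real.exp (2 * (k : ℝ) ^ 2 * C1) * (2 * L) ^ (2 * k ^ 2)) * ∑ x ∈ S, 1 / (Nat.totient (m x) : ℝ)) +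
          1 / lam * ∑ x ∈ S, ∑ T ∈ ((PZ z0 J).filter (fun l => ¬ l ∣ m x)).powerset.filter
            (fun T : Finset ℕ => ∏ p ∈ T, p ≤ E), Em X (m x * ∏ p ∈ T, p) := by
          rw [sum_add_distrib, ← mul_sum, ← mul_sum, ← mul_sum]
      _ ≤ _ := by
          apply add_le_add
          · apply mul_le_mul_of_nonneg_left _ hlam0.le
            exact mul_le_mul_of_nonneg_left hphi (by positivity)
          · apply mul_le_mul_of_nonneg_left _ (by positivity)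
            refine hB.trans ?_
            exact mul_le_mul hfl hbv' hEsum0 (by positivity)
  refine hEs.trans ?_
  have e3 : lam * (3 * X * (Real.exp (2 * (k : ℝ) ^ 2 * C1) * (2 * L) ^ (2 * k ^ 2)) * (5 * L ^ 2)) =
      15 * (Real.exp (2 * (k : ℝ) ^ 2 * C1) * 2 ^ (2 * k ^ 2)) * (X / L ^ A) := by
    rw [hlam, hA1, mul_pow, pow_add L (A + 2), pow_add L A]
    field_simp
    ring
  have e4 : 1 / lam * ((5 * L ^ 2) * (C2 * (X / L ^ (A + A1 + 3)))) ≤ 6 * C2 * (X / L ^ A) := by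
    have e5 : 1 / lam * ((5 * L ^ 2) * (C2 * (X / L ^ (A + A1 + 3)))) = 5 * C2 * (X / L ^ A) * (1 / L) := by
      rw [hlam, pow_add L (A + A1), pow_add L A]
      field_simp
    rw [e5]
    have h1 : 1 / L ≤ 1 := by rw [div_le_one hL0]; exact e1
    have h2 : 0 ≤ C2 * (X / L ^ A) := by positivity
    calc 5 * C2 * (X / L ^ A) * (1 / L) ≤ 5 * C2 * (X / L ^ A) * 1 := mul_le_mul_of_nonneg_left h1 (by positivity)
      _ ≤ _ := by linarith
  rw [e3]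
  linarith

end Pool.Agent.K4H50.QM
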