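import Pool.Agent.K4H50.QM.F3

/-!
# The densities of the sifted sets, the choice of the sieving limit
-/

set_option autoImplicit false

namespace Pool.Agent.K4H50.QM

open Finset Filter
open Pool.Agent.K4H50.HL (PZ)

theorem fac_pos {z0 J k l : ℕ} (hl : l ∈ PZ z0 J) (hz : 2 * k + 2 ≤ z0) :
    0 < 1 - (k : ℝ) * (1 / ((l : ℝ) - 1)) ∧ 1 - (k : ℝ) * (1 / ((l : ℝ) - 1)) ≤ 1 ∧
      1 - (k : ℝ) / z0 ≤ 1 - (k : ℝ) * (1 / ((l : ℝ) - 1)) ∧ (k : ℝ) * (1 / ((l : ℝ) - 1)) ≤ 1 / 2 := by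
  obtain ⟨a1, a2, a3⟩ := mem_PZ hl
  have h1 : (z0 : ℝ) + 1 ≤ l := by exact_mod_cast a2
  have h2 : 2 * (k : ℝ) + 2 ≤ z0 := by exact_mod_cast hz
  have hk : (0 : ℝ) ≤ k := Nat.cast_nonneg _
  have h3 : 0 < (l : ℝ) - 1 := by linarith
  have h4 : (k : ℝ) * (1 / ((l : ℝ) - 1)) ≤ k / z0 := by
    rw [mul_one_div]
    exact div_le_div_of_nonneg_left hk (by linarith) (by linarith)
  have h5 : (k : ℝ) / z0 ≤ 1 / 2 := by
    rw [div_le_div_iff₀ (by linarith) (by norm_num)]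
    linarith
  have h6 : 0 ≤ (k : ℝ) * (1 / ((l : ℝ) - 1)) := by positivity
  exact ⟨by linarith, by linarith, by linarith, by linarith⟩

theorem Vm_one (z0 J k : ℕ) : Vm 1 z0 J k = ∏ l ∈ PZ z0 J, (1 - (k : ℝ) * (1 / ((l : ℝ) - 1))) := by
  unfold Vm
  congr 1
  rw [filter_eq_self]
  intro l hl h
  have h1 := (mem_PZ hl).1.one_lt
  have := Nat.le_of_dvd one_pos h
  omega

theorem Vm_pos (M z0 J k : ℕ) (hz : 2 * k + 2 ≤ z0) : 0 < Vm M z0 J k :=
  prod_pos fun l hl => (fac_pos (mem_filter.1 hl).1 hz).1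

theorem Vm_split (M z0 J k : ℕ) : Vm 1 z0 J k = Vm M z0 J k *
    ∏ l ∈ (PZ z0 J).filter (fun l => l ∣ M), (1 - (k : ℝ) * (1 / ((l : ℝ) - 1))) := by
  rw [Vm_one, ← prod_filter_mul_prod_filter_not (PZ z0 J) (fun l => l ∣ M), mul_comm]
  rfl

theorem Vm_ge (M z0 J k : ℕ) (hz : 2 * k + 2 ≤ z0) : Vm 1 z0 J k ≤ Vm M z0 J k := by
  rw [Vm_split M]
  apply mul_le_of_le_one_right (Vm_pos M z0 J k hz).le
  apply prod_le_one
  · intro l hl
    exact (fac_pos (mem_filter.1 hl).1 hz).1.le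
  · intro l hl
    exact (fac_pos (mem_filter.1 hl).1 hz).2.1

theorem Vm_le (M q z0 J k : ℕ) (hz : 2 * k + 2 ≤ z0) (hq : ∀ l ∈ PZ z0 J, l ∣ M → l = q) :
    Vm M z0 J k * (1 - (k : ℝ) / z0) ≤ Vm 1 z0 J k := by
  rw [Vm_split M]
  apply mul_le_mul_of_nonneg_left _ (Vm_pos M z0 J k hz).le
  have hk : (0 : ℝ) ≤ k := Nat.cast_nonneg _
  have h2 : 2 * (k : ℝ) + 2 ≤ z0 := by exact_mod_cast hz
  by_cases hqm : q ∈ (PZ z0 J).filter (fun l => l ∣ M)
  · have e : (PZ z0 J).filter (fun l => l ∣ M) = {q} := by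
      ext l
      rw [mem_filter, mem_singleton]
      constructor
      · rintro ⟨h1, h2⟩; exact hq l h1 h2
      · rintro rfl; exact mem_filter.1 hqm
    rw [e, prod_singleton]
    exact (fac_pos (mem_filter.1 hqm).1 hz).2.2.1
  · have e : (PZ z0 J).filter (fun l => l ∣ M) = ∅ := by
      rw [filter_eq_empty_iff]
      intro l hl hlM
      have := hq l hl hlM
      subst this
      exact hqm (mem_filter.2 ⟨hl, hlM⟩)
    rw [e, prod_empty]
    have : 0 ≤ (k : ℝ) / z0 := by positivity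
    linarith

theorem sum_inv_sq (s : Finset ℕ) (hs : ∀ l ∈ s, 1 ≤ l) : ∑ l ∈ s, 1 / (l : ℝ) ^ 2 ≤ 2 := by
  have h1 := sum_Ioo_inv_sq_le (α := ℝ) 0 (s.sup id + 1)
  refine le_trans ?_ (h1.trans (by norm_num))
  calc ∑ l ∈ s, 1 / (l : ℝ) ^ 2 ≤ ∑ l ∈ Ioo 0 (s.sup id + 1), 1 / (l : ℝ) ^ 2 := by
        apply sum_le_sum_of_subset_of_nonneg
        · intro l hl
          rw [mem_Ioo]
          have := hs l hl
          have h2 : id l ≤ s.sup id := le_sup (f := id) hl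
          simp only [id] at h2
          omega
        · intro l _ _; positivity
    _ = _ := by
        apply sum_congr rfl
        intro l _
        rw [one_div]

/-- the lower bound of the density -/
theorem Vm_lower : ∃ C : ℝ, 0 < C ∧ ∀ k z0 J : ℕ, 1 ≤ J → 2 * k + 2 ≤ z0 →
    Real.exp (-(k * C + 4 * k + 16 * k ^ 2)) / ((2 : ℝ) ^ J) ^ k ≤ Vm 1 z0 J k := by
  obtain ⟨C, hC, h⟩ := sumPZ
  refine ⟨C, hC, fun k z0 J hJ hz => ?_⟩
  rw [Vm_one]
  have h1 := (h z0 J hJ).2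
  have hk : (0 : ℝ) ≤ k := Nat.cast_nonneg _
  have hsq : ∑ l ∈ PZ z0 J, 1 / (l : ℝ) ^ 2 ≤ 2 := sum_inv_sq _ fun l hl => (mem_PZ hl).1.one_lt.le
  have h2 : Real.exp (-∑ l ∈ PZ z0 J, (k * (1 / (l : ℝ)) + (2 * k + 8 * k ^ 2) * (1 / (l : ℝ) ^ 2))) ≤
      ∏ l ∈ PZ z0 J, (1 - (k : ℝ) * (1 / ((l : ℝ) - 1))) := by
    rw [← sum_neg_distrib, Real.exp_sum]
    apply Finset.prod_le_prod
    · intro l _; positivity
    · intro l hl
      obtain ⟨f1, f2, f3, f4⟩ := fac_pos (k := k) hl hz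
      obtain ⟨x, hx⟩ : ∃ x : ℝ, x = (k : ℝ) * (1 / ((l : ℝ) - 1)) := ⟨_, rfl⟩
      rw [← hx] at f1 f2 f4 ⊢
      have hl2 : (2 : ℝ) ≤ l := by exact_mod_cast (mem_PZ hl).1.two_le
      have hx0 : 0 ≤ x := by linarith
      have h3 : Real.exp (-(x / (1 - x))) ≤ 1 - x := by
        have h4 := Real.add_one_le_exp (x / (1 - x))
        have h5 : x / (1 - x) + 1 = 1 / (1 - x) := by field_simp; ring
        rw [h5, div_le_iff₀ f1] at h4
        rw [Real.exp_neg, inv_le_comm₀ (Real.exp_pos _) f1, inv_eq_one_div, div_le_iff₀ f1]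
        linarith
      refine le_trans ?_ h3
      apply Real.exp_le_exp.2
      apply neg_le_neg
      have h6 : x / (1 - x) ≤ x + 2 * x ^ 2 := by
        rw [div_le_iff₀ f1]
        nlinarith [mul_nonneg (sq_nonneg x) (by linarith : 0 ≤ 1 / 2 - x)]
      have h7 : 1 / ((l : ℝ) - 1) ≤ 1 / l + 2 * (1 / (l : ℝ) ^ 2) := by
        have e : 1 / (l : ℝ) + 2 * (1 / (l : ℝ) ^ 2) = (l + 2) / l ^ 2 := by field_simp
        rw [e, div_le_div_iff₀ (by linarith) (by positivity)]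
        nlinarith
      have h8 : x ≤ k * (1 / l + 2 * (1 / (l : ℝ) ^ 2)) := by rw [hx]; exact mul_le_mul_of_nonneg_left h7 hk
      have h9 : x ^ 2 ≤ 4 * k ^ 2 * (1 / (l : ℝ) ^ 2) := by
        have h10 : x ≤ k * (2 / l) := by
          rw [hx]
          apply mul_le_mul_of_nonneg_left _ hk
          rw [div_le_div_iff₀ (by linarith) (by linarith)]
          linarith
        calc x ^ 2 ≤ (k * (2 / l)) ^ 2 := pow_le_pow_left₀ hx0 h10 2
          _ = _ := by ring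
      linarith
  refine le_trans ?_ h2
  have h11 : ∑ l ∈ PZ z0 J, (k * (1 / (l : ℝ)) + (2 * k + 8 * k ^ 2) * (1 / (l : ℝ) ^ 2)) ≤
      k * (J * Real.log 2) + (k * C + 4 * k + 16 * k ^ 2) := by
    rw [sum_add_distrib, ← mul_sum, ← mul_sum]
    have h12 := mul_le_mul_of_nonneg_left h1 hk
    have h13 := mul_le_mul_of_nonneg_left hsq (show (0 : ℝ) ≤ 2 * k + 8 * k ^ 2 by positivity)
    linarith
  calc Real.exp (-(k * C + 4 * k + 16 * k ^ 2)) / ((2 : ℝ) ^ J) ^ k =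
        Real.exp (-(k * C + 4 * k + 16 * k ^ 2) - k * (J * Real.log 2)) := by
        rw [Real.exp_sub, Real.exp_nat_mul, Real.exp_nat_mul, Real.exp_log (by norm_num)]
    _ ≤ _ := Real.exp_le_exp.2 (by linarith)

theorem prod_le_Vm (k z0 J : ℕ) (hz : 2 * k + 2 ≤ z0) :
    ∏ l ∈ PZ z0 J, (1 - (k : ℝ) / l) ≤ Real.exp (8 * k) * Vm 1 z0 J k := by
  rw [Vm_one]
  have hk : (0 : ℝ) ≤ k := Nat.cast_nonneg _
  have hsq : ∑ l ∈ PZ z0 J, 1 / (l : ℝ) ^ 2 ≤ 2 := sum_inv_sq _ fun l hl => (mem_PZ hl).1.one_lt.le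
  have h1 : ∏ l ∈ PZ z0 J, (1 - (k : ℝ) / l) ≤ ∏ l ∈ PZ z0 J, (Real.exp (4 * k * (1 / (l : ℝ) ^ 2)) *
      (1 - (k : ℝ) * (1 / ((l : ℝ) - 1)))) := by
    apply Finset.prod_le_prod
    · intro l hl
      have h2 := (mem_PZ hl).2.1
      have h3 : (k : ℝ) ≤ l := by exact_mod_cast (by omega : k ≤ l)
      have h4 : (0 : ℝ) < l := by exact_mod_cast (mem_PZ hl).1.pos
      have : (k : ℝ) / l ≤ 1 := by rw [div_le_one h4]; exact h3
      linarith
    · intro l hl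
      obtain ⟨f1, f2, f3, f4⟩ := fac_pos (k := k) hl hz
      have hl2 : (2 : ℝ) ≤ l := by exact_mod_cast (mem_PZ hl).1.two_le
      have h5 := Real.add_one_le_exp (4 * k * (1 / (l : ℝ) ^ 2))
      refine le_trans ?_ (mul_le_mul_of_nonneg_right h5 f1.le)
      obtain ⟨x, hx⟩ : ∃ x : ℝ, x = (k : ℝ) * (1 / ((l : ℝ) - 1)) := ⟨_, rfl⟩
      rw [← hx] at f1 f2 f4 ⊢
      have h7 : x - k / l ≤ 2 * k * (1 / (l : ℝ) ^ 2) := by
        have h8 : 1 / ((l : ℝ) - 1) ≤ 1 / l + 2 * (1 / (l : ℝ) ^ 2) := by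
          have e : 1 / (l : ℝ) + 2 * (1 / (l : ℝ) ^ 2) = (l + 2) / l ^ 2 := by field_simp
          rw [e, div_le_div_iff₀ (by linarith) (by positivity)]
          nlinarith
        have h9 := mul_le_mul_of_nonneg_left h8 hk
        rw [← hx] at h9
        have e2 : (k : ℝ) * (1 / l + 2 * (1 / (l : ℝ) ^ 2)) = k / l + 2 * k * (1 / (l : ℝ) ^ 2) := by ring
        linarith
      have h10 : 0 ≤ k * (1 / (l : ℝ) ^ 2) := by positivity
      nlinarith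
  refine h1.trans ?_
  rw [prod_mul_distrib, ← Real.exp_sum, ← mul_sum]
  apply mul_le_mul_of_nonneg_right
  · apply Real.exp_le_exp.2
    have := mul_le_mul_of_nonneg_left hsq (show (0 : ℝ) ≤ 4 * k by positivity)
    linarith
  · exact prod_nonneg fun l hl => (fac_pos hl hz).1.le

theorem Jchoice (K : ℕ) (hK : 1 ≤ K) (s : ℝ) (hs : 0 < s) : ∃ c : ℝ, 0 < c ∧ ∀ᶠ X : ℕ in atTop, ∃ J : ℕ, 1 ≤ J ∧
    (((2 ^ 2 ^ J) ^ K : ℕ) : ℝ) ≤ (X : ℝ) ^ s ∧ c * Real.log X ≤ (2 : ℝ) ^ J ∧ (J : ℝ) + 2 ≤ Real.log X := by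
  obtain ⟨D, hD⟩ : ∃ D : ℝ, D = K / s + 8 := ⟨_, rfl⟩
  have hKr : (1 : ℝ) ≤ K := by exact_mod_cast hK
  have hD8 : 8 ≤ D := by
    rw [hD]
    have : 0 ≤ (K : ℝ) / s := by positivity
    linarith
  have hDK : (K : ℝ) ≤ s * D := by
    rw [hD, mul_add]
    have : s * ((K : ℝ) / s) = K := by field_simp
    rw [this]
    nlinarith
  refine ⟨1 / (4 * D), by positivity, ?_⟩
  filter_upwards [Pool.Agent.K4H50.TM.log_inf (4 * D), eventually_ge_atTop 3] with X hL hX3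
  have hXr : (3 : ℝ) ≤ X := by exact_mod_cast hX3
  have hX0 : (0 : ℝ) < X := by linarith
  obtain ⟨L, hLdef⟩ : ∃ L : ℝ, L = Real.log X := ⟨_, rfl⟩
  rw [← hLdef] at hL ⊢
  have hL0 : 0 < L := by linarith
  obtain ⟨m, hm⟩ : ∃ m : ℕ, m = ⌊L / D⌋₊ := ⟨_, rfl⟩
  have hmle : (m : ℝ) ≤ L / D := by rw [hm]; exact Nat.floor_le (by positivity)
  have hmge : L / D - 1 < m := by
    have := Nat.lt_floor_add_one (L / D)
    rw [← hm] at this
    linarith
  have hLD : 4 ≤ L / D := by rw [le_div_iff₀ (by linarith)]; linarith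
  have hm2 : 2 ≤ m := by
    have : (2 : ℝ) < m := by linarith
    exact_mod_cast this.le
  obtain ⟨J, hJ⟩ : ∃ J : ℕ, J = Nat.log 2 m := ⟨_, rfl⟩
  have hJ1 : 1 ≤ J := by
    rw [hJ]
    exact (Nat.le_log_iff_pow_le (by norm_num) (by omega)).2 (by omega)
  have hJm : 2 ^ J ≤ m := by rw [hJ]; exact Nat.pow_log_le_self 2 (by omega)
  have hJm2 : m < 2 ^ (J + 1) := by rw [hJ]; exact Nat.lt_pow_succ_log_self (by norm_num) m
  have hJmr : (2 : ℝ) ^ J ≤ m := by exact_mod_cast hJm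
  refine ⟨J, hJ1, ?_, ?_, ?_⟩
  · have h1 : Real.log (((2 ^ 2 ^ J) ^ K : ℕ) : ℝ) ≤ Real.log ((X : ℝ) ^ s) := by
      have e1 : Real.log (((2 ^ 2 ^ J) ^ K : ℕ) : ℝ) = K * (2 ^ J * Real.log 2) := by
        push_cast; rw [Real.log_pow, Real.log_pow]; push_cast; ring
      rw [e1, Real.log_rpow hX0, ← hLdef]
      have h2 : Real.log 2 ≤ 1 := by have := Real.log_two_lt_d9; linarith
      have h3 : (2 : ℝ) ^ J * Real.log 2 ≤ L / D := by
        calc (2 : ℝ) ^ J * Real.log 2 ≤ (2 : ℝ) ^ J * 1 := mul_le_mul_of_nonneg_left h2 (by positivity)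
          _ ≤ L / D := by linarith
      calc (K : ℝ) * (2 ^ J * Real.log 2) ≤ (s * D) * (L / D) :=
            mul_le_mul hDK h3 (mul_nonneg (by positivity) (Real.log_nonneg (by norm_num))) (by positivity)
        _ = s * L := by field_simp
    exact (Real.log_le_log_iff (by positivity) (by positivity)).1 h1
  · have h1 : (m : ℝ) < 2 ^ (J + 1) := by exact_mod_cast hJm2
    have h2 : 1 / (4 * D) * L = (L / D) / 4 := by field_simp
    rw [h2]
    rw [pow_succ] at h1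
    linarith
  · have h1 : J < 2 ^ J := Nat.lt_two_pow_self
    have h2 : (J : ℝ) < 2 ^ J := by exact_mod_cast h1
    have h3 : L / D ≤ L / 8 := by gcongr
    linarith

end Pool.Agent.K4H50.QM
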