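import Pool.Agent.K4H50.QM.F4

/-!
# The upper bound for the members of a class sifted by two systems of shifts
-/

set_option autoImplicit false

namespace Pool.Agent.K4H50.QM

open Finset Filter
open Pool.Agent.K4H50.HL (PZ)
open Pool.Agent.K4H50.TM (aff_card)

theorem cls_card (p : ℕ) (hp : 0 < p) (S : Finset ℕ) (hS : ∀ g ∈ S, g < p) :
    ((range p).filter (fun r => ∃ g ∈ S, p ∣ r + g)).card = S.card := by
  symm
  apply card_bij (fun g _ => (p - g) % p)
  · intro g hg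
    rw [mem_filter, mem_range]
    refine ⟨Nat.mod_lt _ hp, g, hg, ?_⟩
    have h1 := hS g hg
    rcases Nat.eq_zero_or_pos g with rfl | h0
    · simp
    · rw [Nat.mod_eq_of_lt (by omega)]
      have : p - g + g = p := by omega
      rw [this]
  · intro g hg g' hg' e
    have h1 := hS g hg
    have h2 := hS g' hg'
    rcases Nat.eq_zero_or_pos g with rfl | h0 <;> rcases Nat.eq_zero_or_pos g' with rfl | h0'
    · rfl
    · exfalso
      simp only [Nat.sub_zero, Nat.mod_self] at e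
      rw [Nat.mod_eq_of_lt (by omega)] at e
      omega
    · exfalso
      simp only [Nat.sub_zero, Nat.mod_self] at e
      rw [Nat.mod_eq_of_lt (by omega)] at e
      omega
    · rw [Nat.mod_eq_of_lt (by omega), Nat.mod_eq_of_lt (by omega)] at e
      omega
  · intro r hr
    rw [mem_filter, mem_range] at hr
    obtain ⟨hr1, g, hg, hd⟩ := hr
    refine ⟨g, hg, ?_⟩
    have h1 := hS g hg
    obtain ⟨k, hk⟩ := hd
    have hk2 : k < 2 := by
      by_contra h
      push Not at h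
      nlinarith
    interval_cases k
    · have hg0 : g = 0 := by omega
      have hr0 : r = 0 := by omega
      subst hg0
      subst hr0
      simp
    · have : p - g = r := by omega
      rw [this, Nat.mod_eq_of_lt hr1]

/-- the forbidden classes -/
def OmU (G H : Finset ℕ) (m c z p : ℕ) : Finset ℕ := if p ∣ m then ∅ else
  (range p).filter (fun t => ∃ g ∈ (if p ≤ z then G ∪ H else G), p ∣ (m * t + c) % p + g)

/-- numbers of a class sifted by two systems of shifts -/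
def US (X m c z0 J2 J : ℕ) (G H : Finset ℕ) : Finset ℕ := (Icc 1 X).filter (fun n => n ≡ c [MOD m] ∧
  (∀ l ∈ PZ z0 J2, ¬ l ∣ m → ∀ g ∈ G, ¬ l ∣ n + g) ∧ ∀ l ∈ PZ z0 J, ¬ l ∣ m → ∀ h ∈ H, ¬ l ∣ n + h)

theorem PZ_mem_of_le {z0 J J2 p : ℕ} (hp : p ∈ PZ z0 J2) (h : p ≤ 2 ^ 2 ^ J) : p ∈ PZ z0 J := by
  obtain ⟨a1, a2, a3⟩ := mem_PZ hp
  unfold PZ
  rw [mem_filter, mem_Icc]
  exact ⟨⟨a1.one_lt.le, h⟩, a1, a2⟩

theorem PZ_mono {z0 J J2 : ℕ} (h : J ≤ J2) : PZ z0 J ⊆ PZ z0 J2 := by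
  intro p hp
  obtain ⟨a1, a2, a3⟩ := mem_PZ hp
  unfold PZ
  rw [mem_filter, mem_Icc]
  exact ⟨⟨a1.one_lt.le, a3.trans (Nat.pow_le_pow_right (by norm_num) (Nat.pow_le_pow_right (by norm_num) h))⟩, a1, a2⟩

theorem OmU_card {G H : Finset ℕ} {m c z p : ℕ} (hp : p.Prime) (hpm : ¬ p ∣ m) (hG : ∀ g ∈ G ∪ H, g < p) :
    (OmU G H m c z p).card = (if p ≤ z then G ∪ H else G).card := by
  unfold OmU
  rw [if_neg hpm]
  rw [aff_card p m c hp hpm (fun r => ∃ g ∈ (if p ≤ z then G ∪ H else G), p ∣ r + g)]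
  apply cls_card p hp.pos
  intro g hg
  apply hG
  split_ifs at hg with h
  · exact hg
  · exact mem_union_left _ hg

theorem OmU_card_le {G H : Finset ℕ} {m c z p : ℕ} (hp : p.Prime) (hG : ∀ g ∈ G ∪ H, g < p) (hd : Disjoint G H) :
    (OmU G H m c z p).card ≤ G.card + H.card := by
  by_cases hpm : p ∣ m
  · unfold OmU; rw [if_pos hpm, card_empty]; omega
  · rw [OmU_card hp hpm hG]
    split_ifs with h
    · rw [card_union_of_disjoint hd]
    · omega

theorem US_le (X m c z0 J2 J : ℕ) (G H : Finset ℕ) (hm : 1 ≤ m) : (US X m c z0 J2 J G H).card ≤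
    ((range (X / m + 1)).filter (fun t => ∀ p ∈ PZ z0 J2, t % p ∉ OmU G H m (c % m) (2 ^ 2 ^ J) p)).card := by
  have hrep : ∀ n ∈ US X m c z0 J2 J G H, m * (n / m) + c % m = n := by
    intro n hn
    unfold US at hn
    rw [mem_filter] at hn
    have h1 : n % m = c % m := hn.2.1
    rw [← h1]
    exact Nat.div_add_mod n m
  apply card_le_card_of_injOn (fun n => n / m)
  · intro n hn
    rw [mem_coe] at hn
    have h0 := hrep n hn
    unfold US at hn
    rw [mem_filter, mem_Icc] at hn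
    obtain ⟨⟨a1, a2⟩, a3, a4, a5⟩ := hn
    rw [mem_coe, mem_filter, mem_range]
    refine ⟨Nat.lt_succ_of_le (Nat.div_le_div_right a2), ?_⟩
    intro p hp hmem
    unfold OmU at hmem
    by_cases hpm : p ∣ m
    · rw [if_pos hpm] at hmem
      exact absurd hmem (notMem_empty _)
    · rw [if_neg hpm, mem_filter] at hmem
      obtain ⟨_, g, hg, hd⟩ := hmem
      have e1 : (m * (n / m % p) + c % m) % p = n % p := by
        rw [Nat.add_mod, Nat.mul_mod, Nat.mod_mod, ← Nat.mul_mod, ← Nat.add_mod, h0]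
      rw [e1] at hd
      have hd2 : p ∣ n + g := by
        rw [Nat.dvd_iff_mod_eq_zero, Nat.add_mod]
        rw [Nat.dvd_iff_mod_eq_zero, Nat.add_mod, Nat.mod_mod] at hd
        exact hd
      split_ifs at hg with hz
      · rw [mem_union] at hg
        rcases hg with hg | hg
        · exact a4 p hp hpm g hg hd2
        · exact a5 p (PZ_mem_of_le hp hz) hpm g hg hd2
      · exact a4 p hp hpm g hg hd2
  · intro n hn n' hn' e
    have e' : n / m = n' / m := e
    rw [← hrep n hn, ← hrep n' hn', e']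

theorem prod_OmU (z0 J2 J m c : ℕ) (G H : Finset ℕ) (hJ : J ≤ J2) (hm : 1 ≤ m)
    (hz : 2 * (G.card + H.card) + 2 ≤ z0) (hG : ∀ g ∈ G ∪ H, g ≤ z0) (hd : Disjoint G H) :
    ∏ p ∈ PZ z0 J2, (1 - ((OmU G H m c (2 ^ 2 ^ J) p).card : ℝ) * (1 / (p : ℝ))) ≤
      (∏ p ∈ PZ z0 J2, (1 - (G.card : ℝ) / p)) * (∏ p ∈ PZ z0 J, (1 - (H.card : ℝ) / p)) *
        rhoK (2 * (G.card + H.card)) m := by
  obtain ⟨g, hg⟩ : ∃ g : ℝ, g = G.card := ⟨_, rfl⟩
  obtain ⟨k, hk⟩ : ∃ k : ℝ, k = H.card := ⟨_, rfl⟩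
  have hg0 : 0 ≤ g := by rw [hg]; exact Nat.cast_nonneg _
  have hk0 : 0 ≤ k := by rw [hk]; exact Nat.cast_nonneg _
  have hbig : ∀ p ∈ PZ z0 J2, 2 * (g + k) + 2 ≤ p := by
    intro p hp
    have h1 := (mem_PZ hp).2.1
    rw [hg, hk]
    exact_mod_cast (by omega : 2 * (G.card + H.card) + 2 ≤ p)
  rw [← hg, ← hk]
  have e2 : ∏ p ∈ PZ z0 J, (1 - k / (p : ℝ)) = ∏ p ∈ PZ z0 J2, (if p ≤ 2 ^ 2 ^ J then 1 - k / (p : ℝ) else 1) := by
    rw [← prod_filter]
    congr 1
    ext p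
    rw [mem_filter]
    constructor
    · intro hp
      exact ⟨PZ_mono hJ hp, (mem_PZ hp).2.2⟩
    · rintro ⟨h1, h2⟩
      exact PZ_mem_of_le h1 h2
  have e3 : ∏ p ∈ PZ z0 J2, (if p ∣ m then 1 + (2 * (g + k)) / (p : ℝ) else 1) ≤ rhoK (2 * (g + k)) m := by
    rw [← prod_filter]
    unfold rhoK
    have hsub : (PZ z0 J2).filter (fun p => p ∣ m) ⊆ m.primeFactors := by
      intro p hp
      rw [mem_filter] at hp
      rw [Nat.mem_primeFactors]
      exact ⟨(mem_PZ hp.1).1, hp.2, by omega⟩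
    rw [← prod_sdiff hsub]
    apply le_mul_of_one_le_left
    · apply prod_nonneg
      intro p _
      positivity
    · apply prod_induction (fun l : ℕ => 1 + 2 * (g + k) / (l : ℝ)) (fun x => 1 ≤ x)
      · intro x y hx hy; nlinarith
      · exact le_rfl
      · intro l _
        have : 0 ≤ 2 * (g + k) / (l : ℝ) := by positivity
        linarith
  have hV0 : ∀ p ∈ PZ z0 J2, 0 ≤ 1 - g / (p : ℝ) ∧ 0 ≤ 1 - k / (p : ℝ) ∧ (g + k) / (p : ℝ) ≤ 1 / 2 := by
    intro p hp
    have h1 := hbig p hp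
    have h2 : (0 : ℝ) < p := by linarith
    have h3 : g / (p : ℝ) ≤ 1 := by rw [div_le_one h2]; linarith
    have h4 : k / (p : ℝ) ≤ 1 := by rw [div_le_one h2]; linarith
    have h5 : (g + k) / (p : ℝ) ≤ 1 / 2 := by rw [div_le_div_iff₀ h2 (by norm_num)]; linarith
    exact ⟨by linarith, by linarith, h5⟩
  have hmain : ∏ p ∈ PZ z0 J2, (1 - ((OmU G H m c (2 ^ 2 ^ J) p).card : ℝ) * (1 / (p : ℝ))) ≤
      ∏ p ∈ PZ z0 J2, ((1 - g / (p : ℝ)) * (if p ≤ 2 ^ 2 ^ J then 1 - k / (p : ℝ) else 1) *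
        (if p ∣ m then 1 + (2 * (g + k)) / (p : ℝ) else 1)) := by
    apply Finset.prod_le_prod
    · intro p hp
      obtain ⟨a1, a2, a3⟩ := mem_PZ hp
      have h1 := hbig p hp
      have h2 : (0 : ℝ) < p := by linarith
      have hc : ((OmU G H m c (2 ^ 2 ^ J) p).card : ℝ) ≤ g + k := by
        by_cases hpm : p ∣ m
        · unfold OmU; rw [if_pos hpm, card_empty]; push_cast; linarith
        · rw [OmU_card a1 hpm (fun x hx => by have := hG x hx; omega)]
          split_ifs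
          · rw [card_union_of_disjoint hd]; push_cast; rw [← hg, ← hk]
          · rw [← hg]; linarith
      have h3 : ((OmU G H m c (2 ^ 2 ^ J) p).card : ℝ) * (1 / (p : ℝ)) ≤ (g + k) / p := by
        rw [mul_one_div]; exact div_le_div_of_nonneg_right hc h2.le
      have := (hV0 p hp).2.2
      linarith
    · intro p hp
      obtain ⟨a1, a2, a3⟩ := mem_PZ hp
      have h1 := hbig p hp
      have h2 : (0 : ℝ) < p := by linarith
      obtain ⟨v1, v2, v3⟩ := hV0 p hp
      by_cases hpm : p ∣ m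
      · have hc0 : (OmU G H m c (2 ^ 2 ^ J) p).card = 0 := by unfold OmU; rw [if_pos hpm, card_empty]
        rw [hc0, if_pos hpm]
        push_cast
        have h5 : 1 - (g + k) / p ≤ (1 - g / (p : ℝ)) * (if p ≤ 2 ^ 2 ^ J then 1 - k / (p : ℝ) else 1) := by
          have e : (g + k) / p = g / p + k / p := by ring
          have h6 : 0 ≤ g / (p : ℝ) := by positivity
          have h7 : 0 ≤ k / (p : ℝ) := by positivity
          rw [e]
          split_ifs
          · nlinarith [mul_nonneg h6 h7]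
          · linarith
        have e4 : 2 * (g + k) / (p : ℝ) = 2 * ((g + k) / p) := by ring
        rw [e4]
        have h8 : 0 ≤ (g + k) / (p : ℝ) := by positivity
        calc (1 : ℝ) - 0 * (1 / p) ≤ (1 - (g + k) / p) * (1 + 2 * ((g + k) / p)) := by nlinarith
          _ ≤ _ := mul_le_mul_of_nonneg_right h5 (by linarith)
      · rw [OmU_card a1 hpm (fun x hx => by have := hG x hx; omega), if_neg hpm, mul_one]
        have h6 : 0 ≤ g / (p : ℝ) := by positivity
        have h7 : 0 ≤ k / (p : ℝ) := by positivity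
        split_ifs
        · rw [card_union_of_disjoint hd]
          push_cast
          rw [← hg, ← hk]
          have e : (g + k) * (1 / (p : ℝ)) = g / p + k / p := by ring
          rw [e]
          nlinarith [mul_nonneg h6 h7]
        · rw [← hg, mul_one, mul_one_div]
  refine hmain.trans ?_
  rw [prod_mul_distrib, prod_mul_distrib, e2]
  apply mul_le_mul_of_nonneg_left e3
  apply mul_nonneg
  · exact prod_nonneg fun p hp => (hV0 p hp).1
  · apply prod_nonneg
    intro p hp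
    split_ifs
    · exact (hV0 p hp).2.1
    · exact zero_le_one

/-- the upper bound -/
theorem lemU (g k : ℕ) : ∃ C0 : ℕ, 1 ≤ C0 ∧ ∃ C : ℝ, 0 < C ∧ ∀ (z0 J2 J : ℕ) (G H : Finset ℕ) (X m c : ℕ),
    G.card = g → H.card = k → J ≤ J2 → 1 ≤ J → C0 * (g + k + 1) ≤ z0 → 2 * (g + k) + 2 ≤ z0 →
    (∀ x ∈ G ∪ H, x ≤ z0) → Disjoint G H → 1 ≤ m →
    ((US X m c z0 J2 J G H).card : ℝ) ≤
      2 * (((X : ℝ) / m + 1) * ((Real.exp (C + z0) / 2 ^ J2) ^ g * (Real.exp (8 * k) * Vm 1 z0 J k) *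
        rhoK (2 * (g + k)) m)) +
      ((J2 : ℝ) + 2) * ((((2 ^ 2 ^ J2) ^ (C0 * (C0 * (g + k + 1))) : ℕ) : ℝ)) ^ 3 := by
  obtain ⟨C0, hC0, Hs⟩ := sieveK
  obtain ⟨C, hC, HV⟩ := VK_le g
  refine ⟨C0, hC0, C, hC, ?_⟩
  intro z0 J2 J G H X m c hGg hHk hJ hJ1 hz hz2 hG hd hm
  have h1 := Hs (g + k) (C0 * (g + k + 1)) J2 z0 (PZ z0 J2) le_rfl hz (fun p hp => mem_PZ hp)
    (fun p => OmU G H m (c % m) (2 ^ 2 ^ J) p) (X / m + 1) (fun p hp => by
      obtain ⟨a1, a2, a3⟩ := mem_PZ hp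
      have hlt : ∀ x ∈ G ∪ H, x < p := fun x hx => by have := hG x hx; omega
      constructor
      · have := OmU_card_le (m := m) (c := c % m) (z := 2 ^ 2 ^ J) a1 hlt hd
        rw [hGg, hHk] at this
        exact this
      · intro x hx
        unfold OmU at hx
        by_cases hpm : p ∣ m
        · rw [if_pos hpm] at hx
          exact absurd hx (notMem_empty _)
        · rw [if_neg hpm] at hx
          exact mem_range.1 (mem_filter.1 hx).1)
  have h2 := US_le X m c z0 J2 J G H hm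
  have h3 : ((US X m c z0 J2 J G H).card : ℝ) ≤
    (((range (X / m + 1)).filter (fun t => ∀ p ∈ PZ z0 J2, t % p ∉ OmU G H m (c % m) (2 ^ 2 ^ J) p)).card : ℝ) := by
    exact_mod_cast h2
  refine h3.trans (h1.trans ?_)
  apply add_le_add _ le_rfl
  apply mul_le_mul_of_nonneg_left _ (by norm_num)
  have h4 : ((X / m + 1 : ℕ) : ℝ) ≤ (X : ℝ) / m + 1 := by
    push_cast
    have : ((X / m : ℕ) : ℝ) ≤ (X : ℝ) / m := Nat.cast_div_le
    linarith
  have h5 := prod_OmU z0 J2 J m (c % m) G H hJ hm (by rw [hGg, hHk]; exact hz2) hG hd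
  rw [hGg, hHk] at h5
  have hVm := (Vm_pos 1 z0 J k (by omega)).le
  have hP2 : 0 ≤ ∏ p ∈ PZ z0 J, (1 - (k : ℝ) / p) := by
    apply prod_nonneg
    intro p hp
    have h6 := (mem_PZ hp).2.1
    have h7 : (k : ℝ) ≤ p := by exact_mod_cast (by omega : k ≤ p)
    have h8 : (0 : ℝ) < p := by exact_mod_cast (mem_PZ hp).1.pos
    have : (k : ℝ) / p ≤ 1 := by rw [div_le_one h8]; exact h7
    linarith
  have hrho : 0 ≤ rhoK (2 * (g + k)) m := by
    have := rhoK_ge (2 * ((g : ℝ) + k)) (by positivity) m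
    linarith
  have hnn : 0 ≤ (Real.exp (C + z0) / 2 ^ J2) ^ g * (Real.exp (8 * k) * Vm 1 z0 J k) * rhoK (2 * (g + k)) m := by positivity
  refine mul_le_mul h4 (h5.trans ?_) ?_ (by positivity)
  · apply mul_le_mul_of_nonneg_right _ hrho
    exact mul_le_mul (HV z0 J2 (by omega) (by omega)) (prod_le_Vm k z0 J (by omega)) hP2 (by positivity)
  · apply prod_nonneg
    intro p hp
    obtain ⟨a1, a2, a3⟩ := mem_PZ hp
    have hlt : ∀ x ∈ G ∪ H, x < p := fun x hx => by have := hG x hx; omega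
    have hcard : (OmU G H m (c % m) (2 ^ 2 ^ J) p).card ≤ g + k := by
      have := OmU_card_le (m := m) (c := c % m) (z := 2 ^ 2 ^ J) a1 hlt hd
      rw [hGg, hHk] at this
      exact this
    have h8 : (0 : ℝ) < p := by exact_mod_cast a1.pos
    have h9 : ((OmU G H m (c % m) (2 ^ 2 ^ J) p).card : ℝ) ≤ p := by exact_mod_cast (by omega : (OmU G H m (c % m) (2 ^ 2 ^ J) p).card ≤ p)
    rw [mul_one_div]
    have : ((OmU G H m (c % m) (2 ^ 2 ^ J) p).card : ℝ) / p ≤ 1 := by rw [div_le_one h8]; exact h9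
    linarith

end Pool.Agent.K4H50.QM
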