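import Pool.Agent.K4H50.QM.F5

/-!
# The product of the small primes, the main term and the upper bounds in terms of it
-/

set_option autoImplicit false

namespace Pool.Agent.K4H50.QM

open Finset Filter
open Pool.Agent.H442R2.KF (piN piAP Er)
open Pool.Agent.K4H50.HL (PZ crt_fin)
open Pool.Agent.K4H50.TM (pi_lower log_inf rpow_inf)

/-- the product of the primes up to `z0` -/
def Wz (z0 : ℕ) : ℕ := ∏ p ∈ (Icc 1 z0).filter Nat.Prime, p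

theorem Wz_pos (z0 : ℕ) : 0 < Wz z0 := prod_pos fun p hp => (mem_filter.1 hp).2.pos

theorem Wz_dvd {z0 p : ℕ} (hp : p.Prime) (h : p ≤ z0) : p ∣ Wz z0 :=
  dvd_prod_of_mem (fun p => p) (by rw [mem_filter, mem_Icc]; exact ⟨⟨hp.one_lt.le, h⟩, hp⟩)

theorem Wz_not {z0 p : ℕ} (hp : p.Prime) (h : z0 < p) : ¬ p ∣ Wz z0 := by
  unfold Wz
  rw [hp.prime.dvd_finset_prod_iff]
  rintro ⟨q, hq, hd⟩
  rw [mem_filter, mem_Icc] at hq
  rw [Nat.prime_dvd_prime_iff_eq hp hq.2] at hd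
  omega

theorem Wz_cop {z0 n : ℕ} (h : ∀ l : ℕ, l.Prime → l ≤ z0 → ¬ l ∣ n) : n.Coprime (Wz z0) := by
  unfold Wz
  apply Nat.Coprime.prod_right
  intro p hp
  rw [mem_filter, mem_Icc] at hp
  exact ((Nat.Prime.coprime_iff_not_dvd hp.2).2 (h p hp.2 hp.1.2)).symm

theorem ex_w0 (H : Finset ℕ) (adm : ∀ l : ℕ, l.Prime → ∃ w : ℕ, ¬ l ∣ w ∧ ∀ h ∈ H, ¬ l ∣ w + h) (z0 : ℕ) :
    ∃ w0 : ℕ, w0.Coprime (Wz z0) ∧ ∀ h ∈ H, (w0 + h).Coprime (Wz z0) := by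
  choose! w hw using adm
  obtain ⟨ρ, hρ⟩ := crt_fin ((Icc 1 z0).filter Nat.Prime) (fun p hp => (mem_filter.1 hp).2) w
  have key : ∀ l : ℕ, l.Prime → l ≤ z0 → ρ ≡ w l [MOD l] := fun l hl hlz =>
    hρ l (by rw [mem_filter, mem_Icc]; exact ⟨⟨hl.one_lt.le, hlz⟩, hl⟩)
  refine ⟨ρ, Wz_cop fun l hl hlz hd => ?_, fun h hh => Wz_cop fun l hl hlz hd => ?_⟩
  · exact (hw l hl).1 (((key l hl hlz).dvd_iff (dvd_refl l)).1 hd)
  · exact (hw l hl).2 h hh ((((key l hl hlz).add_right h).dvd_iff (dvd_refl l)).1 hd)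

theorem logpow_small (n : ℕ) (s : ℝ) (hs : 0 < s) (K : ℝ) : ∀ᶠ X : ℕ in atTop, K * Real.log X ^ n ≤ (X : ℝ) ^ s := by
  have h2 := (isLittleO_log_rpow_rpow_atTop (s := s) (n : ℝ) hs).bound
    (show (0 : ℝ) < 1 / (|K| + 1) by positivity)
  have h3 := tendsto_natCast_atTop_atTop.eventually (h2.and (eventually_ge_atTop (1 : ℝ)))
  filter_upwards [h3] with X hX3
  obtain ⟨h4, h5⟩ := hX3
  have h6 : 0 ≤ Real.log (X : ℝ) := Real.log_nonneg h5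
  rw [Real.norm_of_nonneg (by positivity), Real.norm_of_nonneg (by positivity), Real.rpow_natCast] at h4
  have h7 : 0 < |K| + 1 := by positivity
  have h8 : K ≤ |K| + 1 := by have := le_abs_self K; linarith
  calc K * Real.log X ^ n ≤ (|K| + 1) * Real.log X ^ n := mul_le_mul_of_nonneg_right h8 (by positivity)
    _ ≤ (|K| + 1) * (1 / (|K| + 1) * (X : ℝ) ^ s) := mul_le_mul_of_nonneg_left h4 h7.le
    _ = (X : ℝ) ^ s := by field_simp

/-- the main term -/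
noncomputable def M0 (X z0 J k : ℕ) : ℝ := (piN X : ℝ) / (Nat.totient (Wz z0) : ℝ) * Vm 1 z0 J k

theorem two_pow_le {X J : ℕ} (hJX : 2 ^ 2 ^ J ≤ X) : (2 : ℝ) ^ J ≤ 2 * Real.log X := by
  have h1 : Real.log (((2 ^ 2 ^ J : ℕ)) : ℝ) ≤ Real.log X :=
    Real.log_le_log (by positivity) (by exact_mod_cast hJX)
  push_cast at h1
  rw [Real.log_pow] at h1
  push_cast at h1
  have h2 := Real.log_two_gt_d9
  have h3 : (0 : ℝ) < 2 ^ J := by positivity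
  nlinarith

theorem M0_lower (z0 k : ℕ) (hz : 2 * k + 2 ≤ z0) : ∃ c : ℝ, 0 < c ∧ ∀ᶠ X : ℕ in atTop, ∀ J : ℕ, 1 ≤ J →
    2 ^ 2 ^ J ≤ X → c * (X / Real.log X ^ (k + 1)) ≤ M0 X z0 J k ∧ 0 < M0 X z0 J k ∧
      X * Vm 1 z0 J k ≤ 2 * (Nat.totient (Wz z0) : ℝ) * (M0 X z0 J k * Real.log X) := by
  obtain ⟨C, hC, hV⟩ := Vm_lower
  have hφ : (0 : ℝ) < (Nat.totient (Wz z0) : ℝ) := by exact_mod_cast Nat.totient_pos.2 (Wz_pos z0)
  refine ⟨1 / (2 * (Nat.totient (Wz z0) : ℝ)) * (Real.exp (-(k * C + 4 * k + 16 * k ^ 2)) / 2 ^ k), by positivity, ?_⟩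
  filter_upwards [pi_lower (1 / 2) (by norm_num), log_inf 1, eventually_ge_atTop 3] with X h1 h2 h3
  intro J hJ hJX
  have hX0 : (0 : ℝ) < X := by exact_mod_cast (by omega : 0 < X)
  obtain ⟨L, hL⟩ : ∃ L : ℝ, L = Real.log X := ⟨_, rfl⟩
  rw [← hL] at h1 h2 ⊢
  have hL0 : 0 < L := by linarith
  have h2J := two_pow_le hJX
  rw [← hL] at h2J
  have hV1 := hV k z0 J hJ hz
  have hVp := Vm_pos 1 z0 J k hz
  have hpi : (X : ℝ) / (2 * L) ≤ piN X := by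
    rw [div_le_iff₀ (by positivity)]
    linarith
  have hthird : X * Vm 1 z0 J k ≤ 2 * (Nat.totient (Wz z0) : ℝ) * (M0 X z0 J k * L) := by
    unfold M0
    have e : 2 * (Nat.totient (Wz z0) : ℝ) * ((piN X : ℝ) / (Nat.totient (Wz z0) : ℝ) * Vm 1 z0 J k * L) =
        (2 * ((piN X : ℝ) * L)) * Vm 1 z0 J k := by field_simp
    rw [e]
    apply mul_le_mul_of_nonneg_right _ hVp.le
    linarith
  have hfirst : 1 / (2 * (Nat.totient (Wz z0) : ℝ)) * (Real.exp (-(k * C + 4 * k + 16 * k ^ 2)) / 2 ^ k) *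
      (X / L ^ (k + 1)) ≤ M0 X z0 J k := by
    unfold M0
    have e : 1 / (2 * (Nat.totient (Wz z0) : ℝ)) * (Real.exp (-(k * C + 4 * k + 16 * k ^ 2)) / 2 ^ k) *
      (X / L ^ (k + 1)) = (X / (2 * L)) / (Nat.totient (Wz z0) : ℝ) *
        (Real.exp (-(k * C + 4 * k + 16 * k ^ 2)) / (2 * L) ^ k) := by
      rw [mul_pow, pow_succ L k]; field_simp
    rw [e]
    apply mul_le_mul
    · exact div_le_div_of_nonneg_right hpi hφ.le
    · refine le_trans ?_ hV1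
      apply div_le_div_of_nonneg_left (Real.exp_pos _).le (by positivity)
      exact pow_le_pow_left₀ (by positivity) h2J k
    · positivity
    · positivity
  refine ⟨hfirst, ?_, hthird⟩
  exact lt_of_lt_of_le (by positivity) hfirst

/-- the upper bound in terms of the main term -/
theorem US_num (g k : ℕ) : ∃ C0 : ℕ, 1 ≤ C0 ∧ ∀ z0 : ℕ, C0 * (g + k + 1) ≤ z0 → 2 * (g + k) + 2 ≤ z0 →
    ∀ c2 s : ℝ, 0 < c2 → 0 < s → s ≤ 1 / 6 → ∃ C : ℝ, 0 < C ∧ ∀ᶠ X : ℕ in atTop, ∀ (J2 J : ℕ) (G H : Finset ℕ) (m c : ℕ),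
    G.card = g → H.card = k → J ≤ J2 → 1 ≤ J → (∀ x ∈ G ∪ H, x ≤ z0) → Disjoint G H → 1 ≤ m →
    (m : ℝ) ≤ (X : ℝ) ^ (1 - 6 * s) → c2 * Real.log X ≤ (2 : ℝ) ^ J2 → (J2 : ℝ) + 2 ≤ Real.log X →
    (((2 ^ 2 ^ J2) ^ (C0 * (C0 * (g + k + 1))) : ℕ) : ℝ) ≤ (X : ℝ) ^ s → ((2 ^ 2 ^ J2 : ℕ) : ℝ) ≤ (X : ℝ) ^ s →
    ((US X m c z0 J2 J G H).card : ℝ) + 3 * (((2 ^ 2 ^ J2 : ℕ) : ℝ) + 1) ≤
      C * (rhoK (2 * (g + k)) m * (M0 X z0 J k * Real.log X / (m * Real.log X ^ g))) := by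
  obtain ⟨C0, hC0, C, hC, hU⟩ := lemU g k
  refine ⟨C0, hC0, ?_⟩
  intro z0 hz hz2 c2 s hc2 hs hs6
  obtain ⟨c, hc, hM⟩ := M0_lower z0 k (by omega)
  have hφ : (0 : ℝ) < (Nat.totient (Wz z0) : ℝ) := by exact_mod_cast Nat.totient_pos.2 (Wz_pos z0)
  obtain ⟨Q, hQ⟩ : ∃ Q : ℝ, Q = 8 * (Nat.totient (Wz z0) : ℝ) * ((Real.exp (C + z0) / c2) ^ g * Real.exp (8 * k)) := ⟨_, rfl⟩
  have hQ0 : 0 < Q := by rw [hQ]; positivity
  refine ⟨Q + 1, by positivity, ?_⟩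
  filter_upwards [hM, log_inf 1, eventually_ge_atTop 3, logpow_small 1 s hs 1, rpow_inf s hs 1,
    logpow_small (k + g) s hs (7 / c)] with X e1 e2 e3 e4 e5 e6
  intro J2 J G H m cc hG hH hJ hJ1 hle hd hm hmX hcJ hJ2 hE hE2
  have hX3 : (3 : ℝ) ≤ X := by exact_mod_cast e3
  have hX0 : (0 : ℝ) < X := by linarith
  have hX1 : (1 : ℝ) ≤ X := by linarith
  have hm0 : (0 : ℝ) < m := by exact_mod_cast hm
  have hJX2 : 2 ^ 2 ^ J2 ≤ X := by
    have : ((2 ^ 2 ^ J2 : ℕ) : ℝ) ≤ X := by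
      calc ((2 ^ 2 ^ J2 : ℕ) : ℝ) ≤ (X : ℝ) ^ s := hE2
        _ ≤ (X : ℝ) ^ (1 : ℝ) := Real.rpow_le_rpow_of_exponent_le hX1 (by linarith)
        _ = X := Real.rpow_one _
    exact_mod_cast this
  have hJX : 2 ^ 2 ^ J ≤ X :=
    (Nat.pow_le_pow_right (by norm_num) (Nat.pow_le_pow_right (by norm_num) hJ)).trans hJX2
  obtain ⟨m1, m2, m3⟩ := e1 J hJ1 hJX
  have hmain := hU z0 J2 J G H X m cc hG hH hJ hJ1 hz hz2 hle hd hm
  obtain ⟨L, hL⟩ : ∃ L : ℝ, L = Real.log X := ⟨_, rfl⟩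
  obtain ⟨M, hMd⟩ : ∃ M : ℝ, M = M0 X z0 J k := ⟨_, rfl⟩
  obtain ⟨V, hVd⟩ : ∃ V : ℝ, V = Vm 1 z0 J k := ⟨_, rfl⟩
  obtain ⟨ρ, hρd⟩ : ∃ ρ : ℝ, ρ = rhoK (2 * (g + k)) m := ⟨_, rfl⟩
  have hV0 : 0 < V := by rw [hVd]; exact Vm_pos 1 z0 J k (by omega)
  have hρ1 : 1 ≤ ρ := by rw [hρd]; exact rhoK_ge _ (by positivity) m
  rw [← hL] at m1 m3 e2 e4 e6 hcJ hJ2 ⊢
  rw [← hMd] at m1 m2 m3 ⊢
  rw [← hVd] at m3 hmain
  rw [← hρd] at hmain ⊢
  have hL0 : 0 < L := by linarith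
  obtain ⟨Z, hZ⟩ : ∃ Z : ℝ, Z = (((2 ^ 2 ^ J2) ^ (C0 * (C0 * (g + k + 1))) : ℕ) : ℝ) := ⟨_, rfl⟩
  rw [← hZ] at hE hmain
  have hZ0 : 0 ≤ Z := by rw [hZ]; exact Nat.cast_nonneg _
  -- the main part
  have hmX1 : (m : ℝ) ≤ X := by
    calc (m : ℝ) ≤ (X : ℝ) ^ (1 - 6 * s) := hmX
      _ ≤ (X : ℝ) ^ (1 : ℝ) := Real.rpow_le_rpow_of_exponent_le hX1 (by linarith)
      _ = X := Real.rpow_one _
  have p1 : 2 * (((X : ℝ) / m + 1) * ((Real.exp (C + z0) / 2 ^ J2) ^ g * (Real.exp (8 * k) * V) * ρ)) ≤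
      Q * (ρ * (M * L / (m * L ^ g))) := by
    have q1 : (X : ℝ) / m + 1 ≤ 2 * X / m := by
      have : 1 ≤ (X : ℝ) / m := by rw [le_div_iff₀ hm0]; linarith
      have e : 2 * (X : ℝ) / m = X / m + X / m := by ring
      rw [e]; linarith
    have q2 : (Real.exp (C + z0) / 2 ^ J2) ^ g ≤ (Real.exp (C + z0) / c2) ^ g / L ^ g := by
      rw [← div_pow]
      apply pow_le_pow_left₀ (by positivity)
      rw [div_div]
      exact div_le_div_of_nonneg_left (Real.exp_pos _).le (by positivity) hcJ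
    calc 2 * (((X : ℝ) / m + 1) * ((Real.exp (C + z0) / 2 ^ J2) ^ g * (Real.exp (8 * k) * V) * ρ)) ≤
          2 * ((2 * X / m) * (((Real.exp (C + z0) / c2) ^ g / L ^ g) * (Real.exp (8 * k) * V) * ρ)) := by
          apply mul_le_mul_of_nonneg_left _ (by norm_num)
          apply mul_le_mul q1 _ (by positivity) (by positivity)
          apply mul_le_mul_of_nonneg_right _ (by linarith)
          exact mul_le_mul_of_nonneg_right q2 (by positivity)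
      _ = 4 * ((Real.exp (C + z0) / c2) ^ g * Real.exp (8 * k)) * ρ / (m * L ^ g) * (X * V) := by
          field_simp; ring
      _ ≤ 4 * ((Real.exp (C + z0) / c2) ^ g * Real.exp (8 * k)) * ρ / (m * L ^ g) *
          (2 * (Nat.totient (Wz z0) : ℝ) * (M * L)) := by
          apply mul_le_mul_of_nonneg_left m3
          positivity
      _ = _ := by rw [hQ]; ring
  -- the errors
  have p2 : ((J2 : ℝ) + 2) * Z ^ 3 + 3 * (((2 ^ 2 ^ J2 : ℕ) : ℝ) + 1) ≤ ρ * (M * L / (m * L ^ g)) := by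
    have q1 : ((J2 : ℝ) + 2) * Z ^ 3 ≤ (X : ℝ) ^ (4 * s) := by
      have q0 : Z ^ 3 ≤ (X : ℝ) ^ (3 * s) := by
        calc Z ^ 3 ≤ ((X : ℝ) ^ s) ^ 3 := pow_le_pow_left₀ hZ0 hE 3
          _ = (X : ℝ) ^ (3 * s) := by
            rw [← Real.rpow_natCast, ← Real.rpow_mul hX0.le]; congr 1; push_cast; ring
      have q2 : (J2 : ℝ) + 2 ≤ (X : ℝ) ^ s := by
        rw [one_mul, pow_one] at e4
        linarith
      calc ((J2 : ℝ) + 2) * Z ^ 3 ≤ (X : ℝ) ^ s * (X : ℝ) ^ (3 * s) := mul_le_mul q2 q0 (by positivity) (by positivity)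
        _ = _ := by rw [← Real.rpow_add hX0]; congr 1; ring
    have q3 : 3 * (((2 ^ 2 ^ J2 : ℕ) : ℝ) + 1) ≤ 6 * (X : ℝ) ^ (4 * s) := by
      have q4 : (X : ℝ) ^ s ≤ (X : ℝ) ^ (4 * s) := Real.rpow_le_rpow_of_exponent_le hX1 (by linarith)
      linarith
    have q5 : 7 * (X : ℝ) ^ (4 * s) ≤ M * L / (m * L ^ g) := by
      have q6 : c * ((X : ℝ) ^ (6 * s) / L ^ (k + g)) ≤ M * L / (m * L ^ g) := by
        calc c * ((X : ℝ) ^ (6 * s) / L ^ (k + g)) = c * (X / L ^ (k + 1)) * L / ((X : ℝ) ^ (1 - 6 * s) * L ^ g) := by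
              rw [Real.rpow_sub hX0, Real.rpow_one, pow_succ, pow_add]
              field_simp
          _ ≤ M * L / (m * L ^ g) := by
              apply div_le_div₀ (by positivity) _ (by positivity) _
              · exact mul_le_mul_of_nonneg_right m1 hL0.le
              · exact mul_le_mul_of_nonneg_right hmX (by positivity)
      refine le_trans ?_ q6
      have q7 : L ^ (k + g) * 7 ≤ c * (X : ℝ) ^ s := by
        have : 7 / c * L ^ (k + g) = (L ^ (k + g) * 7) / c := by ring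
        rw [this, div_le_iff₀ hc] at e6
        linarith
      have q8 : (X : ℝ) ^ s ≤ (X : ℝ) ^ (2 * s) := Real.rpow_le_rpow_of_exponent_le hX1 (by linarith)
      rw [← mul_div_assoc, le_div_iff₀ (by positivity)]
      calc 7 * (X : ℝ) ^ (4 * s) * L ^ (k + g) = (X : ℝ) ^ (4 * s) * (L ^ (k + g) * 7) := by ring
        _ ≤ (X : ℝ) ^ (4 * s) * (c * (X : ℝ) ^ (2 * s)) := by
            apply mul_le_mul_of_nonneg_left _ (by positivity)
            exact q7.trans (mul_le_mul_of_nonneg_left q8 hc.le)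
        _ = c * (X : ℝ) ^ (6 * s) := by
            rw [mul_left_comm, ← Real.rpow_add hX0]; congr 2; ring
    have q9 : M * L / (m * L ^ g) ≤ ρ * (M * L / (m * L ^ g)) := le_mul_of_one_le_left (by positivity) hρ1
    linarith
  calc _ ≤ Q * (ρ * (M * L / (m * L ^ g))) + ρ * (M * L / (m * L ^ g)) := by linarith
    _ = _ := by ring

end Pool.Agent.K4H50.QM
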