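import Pool.Agent.K4H50.QM.F6

/-!
# The upper bounds for the sifted primes with a divisor of `p + h`, and with two multipliers
-/

set_option autoImplicit false

namespace Pool.Agent.K4H50.QM

open Finset Filter
open Pool.Agent.H442R2.KF (piN piAP Er)
open Pool.Agent.K4H50.HL (PZ crt_fin)
open Pool.Agent.K4H50.TM (pi_lower log_inf rpow_inf modEq_iff Np mem_Np Np_small)

theorem mem_Sf {X M c z0 J p : ℕ} {H : Finset ℕ} : p ∈ Sf X M c z0 J H ↔ (1 ≤ p ∧ p ≤ X) ∧ p.Prime ∧ p ≡ c [MOD M] ∧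
    ∀ l ∈ PZ z0 J, ¬ l ∣ M → ∀ h ∈ H, ¬ l ∣ p + h := by
  unfold Sf
  rw [mem_filter, mem_Icc]

theorem cntU_sub (X w0 z0 J2 J h d : ℕ) (H : Finset ℕ) (hd : 1 ≤ d) :
    ((Sf X (Wz z0) w0 z0 J H).filter (fun p => d ∣ p + h)).card ≤
      (US X d ((d - 1) * h) z0 J2 J {0} H).card + 2 ^ 2 ^ J2 := by
  have hsub : (Sf X (Wz z0) w0 z0 J H).filter (fun p => d ∣ p + h) ⊆
      US X d ((d - 1) * h) z0 J2 J {0} H ∪ Icc 1 (2 ^ 2 ^ J2) := by
    intro p hp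
    rw [mem_filter, mem_Sf] at hp
    obtain ⟨⟨⟨a1, a2⟩, a3, a4, a5⟩, a6⟩ := hp
    rw [mem_union]
    by_cases hz : p ≤ 2 ^ 2 ^ J2
    · right; rw [mem_Icc]; exact ⟨a1, hz⟩
    · left
      unfold US
      rw [mem_filter, mem_Icc]
      refine ⟨⟨a1, a2⟩, (modEq_iff h d p hd).2 a6, ?_, ?_⟩
      · intro l hl _ g hg
        rw [mem_singleton] at hg
        subst hg
        obtain ⟨b1, b2, b3⟩ := mem_PZ hl
        rw [add_zero]
        intro hdv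
        rw [Nat.prime_dvd_prime_iff_eq b1 a3] at hdv
        omega
      · intro l hl _ h' hh'
        exact a5 l hl (Wz_not (mem_PZ hl).1 (mem_PZ hl).2.1) h' hh'
  refine (card_le_card hsub).trans ((card_union_le _ _).trans ?_)
  simp

/-- the sifted primes with two multipliers -/
def Nq (h1 h2 X a b : ℕ) (S : Finset ℕ) : Finset ℕ := (Np h1 h2 X a b).filter (fun p => p ∈ S)

theorem Nq_sub (h1 h2 X w0 z0 J2 J a b : ℕ) (H : Finset ℕ) (ha : 1 ≤ a) (hb : 1 ≤ b) :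
    ∃ c : ℕ, (Nq h1 h2 X a b (Sf X (Wz z0) w0 z0 J H)).card ≤
      (US X (a.lcm b) c z0 J2 J {0, h1, h2} H).card + 3 * (2 ^ 2 ^ J2 + 1) := by
  rcases (Nq h1 h2 X a b (Sf X (Wz z0) w0 z0 J H)).eq_empty_or_nonempty with he | ⟨p0, hp0⟩
  · refine ⟨0, ?_⟩
    rw [he, card_empty]; omega
  refine ⟨p0, ?_⟩
  unfold Nq at hp0
  rw [mem_filter, mem_Np] at hp0
  obtain ⟨⟨_, _, u1, u2, _, _⟩, _⟩ := hp0
  obtain ⟨z, hz⟩ : ∃ z, z = 2 ^ 2 ^ J2 := ⟨_, rfl⟩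
  have hq : ∀ p ∈ Np h1 h2 X a b, ∀ q ∈ Np h1 h2 X a b, (p + h1) / a = (q + h1) / a → p = q := by
    intro p hp q hq h
    rw [mem_Np] at hp hq
    have e1 := Nat.div_mul_cancel hp.2.2.1
    have e2 := Nat.div_mul_cancel hq.2.2.1
    rw [h] at e1
    omega
  have hq2 : ∀ p ∈ Np h1 h2 X a b, ∀ q ∈ Np h1 h2 X a b, (p + h2) / b = (q + h2) / b → p = q := by
    intro p hp q hq h
    rw [mem_Np] at hp hq
    have e1 := Nat.div_mul_cancel hp.2.2.2.1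
    have e2 := Nat.div_mul_cancel hq.2.2.2.1
    rw [h] at e1
    omega
  have hsub : Nq h1 h2 X a b (Sf X (Wz z0) w0 z0 J H) ⊆
      (US X (a.lcm b) p0 z0 J2 J {0, h1, h2} H ∪ (Np h1 h2 X a b).filter (fun p => p ≤ z)) ∪
      ((Np h1 h2 X a b).filter (fun p => (p + h1) / a ≤ z) ∪ (Np h1 h2 X a b).filter (fun p => (p + h2) / b ≤ z)) := by
    intro p hp
    unfold Nq at hp
    rw [mem_filter] at hp
    obtain ⟨hpN, hpS⟩ := hp
    rw [mem_union, mem_union, mem_union, mem_filter, mem_filter, mem_filter]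
    by_cases c1 : p ≤ z
    · left; right; exact ⟨hpN, c1⟩
    by_cases c2 : (p + h1) / a ≤ z
    · right; left; exact ⟨hpN, c2⟩
    by_cases c3 : (p + h2) / b ≤ z
    · right; right; exact ⟨hpN, c3⟩
    left; left
    rw [mem_Np] at hpN
    rw [mem_Sf] at hpS
    obtain ⟨v0, v1, v2, v3, v4, v5⟩ := hpN
    unfold US
    rw [mem_filter, mem_Icc]
    refine ⟨v0, ?_, ?_, ?_⟩
    · have w1 : p ≡ p0 [MOD a] := ((modEq_iff h1 a p ha).2 v2).trans ((modEq_iff h1 a p0 ha).2 u1).symm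
      have w2 : p ≡ p0 [MOD b] := ((modEq_iff h2 b p hb).2 v3).trans ((modEq_iff h2 b p0 hb).2 u2).symm
      have w3 := (Int.modEq_and_modEq_iff_modEq_lcm (a := (p : ℤ)) (b := (p0 : ℤ)) (m := (a : ℤ)) (n := (b : ℤ))).1
        ⟨Int.natCast_modEq_iff.2 w1, Int.natCast_modEq_iff.2 w2⟩
      exact Int.natCast_modEq_iff.1 w3
    · intro l hl hlm g hg hd
      obtain ⟨b1, b2, b3⟩ := mem_PZ hl
      rw [← hz] at b3
      have hla : ¬ l ∣ a := fun h => hlm (h.trans (Nat.dvd_lcm_left a b))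
      have hlb : ¬ l ∣ b := fun h => hlm (h.trans (Nat.dvd_lcm_right a b))
      rw [mem_insert, mem_insert, mem_singleton] at hg
      rcases hg with rfl | rfl | rfl
      · rw [add_zero, Nat.prime_dvd_prime_iff_eq b1 v1] at hd
        omega
      · have e1 := Nat.div_mul_cancel v2
        rw [← e1, b1.dvd_mul] at hd
        rcases hd with hd | hd
        · rw [Nat.prime_dvd_prime_iff_eq b1 v4] at hd
          omega
        · exact hla hd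
      · have e1 := Nat.div_mul_cancel v3
        rw [← e1, b1.dvd_mul] at hd
        rcases hd with hd | hd
        · rw [Nat.prime_dvd_prime_iff_eq b1 v5] at hd
          omega
        · exact hlb hd
    · intro l hl _ h' hh'
      exact hpS.2.2.2 l hl (Wz_not (mem_PZ hl).1 (mem_PZ hl).2.1) h' hh'
  have n1 := Np_small h1 h2 X a b z (fun p => p) (fun p _ q _ h => h)
  have n2 := Np_small h1 h2 X a b z (fun p => (p + h1) / a) hq
  have n3 := Np_small h1 h2 X a b z (fun p => (p + h2) / b) hq2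
  have n4 := card_union_le (US X (a.lcm b) p0 z0 J2 J {0, h1, h2} H ∪ (Np h1 h2 X a b).filter (fun p => p ≤ z))
    ((Np h1 h2 X a b).filter (fun p => (p + h1) / a ≤ z) ∪ (Np h1 h2 X a b).filter (fun p => (p + h2) / b ≤ z))
  have n5 := card_union_le (US X (a.lcm b) p0 z0 J2 J {0, h1, h2} H) ((Np h1 h2 X a b).filter (fun p => p ≤ z))
  have n6 := card_union_le ((Np h1 h2 X a b).filter (fun p => (p + h1) / a ≤ z)) ((Np h1 h2 X a b).filter (fun p => (p + h2) / b ≤ z))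
  have n7 := card_le_card hsub
  rw [← hz]
  omega

theorem rhoK_pp (K : ℝ) (hK : 0 ≤ K) {d : ℕ} (hd : IsPrimePow d) : rhoK K d ≤ 1 + K := by
  obtain ⟨l, j, hl, hj, rfl⟩ := hd
  unfold rhoK
  rw [Nat.primeFactors_prime_pow hj.ne' hl.nat_prime, prod_singleton]
  have h1 : (1 : ℝ) ≤ l := by exact_mod_cast hl.nat_prime.one_lt.le
  have : K / (l : ℝ) ≤ K := div_le_self hK h1
  linarith

theorem rhoK_lcm (K : ℝ) (hK : 0 ≤ K) {a b : ℕ} (ha : 1 ≤ a) (hb : 1 ≤ b) :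
    rhoK K (a.lcm b) ≤ rhoK K a * rhoK K b := by
  have e : (a.lcm b).primeFactors = a.primeFactors ∪ b.primeFactors := by
    ext l
    rw [mem_union, Nat.mem_primeFactors, Nat.mem_primeFactors, Nat.mem_primeFactors]
    constructor
    · rintro ⟨h1, h2, h3⟩
      have h4 : l ∣ a * b := h2.trans (Nat.lcm_dvd_mul a b)
      rcases (h1.dvd_mul).1 h4 with h | h
      · left; exact ⟨h1, h, by omega⟩
      · right; exact ⟨h1, h, by omega⟩
    · rintro (⟨h1, h2, h3⟩ | ⟨h1, h2, h3⟩)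
      · exact ⟨h1, h2.trans (Nat.dvd_lcm_left a b), Nat.lcm_ne_zero (by omega) (by omega)⟩
      · exact ⟨h1, h2.trans (Nat.dvd_lcm_right a b), Nat.lcm_ne_zero (by omega) (by omega)⟩
  have hge : ∀ s : Finset ℕ, 1 ≤ ∏ l ∈ s, (1 + K / (l : ℝ)) := by
    intro s
    apply prod_induction (fun l : ℕ => 1 + K / (l : ℝ)) (fun x => 1 ≤ x)
    · intro x y hx hy; nlinarith
    · exact le_rfl
    · intro l _
      have : 0 ≤ K / (l : ℝ) := by positivity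
      linarith
  unfold rhoK
  rw [e, ← prod_union_inter]
  exact le_mul_of_one_le_right (by linarith [hge (a.primeFactors ∪ b.primeFactors)]) (hge _)

/-- one divisor -/
theorem cntU (k : ℕ) : ∃ C0 : ℕ, 1 ≤ C0 ∧ ∀ z0 : ℕ, C0 * (k + 2) ≤ z0 → 2 * k + 4 ≤ z0 →
    ∀ c2 s : ℝ, 0 < c2 → 0 < s → s ≤ 1 / 6 → ∃ C : ℝ, 0 < C ∧ ∀ᶠ X : ℕ in atTop, ∀ (J2 J : ℕ) (H : Finset ℕ) (w0 h d : ℕ),
    H.card = k → J ≤ J2 → 1 ≤ J → (∀ x ∈ H, 0 < x ∧ x ≤ z0) → IsPrimePow d →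
    (d : ℝ) ≤ (X : ℝ) ^ (1 - 6 * s) → c2 * Real.log X ≤ (2 : ℝ) ^ J2 → (J2 : ℝ) + 2 ≤ Real.log X →
    (((2 ^ 2 ^ J2) ^ (C0 * (C0 * (k + 2))) : ℕ) : ℝ) ≤ (X : ℝ) ^ s → ((2 ^ 2 ^ J2 : ℕ) : ℝ) ≤ (X : ℝ) ^ s →
    ((((Sf X (Wz z0) w0 z0 J H).filter (fun p => d ∣ p + h)).card : ℕ) : ℝ) ≤ C * (M0 X z0 J k / d) := by
  obtain ⟨C0, hC0, hU⟩ := US_num 1 k
  refine ⟨C0, hC0, ?_⟩
  intro z0 hz hz2 c2 s hc2 hs hs6
  obtain ⟨C, hC, hX⟩ := hU z0 (by rw [show 1 + k + 1 = k + 2 by ring]; exact hz) (by omega) c2 s hc2 hs hs6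
  refine ⟨C * (2 * k + 3), by positivity, ?_⟩
  filter_upwards [hX, log_inf 1] with X e1 e2
  intro J2 J H w0 h d hH hJ hJ1 hle hd hdX hcJ hJ2 hE hE2
  have hd1 : 1 ≤ d := hd.pos
  have hL0 : 0 < Real.log X := by linarith
  have hd0 : (0 : ℝ) < d := by exact_mod_cast hd1
  have h1 := e1 J2 J {0} H d ((d - 1) * h) (card_singleton 0) hH hJ hJ1 (by
      intro x hx
      rw [mem_union, mem_singleton] at hx
      rcases hx with rfl | hx
      · omega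
      · exact (hle x hx).2) (by
      rw [disjoint_singleton_left]
      intro h0
      exact absurd (hle 0 h0).1 (lt_irrefl 0)) hd1 hdX hcJ hJ2
      (by rw [show 1 + k + 1 = k + 2 by ring]; exact hE) hE2
  have h2 : ((((Sf X (Wz z0) w0 z0 J H).filter (fun p => d ∣ p + h)).card : ℕ) : ℝ) ≤
      ((US X d ((d - 1) * h) z0 J2 J {0} H).card : ℝ) + ((2 ^ 2 ^ J2 : ℕ) : ℝ) := by
    exact_mod_cast cntU_sub X w0 z0 J2 J h d H hd1
  have h3 : (0 : ℝ) ≤ ((2 ^ 2 ^ J2 : ℕ) : ℝ) := Nat.cast_nonneg _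
  have h4 : M0 X z0 J k * Real.log X / (d * Real.log X ^ 1) = M0 X z0 J k / d := by
    rw [pow_one]; field_simp
  rw [h4] at h1
  have hM : 0 ≤ M0 X z0 J k := by
    unfold M0
    have := (Vm_pos 1 z0 J k (by omega)).le
    positivity
  have h5 := rhoK_pp (2 * (((1 : ℕ) : ℝ) + k)) (by positivity) hd
  have h6 : C * (rhoK (2 * (((1 : ℕ) : ℝ) + k)) d * (M0 X z0 J k / d)) ≤ C * ((1 + 2 * (((1 : ℕ) : ℝ) + k)) * (M0 X z0 J k / d)) := by
    apply mul_le_mul_of_nonneg_left _ hC.le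
    exact mul_le_mul_of_nonneg_right h5 (by positivity)
  have h7 : C * ((1 + 2 * (((1 : ℕ) : ℝ) + k)) * (M0 X z0 J k / d)) = C * (2 * k + 3) * (M0 X z0 J k / d) := by
    push_cast; ring
  linarith

/-- two multipliers -/
theorem cntab (k : ℕ) : ∃ C0 : ℕ, 1 ≤ C0 ∧ ∀ h1 h2 z0 : ℕ, 0 < h1 → h1 < h2 → h2 ≤ z0 → C0 * (k + 4) ≤ z0 → 2 * k + 8 ≤ z0 →
    ∀ c2 s : ℝ, 0 < c2 → 0 < s → s ≤ 1 / 6 → ∃ C : ℝ, 0 < C ∧ ∀ᶠ X : ℕ in atTop, ∀ (J2 J : ℕ) (H : Finset ℕ) (w0 a b : ℕ),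
    H.card = k → J ≤ J2 → 1 ≤ J → (∀ x ∈ H, 0 < x ∧ x ≤ z0 ∧ x ≠ h1 ∧ x ≠ h2) → 1 ≤ a → 1 ≤ b →
    ((a * b : ℕ) : ℝ) ≤ (X : ℝ) ^ (1 - 6 * s) → c2 * Real.log X ≤ (2 : ℝ) ^ J2 → (J2 : ℝ) + 2 ≤ Real.log X →
    (((2 ^ 2 ^ J2) ^ (C0 * (C0 * (k + 4))) : ℕ) : ℝ) ≤ (X : ℝ) ^ s → ((2 ^ 2 ^ J2 : ℕ) : ℝ) ≤ (X : ℝ) ^ s →
    ((Nq h1 h2 X a b (Sf X (Wz z0) w0 z0 J H)).card : ℝ) ≤
      C * (rhoK (2 * k + 6) a * rhoK (2 * k + 6) b) * (M0 X z0 J k / (((a : ℝ) * b) * Real.log X ^ 2)) := by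
  obtain ⟨C0, hC0, hU⟩ := US_num 3 k
  refine ⟨C0, hC0, ?_⟩
  intro h1 h2 z0 h0 h hh2 hz hz2 c2 s hc2 hs hs6
  obtain ⟨C, hC, hX⟩ := hU z0 (by rw [show 3 + k + 1 = k + 4 by ring]; exact hz) (by omega) c2 s hc2 hs hs6
  refine ⟨C * h2, mul_pos hC (by exact_mod_cast (by omega : 0 < h2)), ?_⟩
  filter_upwards [hX, log_inf 1] with X e1 e2
  intro J2 J H w0 a b hH hJ hJ1 hle ha hb habX hcJ hJ2 hE hE2
  have hL0 : 0 < Real.log X := by linarith
  have ha0 : (0 : ℝ) < a := by exact_mod_cast ha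
  have hb0 : (0 : ℝ) < b := by exact_mod_cast hb
  have hM : 0 ≤ M0 X z0 J k := by
    unfold M0
    have := (Vm_pos 1 z0 J k (by omega)).le
    positivity
  have hK : (0 : ℝ) ≤ 2 * k + 6 := by positivity
  have hr0 : 0 ≤ rhoK (2 * k + 6) a * rhoK (2 * k + 6) b :=
    mul_nonneg (by linarith [rhoK_ge (2 * (k : ℝ) + 6) hK a]) (by linarith [rhoK_ge (2 * (k : ℝ) + 6) hK b])
  have hh20 : (0 : ℝ) < h2 := by exact_mod_cast (by omega : 0 < h2)
  rcases (Nq h1 h2 X a b (Sf X (Wz z0) w0 z0 J H)).eq_empty_or_nonempty with he | ⟨p0, hp0⟩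
  · rw [he, card_empty]
    push_cast
    positivity
  unfold Nq at hp0
  rw [mem_filter, mem_Np] at hp0
  obtain ⟨⟨_, _, u1, u2, _, _⟩, _⟩ := hp0
  have hgcd : a.gcd b ∣ h2 - h1 := by
    have g1 : a.gcd b ∣ p0 + h1 := (Nat.gcd_dvd_left a b).trans u1
    have g2 : a.gcd b ∣ p0 + h2 := (Nat.gcd_dvd_right a b).trans u2
    have g3 := Nat.dvd_sub g2 g1
    have : p0 + h2 - (p0 + h1) = h2 - h1 := by omega
    rwa [this] at g3
  have hgle : a.gcd b ≤ h2 := (Nat.le_of_dvd (by omega) hgcd).trans (by omega)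
  have hlcm : (a * b : ℕ) ≤ h2 * a.lcm b := by
    rw [← Nat.gcd_mul_lcm a b]
    exact Nat.mul_le_mul_right _ hgle
  have hlcm1 : 1 ≤ a.lcm b := Nat.lcm_pos ha hb
  have hlcmle : a.lcm b ≤ a * b := Nat.le_of_dvd (Nat.mul_pos ha hb) (Nat.lcm_dvd_mul a b)
  have hlcm0 : (0 : ℝ) < (a.lcm b : ℕ) := by exact_mod_cast hlcm1
  obtain ⟨c, hc⟩ := Nq_sub h1 h2 X w0 z0 J2 J a b H ha hb
  have hcard3 : ({0, h1, h2} : Finset ℕ).card = 3 := by
    rw [card_insert_of_notMem, card_insert_of_notMem, card_singleton]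
    · rw [mem_singleton]; omega
    · rw [mem_insert, mem_singleton]; omega
  have hd1 : Disjoint ({0, h1, h2} : Finset ℕ) H := by
    rw [disjoint_left]
    intro x hx hxH
    have := hle x hxH
    rw [mem_insert, mem_insert, mem_singleton] at hx
    omega
  have h1' := e1 J2 J {0, h1, h2} H (a.lcm b) c hcard3 hH hJ hJ1 (by
      intro x hx
      rw [mem_union, mem_insert, mem_insert, mem_singleton] at hx
      rcases hx with (rfl | rfl | rfl) | hx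
      · omega
      · omega
      · omega
      · exact (hle x hx).2.1) hd1 hlcm1 (le_trans (by exact_mod_cast hlcmle) habX) hcJ hJ2
      (by rw [show 3 + k + 1 = k + 4 by ring]; exact hE) hE2
  have h2' : ((Nq h1 h2 X a b (Sf X (Wz z0) w0 z0 J H)).card : ℝ) ≤
      ((US X (a.lcm b) c z0 J2 J {0, h1, h2} H).card : ℝ) + 3 * (((2 ^ 2 ^ J2 : ℕ) : ℝ) + 1) := by
    exact_mod_cast hc
  refine (h2'.trans h1').trans ?_
  have eK : 2 * (((3 : ℕ) : ℝ) + k) = 2 * k + 6 := by push_cast; ring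
  rw [eK]
  have h3 := rhoK_lcm (2 * (k : ℝ) + 6) hK ha hb
  have h4 : M0 X z0 J k * Real.log X / (((a.lcm b : ℕ) : ℝ) * Real.log X ^ 3) ≤
      h2 * (M0 X z0 J k / (((a : ℝ) * b) * Real.log X ^ 2)) := by
    have h5 : 1 / ((a.lcm b : ℕ) : ℝ) ≤ h2 / ((a : ℝ) * b) := by
      rw [div_le_div_iff₀ hlcm0 (by positivity), one_mul]
      exact_mod_cast hlcm
    calc M0 X z0 J k * Real.log X / (((a.lcm b : ℕ) : ℝ) * Real.log X ^ 3) =
          M0 X z0 J k / Real.log X ^ 2 * (1 / ((a.lcm b : ℕ) : ℝ)) := by field_simp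
      _ ≤ M0 X z0 J k / Real.log X ^ 2 * (h2 / ((a : ℝ) * b)) := mul_le_mul_of_nonneg_left h5 (by positivity)
      _ = _ := by field_simp
  calc C * (rhoK (2 * k + 6) (a.lcm b) * (M0 X z0 J k * Real.log X / (((a.lcm b : ℕ) : ℝ) * Real.log X ^ 3))) ≤
        C * ((rhoK (2 * k + 6) a * rhoK (2 * k + 6) b) * (h2 * (M0 X z0 J k / (((a : ℝ) * b) * Real.log X ^ 2)))) := by
        apply mul_le_mul_of_nonneg_left _ hC.le
        exact mul_le_mul h3 h4 (by positivity) hr0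
    _ = _ := by ring

end Pool.Agent.K4H50.QM
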