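import Pool.Agent.K4H50.QM.F7

/-!
# The number of the sifted primes, alone and with small prime divisors of `p + h`
-/

set_option autoImplicit false

namespace Pool.Agent.K4H50.QM

open Finset Filter
open Pool.Agent.H442R2.KF (piN piAP Er)
open Pool.Agent.K4H50.HL (PZ crt_fin)
open Pool.Agent.K4H50.TM (pi_lower log_inf rpow_inf modEq_iff bb bb_cop sum_phi PP mem_PP PP_sum cls cls_spec cls_cop)
open ArithmeticFunction (vonMangoldt)

/-- the fundamental lemma with the constant `C0` -/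
def FLp (C0 : ℕ) : Prop := ∀ (b J z0 : ℕ) (H : Finset ℕ) (X M c : ℕ), C0 * (H.card + 1) ≤ b → C0 * (H.card + 1) ≤ z0 →
    (∀ h ∈ H, 0 < h ∧ h ≤ z0) → 1 ≤ M → c.Coprime M →
    |((Sf X M c z0 J H).card : ℝ) - (piN X : ℝ) / (Nat.totient M : ℝ) * Vm M z0 J H.card| ≤
      (1 / 2 : ℝ) ^ b * ((piN X : ℝ) / (Nat.totient M : ℝ) * Vm M z0 J H.card) +
      ((J : ℝ) + 2) * Es X M z0 J H.card ((2 ^ 2 ^ J) ^ (C0 * b))

/-- the conditions on the sieving limit -/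
def JG (K : ℕ) (δ : ℝ) (X J : ℕ) : Prop := 1 ≤ J ∧ (((2 ^ 2 ^ J) ^ K : ℕ) : ℝ) ≤ (X : ℝ) ^ (δ / 4) ∧ 2 ^ 2 ^ J ≤ X ∧
  (J : ℝ) + 2 ≤ Real.log X

theorem Sf_sub1 {X w0 z0 J m c c' : ℕ} {H : Finset ℕ} (hcop : (Wz z0).Coprime m) (h1 : c ≡ w0 [MOD Wz z0])
    (h2 : c ≡ c' [MOD m]) :
    (Sf X (Wz z0) w0 z0 J H).filter (fun p => p ≡ c' [MOD m]) ⊆ Sf X (Wz z0 * m) c z0 J H := by
  intro p hp
  rw [mem_filter, mem_Sf] at hp
  obtain ⟨⟨a1, a3, a4, a5⟩, a6⟩ := hp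
  rw [mem_Sf]
  refine ⟨a1, a3, ?_, ?_⟩
  · rw [← Nat.modEq_and_modEq_iff_modEq_mul hcop]
    exact ⟨a4.trans h1.symm, a6.trans h2.symm⟩
  · intro l hl hlm
    exact a5 l hl (fun h => hlm (h.trans (dvd_mul_right _ _)))

theorem Sf_sub2 {X w0 z0 J m c c' : ℕ} {H : Finset ℕ} (hcop : (Wz z0).Coprime m) (h1 : c ≡ w0 [MOD Wz z0])
    (h2 : c ≡ c' [MOD m]) (hl : ∀ l ∈ PZ z0 J, l ∣ m → ∀ p : ℕ, p ≡ c' [MOD m] → ∀ h ∈ H, ¬ l ∣ p + h) :
    Sf X (Wz z0 * m) c z0 J H ⊆ (Sf X (Wz z0) w0 z0 J H).filter (fun p => p ≡ c' [MOD m]) := by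
  intro p hp
  rw [mem_Sf] at hp
  obtain ⟨a1, a3, a4, a5⟩ := hp
  rw [← Nat.modEq_and_modEq_iff_modEq_mul hcop] at a4
  have h6 := a4.2.trans h2
  rw [mem_filter, mem_Sf]
  refine ⟨⟨a1, a3, a4.1.trans h1, ?_⟩, h6⟩
  intro l hl' hlW h hh
  by_cases hlm : l ∣ m
  · exact hl l hl' hlm p h6 h hh
  · exact a5 l hl' (fun hd => by
      rcases ((mem_PZ hl').1.dvd_mul).1 hd with h | h
      · exact hlW h
      · exact hlm h) h hh

theorem Vm_W (z0 J k : ℕ) : Vm (Wz z0) z0 J k = Vm 1 z0 J k := by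
  unfold Vm
  congr 1
  apply filter_congr
  intro l hl
  obtain ⟨a1, a2, a3⟩ := mem_PZ hl
  have h1 := Wz_not a1 a2
  have h2 : ¬ l ∣ 1 := by
    intro h
    have := Nat.le_of_dvd one_pos h
    have := a1.one_lt
    omega
  exact ⟨fun _ => h2, fun _ => h1⟩

theorem lev (X : ℕ) (hX : 1 ≤ X) (δ : ℝ) (W m E : ℕ) (hW : (W : ℝ) ≤ (X : ℝ) ^ (δ / 4)) (hm : (m : ℝ) ≤ (X : ℝ) ^ (1 / 2 - δ))
    (hE : (E : ℝ) ≤ (X : ℝ) ^ (δ / 4)) : ((W * m * E : ℕ) : ℝ) ≤ (X : ℝ) ^ (1 / 2 - δ / 2) := by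
  have hX0 : (0 : ℝ) < X := by exact_mod_cast hX
  push_cast
  calc (W : ℝ) * m * E ≤ (X : ℝ) ^ (δ / 4) * (X : ℝ) ^ (1 / 2 - δ) * (X : ℝ) ^ (δ / 4) := by
        apply mul_le_mul _ hE (Nat.cast_nonneg _) (by positivity)
        exact mul_le_mul hW hm (Nat.cast_nonneg _) (by positivity)
    _ = _ := by
        rw [← Real.rpow_add hX0, ← Real.rpow_add hX0]; congr 1; ring

/-- the number of the sifted primes -/
theorem T1 (C0 : ℕ) (hFL : FLp C0) (k z0 b : ℕ) (η δ : ℝ) (hη : 0 < η) (hδ : 0 < δ) (hδ8 : δ ≤ 1 / 8)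
    (hb : C0 * (k + 1) ≤ b) (hz : C0 * (k + 1) ≤ z0) (hz2 : 2 * k + 2 ≤ z0) (hbη : (1 / 2 : ℝ) ^ b ≤ η / 2) :
    ∀ᶠ X : ℕ in atTop, ∀ (J w0 : ℕ) (H : Finset ℕ), H.card = k → (∀ h ∈ H, 0 < h ∧ h ≤ z0) → w0.Coprime (Wz z0) →
      JG (C0 * b) δ X J → |((Sf X (Wz z0) w0 z0 J H).card : ℝ) - M0 X z0 J k| ≤ η * M0 X z0 J k := by
  obtain ⟨C, hC, herr⟩ := errsum (1 / 2 - δ / 2) (by linarith) (by linarith) k (k + 3)
  obtain ⟨c, hc, hM⟩ := M0_lower z0 k hz2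
  filter_upwards [herr, hM, log_inf 1, log_inf (2 * C / (c * η)), rpow_inf (δ / 4) (by linarith) (Wz z0),
    eventually_ge_atTop 3] with X e1 e2 e3 e4 e5 e6
  intro J w0 H hH hle hw0 hJ
  obtain ⟨j1, j2, j3, j4⟩ := hJ
  obtain ⟨m1, m2, m3⟩ := e2 J j1 j3
  have hX3 : (3 : ℝ) ≤ X := by exact_mod_cast e6
  have hX0 : (0 : ℝ) < X := by linarith
  have hX1 : (1 : ℝ) ≤ X := by linarith
  obtain ⟨L, hL⟩ : ∃ L : ℝ, L = Real.log X := ⟨_, rfl⟩
  have h1 := e1 Unit {()} (fun _ => Wz z0) z0 J ((2 ^ 2 ^ J) ^ (C0 * b)) j1 j3 (fun _ _ => Wz_pos z0)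
    (fun _ _ => by
      have := lev X (by omega) δ (Wz z0) 1 ((2 ^ 2 ^ J) ^ (C0 * b)) e5 (by
        push_cast
        exact Real.one_le_rpow hX1 (by linarith)) j2
      rwa [mul_one] at this)
    (fun n _ _ => by
      have h2 : ((({()} : Finset Unit).filter (fun _ => Wz z0 ∣ n)).card : ℝ) ≤ 1 := by
        exact_mod_cast (card_filter_le _ _).trans (by simp)
      have h3 : 1 ≤ Real.log X ^ 2 := one_le_pow₀ e3
      linarith)
    (by
      rw [sum_singleton]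
      have h2 : (1 : ℝ) ≤ (Nat.totient (Wz z0) : ℝ) := by exact_mod_cast Nat.totient_pos.2 (Wz_pos z0)
      have h3 : 1 ≤ Real.log X ^ 2 := one_le_pow₀ e3
      have h4 : 1 / (Nat.totient (Wz z0) : ℝ) ≤ 1 := by rw [div_le_one (by linarith)]; exact h2
      linarith)
  rw [sum_singleton] at h1
  have h2 := hFL b J z0 H X (Wz z0) w0 (by rw [hH]; exact hb) (by rw [hH]; exact hz) hle (Wz_pos z0) hw0
  rw [hH, Vm_W] at h2
  have h3 : (piN X : ℝ) / (Nat.totient (Wz z0) : ℝ) * Vm 1 z0 J k = M0 X z0 J k := rfl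
  rw [h3] at h2
  refine h2.trans ?_
  rw [← hL] at m1 e3 e4 j4 h1
  have hL0 : 0 < L := by linarith
  have h4 : ((J : ℝ) + 2) * Es X (Wz z0) z0 J k ((2 ^ 2 ^ J) ^ (C0 * b)) ≤ η / 2 * M0 X z0 J k := by
    calc ((J : ℝ) + 2) * Es X (Wz z0) z0 J k ((2 ^ 2 ^ J) ^ (C0 * b)) ≤ L * (C * (X / L ^ (k + 3))) := by
          have h5 : 0 ≤ Es X (Wz z0) z0 J k ((2 ^ 2 ^ J) ^ (C0 * b)) := by
            unfold Es
            exact sum_nonneg fun T _ => mul_nonneg (by positivity) (Em_nonneg _ _)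
          exact mul_le_mul j4 h1 h5 hL0.le
      _ = (C / L) * (X / L ^ (k + 1)) := by rw [pow_add, pow_add]; field_simp
      _ ≤ (η / 2 * c) * (X / L ^ (k + 1)) := by
          apply mul_le_mul_of_nonneg_right _ (by positivity)
          rw [div_le_iff₀ (by positivity)] at e4
          rw [div_le_iff₀ hL0]
          nlinarith
      _ = η / 2 * (c * (X / L ^ (k + 1))) := by ring
      _ ≤ η / 2 * M0 X z0 J k := mul_le_mul_of_nonneg_left m1 (by positivity)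
  have h5 : (1 / 2 : ℝ) ^ b * M0 X z0 J k ≤ η / 2 * M0 X z0 J k := mul_le_mul_of_nonneg_right hbη m2.le
  linarith

theorem sum_inv_phi : ∃ C : ℝ, 0 < C ∧ ∀ D : ℕ, 1 ≤ D →
    ∑ q ∈ (Icc 1 D).filter Nat.Prime, 1 / (Nat.totient q : ℝ) ≤ 2 * (Real.log D + C) ∧
    ∑ q ∈ (Icc 1 D).filter Nat.Prime, Real.log q / (Nat.totient q : ℝ) ≤ Real.log D + C := by
  obtain ⟨C, hC, h⟩ := sum_phi
  refine ⟨C, hC, fun D hD => ?_⟩
  have h1 : ∑ q ∈ (Icc 1 D).filter Nat.Prime, Real.log q / (Nat.totient q : ℝ) ≤ Real.log D + C := by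
    refine le_trans ?_ (h D hD)
    calc ∑ q ∈ (Icc 1 D).filter Nat.Prime, Real.log q / (Nat.totient q : ℝ) =
          ∑ q ∈ (Icc 1 D).filter Nat.Prime, vonMangoldt q / (Nat.totient q : ℝ) := by
          apply sum_congr rfl
          intro q hq
          rw [ArithmeticFunction.vonMangoldt_apply_prime (mem_filter.1 hq).2]
      _ ≤ _ := sum_le_sum_of_subset_of_nonneg (filter_subset _ _) fun _ _ _ =>
          div_nonneg ArithmeticFunction.vonMangoldt_nonneg (Nat.cast_nonneg _)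
  refine ⟨?_, h1⟩
  refine le_trans ?_ (mul_le_mul_of_nonneg_left h1 (by norm_num))
  rw [mul_sum]
  apply sum_le_sum
  intro q hq
  have hq2 : (2 : ℝ) ≤ q := by exact_mod_cast (mem_filter.1 hq).2.two_le
  have h2 := Real.log_le_log (by norm_num) hq2
  have h3 := Real.log_two_gt_d9
  have hφ : (0 : ℝ) < (Nat.totient q : ℝ) := by exact_mod_cast Nat.totient_pos.2 (mem_filter.1 hq).2.pos
  rw [← mul_div_assoc]
  apply div_le_div_of_nonneg_right _ hφ.le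
  linarith

/-- the sifted primes with a small prime divisor of `p + h`, summed -/
theorem TA (C0 : ℕ) (hFL : FLp C0) (k z0 b : ℕ) (η δ : ℝ) (hη : 0 < η) (hδ : 0 < δ) (hδ8 : δ ≤ 1 / 8)
    (hb : C0 * (k + 1) ≤ b) (hz : C0 * (k + 1) ≤ z0) (hz2 : 2 * k + 2 ≤ z0)
    (hbη : (1 + (1 / 2 : ℝ) ^ b) * (1 + 2 * k / z0) ≤ 1 + η) :
    ∃ C1 : ℝ, 0 < C1 ∧ ∀ᶠ X : ℕ in atTop, ∀ (J w0 h : ℕ) (H : Finset ℕ), H.card = k → (∀ h ∈ H, 0 < h ∧ h ≤ z0) →
      w0.Coprime (Wz z0) → JG (C0 * b) δ X J → 0 < h → h ≤ z0 →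
      ∑ q ∈ (Ioc z0 ⌊(X : ℝ) ^ (1 / 2 - δ)⌋₊).filter Nat.Prime,
        Real.log q * ((((Sf X (Wz z0) w0 z0 J H).filter (fun p => q ∣ p + h)).card : ℕ) : ℝ) ≤
      (1 + η) * M0 X z0 J k * (Real.log (⌊(X : ℝ) ^ (1 / 2 - δ)⌋₊ : ℕ) + C1) := by
  obtain ⟨C, hC, herr⟩ := errsum (1 / 2 - δ / 2) (by linarith) (by linarith) k (k + 4)
  obtain ⟨c, hc, hM⟩ := M0_lower z0 k hz2
  obtain ⟨C2, hC2, hphi⟩ := sum_inv_phi
  refine ⟨C2 + 1, by positivity, ?_⟩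
  filter_upwards [herr, hM, log_inf 1, log_inf (C / c), rpow_inf (δ / 4) (by linarith) (Wz z0),
    eventually_ge_atTop 3, log_inf (2 * C2)] with X e1 e2 e3 e4 e5 e6 e7
  intro J w0 h H hH hle hw0 hJ hh0 hhz
  obtain ⟨j1, j2, j3, j4⟩ := hJ
  obtain ⟨m1, m2, m3⟩ := e2 J j1 j3
  have hX3 : (3 : ℝ) ≤ X := by exact_mod_cast e6
  have hX0 : (0 : ℝ) < X := by linarith
  have hX1 : (1 : ℝ) ≤ X := by linarith
  obtain ⟨L, hL⟩ : ∃ L : ℝ, L = Real.log X := ⟨_, rfl⟩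
  obtain ⟨D, hD⟩ : ∃ D : ℕ, D = ⌊(X : ℝ) ^ (1 / 2 - δ)⌋₊ := ⟨_, rfl⟩
  rw [← hD]
  have hDle : (D : ℝ) ≤ (X : ℝ) ^ (1 / 2 - δ) := by rw [hD]; exact Nat.floor_le (by positivity)
  have hD1 : 1 ≤ D := by
    rw [hD]; apply Nat.le_floor; push_cast
    exact Real.one_le_rpow hX1 (by linarith)
  have hDX : D ≤ X := by
    have : (D : ℝ) ≤ X := by
      calc (D : ℝ) ≤ (X : ℝ) ^ (1 / 2 - δ) := hDle
        _ ≤ (X : ℝ) ^ (1 : ℝ) := Real.rpow_le_rpow_of_exponent_le hX1 (by linarith)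
        _ = X := Real.rpow_one _
    exact_mod_cast this
  have hlogD : Real.log D ≤ L := by
    rw [hL]; exact Real.log_le_log (by exact_mod_cast hD1) (by exact_mod_cast hDX)
  have hlogD0 : 0 ≤ Real.log D := Real.log_natCast_nonneg D
  obtain ⟨f1, f2⟩ := hphi D hD1
  obtain ⟨P, hP⟩ : ∃ P, P = (Ioc z0 D).filter Nat.Prime := ⟨_, rfl⟩
  rw [← hP]
  have hPm : ∀ q ∈ P, q.Prime ∧ z0 < q ∧ q ≤ D := by
    intro q hq
    rw [hP, mem_filter, mem_Ioc] at hq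
    exact ⟨hq.2, hq.1.1, hq.1.2⟩
  have hPsub : P ⊆ (Icc 1 D).filter Nat.Prime := by
    intro q hq
    obtain ⟨a1, a2, a3⟩ := hPm q hq
    rw [mem_filter, mem_Icc]
    exact ⟨⟨a1.one_lt.le, a3⟩, a1⟩
  have hcop : ∀ q ∈ P, (Wz z0).Coprime q := by
    intro q hq
    obtain ⟨a1, a2, a3⟩ := hPm q hq
    exact ((Nat.Prime.coprime_iff_not_dvd a1).2 (Wz_not a1 a2)).symm
  have hφW : (1 : ℝ) ≤ (Nat.totient (Wz z0) : ℝ) := by exact_mod_cast Nat.totient_pos.2 (Wz_pos z0)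
  have hφq : ∀ q ∈ P, (0 : ℝ) < (Nat.totient q : ℝ) := fun q hq => by exact_mod_cast Nat.totient_pos.2 (hPm q hq).1.pos
  have hφ : ∀ q ∈ P, (Nat.totient (Wz z0 * q) : ℝ) = (Nat.totient (Wz z0) : ℝ) * (Nat.totient q : ℝ) := by
    intro q hq
    rw [Nat.totient_mul (hcop q hq)]; push_cast; ring
  obtain ⟨E, hE⟩ : ∃ E, E = (2 ^ 2 ^ J) ^ (C0 * b) := ⟨_, rfl⟩
  rw [← hE] at j2
  have herr2 := e1 ℕ P (fun q => Wz z0 * q) z0 J E j1 j3
    (fun q hq => Nat.mul_pos (Wz_pos z0) (hPm q hq).1.pos)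
    (fun q hq => lev X (by omega) δ (Wz z0) q E e5 (le_trans (by exact_mod_cast (hPm q hq).2.2) hDle) j2)
    (fun n hn1 hnX => by
      have h2 : (P.filter (fun q => Wz z0 * q ∣ n)) ⊆ n.divisors.filter IsPrimePow := by
        intro q hq
        rw [mem_filter] at hq
        rw [mem_filter, Nat.mem_divisors]
        exact ⟨⟨(dvd_mul_left q (Wz z0)).trans hq.2, by omega⟩, (hPm q hq.1).1.isPrimePow⟩
      have h3 : ((P.filter (fun q => Wz z0 * q ∣ n)).card : ℝ) ≤ ((n.divisors.filter IsPrimePow).card : ℝ) := by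
        exact_mod_cast card_le_card h2
      have h4 := pp_count n hn1
      have h5 : Real.log n ≤ Real.log X := Real.log_le_log (by exact_mod_cast hn1) (by exact_mod_cast hnX)
      nlinarith)
    (by
      calc ∑ q ∈ P, 1 / (Nat.totient (Wz z0 * q) : ℝ) ≤ ∑ q ∈ P, 1 / (Nat.totient q : ℝ) := by
            apply sum_le_sum
            intro q hq
            rw [hφ q hq]
            apply one_div_le_one_div_of_le (hφq q hq)
            have := hφq q hq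
            nlinarith
        _ ≤ ∑ q ∈ (Icc 1 D).filter Nat.Prime, 1 / (Nat.totient q : ℝ) :=
            sum_le_sum_of_subset_of_nonneg hPsub fun _ _ _ => by positivity
        _ ≤ 2 * (Real.log D + C2) := f1
        _ ≤ 5 * Real.log X ^ 2 := by rw [← hL] at e3 e7 ⊢; nlinarith)
  have hEs0 : ∀ q, 0 ≤ Es X (Wz z0 * q) z0 J k E := by
    intro q
    unfold Es
    exact sum_nonneg fun T _ => mul_nonneg (by positivity) (Em_nonneg _ _)
  -- each term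
  have hterm : ∀ q ∈ P, Real.log q * ((((Sf X (Wz z0) w0 z0 J H).filter (fun p => q ∣ p + h)).card : ℕ) : ℝ) ≤
      (1 + η) * M0 X z0 J k * (Real.log q / (Nat.totient q : ℝ)) + L ^ 2 * Es X (Wz z0 * q) z0 J k E := by
    intro q hq
    obtain ⟨a1, a2, a3⟩ := hPm q hq
    have hqh : Nat.Coprime h q := by
      apply Nat.Coprime.symm
      rw [Nat.Prime.coprime_iff_not_dvd a1]
      intro hd
      have := Nat.le_of_dvd hh0 hd
      omega
    have hbb : bb h q = (q - 1) * h := by unfold bb; rw [if_pos hqh]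
    have hbc := bb_cop h q a1.one_lt.le
    obtain ⟨cc, c1, c2⟩ : ∃ cc : ℕ, cc ≡ w0 [MOD Wz z0] ∧ cc ≡ (q - 1) * h [MOD q] :=
      ⟨Nat.chineseRemainder (hcop q hq) w0 ((q - 1) * h), (Nat.chineseRemainder (hcop q hq) w0 ((q - 1) * h)).2.1,
        (Nat.chineseRemainder (hcop q hq) w0 ((q - 1) * h)).2.2⟩
    have hcc : cc.Coprime (Wz z0 * q) := by
      apply Nat.Coprime.mul_right
      · unfold Nat.Coprime; rw [c1.gcd_eq]; exact hw0
      · unfold Nat.Coprime; rw [c2.gcd_eq, ← hbb]; exact hbc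
    have g1 : (((Sf X (Wz z0) w0 z0 J H).filter (fun p => q ∣ p + h)).card : ℝ) ≤ ((Sf X (Wz z0 * q) cc z0 J H).card : ℝ) := by
      have g2 : (Sf X (Wz z0) w0 z0 J H).filter (fun p => q ∣ p + h) =
          (Sf X (Wz z0) w0 z0 J H).filter (fun p => p ≡ (q - 1) * h [MOD q]) := by
        apply filter_congr
        intro p _
        rw [modEq_iff h q p a1.one_lt.le]
      rw [g2]
      exact_mod_cast card_le_card (Sf_sub1 (hcop q hq) c1 c2)
    have g3 := (abs_le.1 (hFL b J z0 H X (Wz z0 * q) cc (by rw [hH]; exact hb) (by rw [hH]; exact hz) hle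
      (Nat.mul_pos (Wz_pos z0) a1.pos) hcc)).2
    rw [hH, ← hE] at g3
    have g4 := Vm_le (Wz z0 * q) q z0 J k hz2 (by
      intro l hl hd
      obtain ⟨b1, b2, b3⟩ := mem_PZ hl
      rcases (b1.dvd_mul).1 hd with hd | hd
      · exact absurd hd (Wz_not b1 b2)
      · exact (Nat.prime_dvd_prime_iff_eq b1 a1).1 hd)
    have hk0 : (0 : ℝ) ≤ k := Nat.cast_nonneg _
    have hz2r : 2 * (k : ℝ) + 2 ≤ z0 := by exact_mod_cast hz2
    have hkz : (k : ℝ) / z0 ≤ 1 / 2 := by rw [div_le_div_iff₀ (by linarith) (by norm_num)]; linarith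
    have hkz0 : 0 ≤ (k : ℝ) / z0 := by positivity
    have hVq := (Vm_pos (Wz z0 * q) z0 J k hz2)
    have g5 : Vm (Wz z0 * q) z0 J k ≤ (1 + 2 * k / z0) * Vm 1 z0 J k := by
      have e : 2 * (k : ℝ) / z0 = 2 * (k / z0) := by ring
      rw [e]
      obtain ⟨x, hx⟩ : ∃ x : ℝ, x = (k : ℝ) / z0 := ⟨_, rfl⟩
      rw [← hx] at g4 hkz hkz0 ⊢
      have g6 : Vm (Wz z0 * q) z0 J k ≤ (1 + 2 * x) * (Vm (Wz z0 * q) z0 J k * (1 - x)) := by
        nlinarith [mul_nonneg hVq.le (mul_nonneg hkz0 (by linarith : 0 ≤ 1 - 2 * x))]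
      refine g6.trans (mul_le_mul_of_nonneg_left g4 (by linarith))
    have g7 : (piN X : ℝ) / (Nat.totient (Wz z0 * q) : ℝ) * Vm (Wz z0 * q) z0 J k ≤
        (1 + 2 * k / z0) * (M0 X z0 J k * (1 / (Nat.totient q : ℝ))) := by
      rw [hφ q hq]
      calc (piN X : ℝ) / ((Nat.totient (Wz z0) : ℝ) * (Nat.totient q : ℝ)) * Vm (Wz z0 * q) z0 J k ≤
            (piN X : ℝ) / ((Nat.totient (Wz z0) : ℝ) * (Nat.totient q : ℝ)) * ((1 + 2 * k / z0) * Vm 1 z0 J k) :=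
            mul_le_mul_of_nonneg_left g5 (by positivity)
        _ = _ := by
            unfold M0
            have := hφq q hq
            field_simp
    have hMq : 0 ≤ M0 X z0 J k * (1 / (Nat.totient q : ℝ)) := by
      have := hφq q hq
      positivity
    have g8 : ((Sf X (Wz z0 * q) cc z0 J H).card : ℝ) ≤ (1 + η) * (M0 X z0 J k * (1 / (Nat.totient q : ℝ))) +
        L * Es X (Wz z0 * q) z0 J k E := by
      have g9 : ((J : ℝ) + 2) * Es X (Wz z0 * q) z0 J k E ≤ L * Es X (Wz z0 * q) z0 J k E := by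
        rw [hL]; exact mul_le_mul_of_nonneg_right j4 (hEs0 q)
      have hbp : (0 : ℝ) ≤ (1 / 2 : ℝ) ^ b := by positivity
      have g10 : (1 + (1 / 2 : ℝ) ^ b) * ((piN X : ℝ) / (Nat.totient (Wz z0 * q) : ℝ) * Vm (Wz z0 * q) z0 J k) ≤
          (1 + η) * (M0 X z0 J k * (1 / (Nat.totient q : ℝ))) := by
        calc (1 + (1 / 2 : ℝ) ^ b) * ((piN X : ℝ) / (Nat.totient (Wz z0 * q) : ℝ) * Vm (Wz z0 * q) z0 J k) ≤
              (1 + (1 / 2 : ℝ) ^ b) * ((1 + 2 * k / z0) * (M0 X z0 J k * (1 / (Nat.totient q : ℝ)))) :=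
              mul_le_mul_of_nonneg_left g7 (by linarith)
          _ = ((1 + (1 / 2 : ℝ) ^ b) * (1 + 2 * k / z0)) * (M0 X z0 J k * (1 / (Nat.totient q : ℝ))) := by ring
          _ ≤ _ := mul_le_mul_of_nonneg_right hbη hMq
      linarith
    have hlogq : Real.log q ≤ L := by
      rw [hL]; exact Real.log_le_log (by exact_mod_cast a1.pos) (by exact_mod_cast a3.trans hDX)
    have hlogq0 : 0 ≤ Real.log (q : ℝ) := Real.log_natCast_nonneg q
    calc Real.log q * ((((Sf X (Wz z0) w0 z0 J H).filter (fun p => q ∣ p + h)).card : ℕ) : ℝ) ≤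
          Real.log q * ((1 + η) * (M0 X z0 J k * (1 / (Nat.totient q : ℝ))) + L * Es X (Wz z0 * q) z0 J k E) :=
          mul_le_mul_of_nonneg_left (g1.trans g8) hlogq0
      _ = (1 + η) * M0 X z0 J k * (Real.log q / (Nat.totient q : ℝ)) + Real.log q * (L * Es X (Wz z0 * q) z0 J k E) := by ring
      _ ≤ _ := by
          apply add_le_add le_rfl
          have h5 : 0 ≤ L * Es X (Wz z0 * q) z0 J k E := mul_nonneg (by rw [hL]; linarith) (hEs0 q)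
          calc Real.log q * (L * Es X (Wz z0 * q) z0 J k E) ≤ L * (L * Es X (Wz z0 * q) z0 J k E) :=
                mul_le_mul_of_nonneg_right hlogq h5
            _ = _ := by ring
  refine (sum_le_sum hterm).trans ?_
  rw [sum_add_distrib, ← mul_sum, ← mul_sum]
  rw [← hL] at herr2 m1 e3 e4
  have hL0 : 0 < L := by linarith
  have s1 : ∑ q ∈ P, Real.log q / (Nat.totient q : ℝ) ≤ Real.log D + C2 := by
    refine le_trans ?_ f2
    exact sum_le_sum_of_subset_of_nonneg hPsub fun _ _ _ => div_nonneg (Real.log_natCast_nonneg _) (Nat.cast_nonneg _)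
  have s2 : L ^ 2 * ∑ q ∈ P, Es X (Wz z0 * q) z0 J k E ≤ M0 X z0 J k := by
    calc L ^ 2 * ∑ q ∈ P, Es X (Wz z0 * q) z0 J k E ≤ L ^ 2 * (C * (X / L ^ (k + 4))) :=
          mul_le_mul_of_nonneg_left herr2 (by positivity)
      _ = (C / L) * (X / L ^ (k + 1)) := by rw [pow_add, pow_add L k 1]; field_simp
      _ ≤ c * (X / L ^ (k + 1)) := by
          apply mul_le_mul_of_nonneg_right _ (by positivity)
          rw [div_le_iff₀ hc] at e4
          rw [div_le_iff₀ hL0]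
          linarith
      _ ≤ _ := m1
  have s3 := mul_le_mul_of_nonneg_left s1 (show 0 ≤ (1 + η) * M0 X z0 J k by positivity)
  have s4 : M0 X z0 J k ≤ (1 + η) * M0 X z0 J k := by nlinarith
  have s5 : (1 + η) * M0 X z0 J k * (Real.log D + (C2 + 1)) = (1 + η) * M0 X z0 J k * (Real.log D + C2) + (1 + η) * M0 X z0 J k := by ring
  rw [s5]
  linarith

end Pool.Agent.K4H50.QM
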