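import Pool.Agent.K4H50.QM.F8

/-!
# The sifted primes with small prime divisors of `p + h1` and of `p + h2`
-/

set_option autoImplicit false

namespace Pool.Agent.K4H50.QM

open Finset Filter
open Pool.Agent.H442R2.KF (piN piAP Er)
open Pool.Agent.K4H50.HL (PZ crt_fin)
open Pool.Agent.K4H50.TM (pi_lower log_inf rpow_inf modEq_iff bb bb_cop sum_phi PP mem_PP PP_sum cls cls_spec cls_cop)
open ArithmeticFunction (vonMangoldt)

theorem not_both {q p h h' z0 : ℕ} (hz : z0 < q) (h1 : h ≤ z0) (h2 : h' ≤ z0) (hne : h ≠ h') (d1 : q ∣ p + h) :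
    ¬ q ∣ p + h' := by
  intro d2
  rcases Nat.lt_or_gt_of_ne hne with hlt | hlt
  · have := Nat.dvd_sub d2 d1
    have e : p + h' - (p + h) = h' - h := by omega
    rw [e] at this
    have := Nat.le_of_dvd (by omega) this
    omega
  · have := Nat.dvd_sub d1 d2
    have e : p + h - (p + h') = h - h' := by omega
    rw [e] at this
    have := Nat.le_of_dvd (by omega) this
    omega

theorem TZ (C0 : ℕ) (hFL : FLp C0) (k z0 b : ℕ) (η δ : ℝ) (hη : 0 < η) (hη2 : η ≤ 1 / 2) (hδ : 0 < δ) (hδ8 : δ ≤ 1 / 8)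
    (hb : C0 * (k + 1) ≤ b) (hz : C0 * (k + 1) ≤ z0) (hz2 : 2 * k + 2 ≤ z0) (hbη : (1 / 2 : ℝ) ^ b ≤ η)
    (h1 h2 : ℕ) (h0 : 0 < h1) (h12 : h1 < h2) (h2z : h2 ≤ z0) :
    ∃ C1 : ℝ, 0 < C1 ∧ ∀ᶠ X : ℕ in atTop, ∀ (J w0 : ℕ) (H : Finset ℕ), H.card = k →
      (∀ h ∈ H, 0 < h ∧ h ≤ z0 ∧ h ≠ h1 ∧ h ≠ h2) → w0.Coprime (Wz z0) → JG (C0 * b) δ X J →
      (1 - η) * M0 X z0 J k * (Real.log (⌊(X : ℝ) ^ (1 / 2 - δ)⌋₊ : ℕ) ^ 2 / 2 -
        C1 * (1 + Real.log (⌊(X : ℝ) ^ (1 / 2 - δ)⌋₊ : ℕ))) ≤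
      ∑ x ∈ PP z0 ⌊(X : ℝ) ^ (1 / 2 - δ)⌋₊, Real.log x.1 * Real.log x.2 *
        ((((Sf X (Wz z0) w0 z0 J H).filter (fun p => x.1 ∣ p + h1 ∧ x.2 ∣ p + h2)).card : ℕ) : ℝ) := by
  obtain ⟨C, hC, herr⟩ := errsum (1 / 2 - δ / 2) (by linarith) (by linarith) k (k + 5)
  obtain ⟨c, hc, hM⟩ := M0_lower z0 k hz2
  obtain ⟨C2, hC2, hphi⟩ := sum_inv_phi
  obtain ⟨C3, hC3, hPP⟩ := PP_sum z0
  refine ⟨C3 + 1, by positivity, ?_⟩
  filter_upwards [herr, hM, log_inf 1, log_inf (2 * C / c), rpow_inf (δ / 4) (by linarith) (Wz z0),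
    eventually_ge_atTop 3, log_inf (10 * C2)] with X e1 e2 e3 e4 e5 e6 e7
  intro J w0 H hH hle hw0 hJ
  obtain ⟨j1, j2, j3, j4⟩ := hJ
  obtain ⟨m1, m2, m3⟩ := e2 J j1 j3
  have hX3 : (3 : ℝ) ≤ X := by exact_mod_cast e6
  have hX0 : (0 : ℝ) < X := by linarith
  have hX1 : (1 : ℝ) ≤ X := by linarith
  obtain ⟨L, hL⟩ : ∃ L : ℝ, L = Real.log X := ⟨_, rfl⟩
  obtain ⟨D, hD⟩ : ∃ D : ℕ, D = ⌊(X : ℝ) ^ (1 / 2 - δ)⌋₊ := ⟨_, rfl⟩
  rw [← hD]
  have hDle : (D : ℝ) ≤ (X : ℝ) ^ (1 / 2 - δ) := by rw [hD]; exact Nat.floor_le (by positivity)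
  have hD1 : 1 ≤ D := by
    rw [hD]; apply Nat.le_floor; push_cast
    exact Real.one_le_rpow hX1 (by linarith)
  have hDX : D ≤ X := by
    have : (D : ℝ) ≤ X := by
      calc (D : ℝ) ≤ (X : ℝ) ^ (1 / 2 - δ) := hDle
        _ ≤ (X : ℝ) ^ (1 : ℝ) := Real.rpow_le_rpow_of_exponent_le hX1 (by linarith)
        _ = X := Real.rpow_one _
    exact_mod_cast this
  have hlogD : Real.log D ≤ L := by
    rw [hL]; exact Real.log_le_log (by exact_mod_cast hD1) (by exact_mod_cast hDX)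
  have hlogD0 : 0 ≤ Real.log D := Real.log_natCast_nonneg D
  obtain ⟨f1, f2⟩ := hphi D hD1
  have hcopW : ∀ q : ℕ, q.Prime → z0 < q → (Wz z0).Coprime q := fun q hq hz =>
    ((Nat.Prime.coprime_iff_not_dvd hq).2 (Wz_not hq hz)).symm
  have hcop : ∀ x ∈ PP z0 D, (Wz z0).Coprime (x.1 * x.2) := by
    intro x hx
    obtain ⟨_, _, _, _, a5, a6, a7, a8, a9, _⟩ := mem_PP hx
    exact Nat.Coprime.mul_right (hcopW _ a5 a7) (hcopW _ a6 a8)
  have hφW : (1 : ℝ) ≤ (Nat.totient (Wz z0) : ℝ) := by exact_mod_cast Nat.totient_pos.2 (Wz_pos z0)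
  have hφ : ∀ x ∈ PP z0 D, (Nat.totient (Wz z0 * (x.1 * x.2)) : ℝ) =
      (Nat.totient (Wz z0) : ℝ) * ((Nat.totient x.1 : ℝ) * (Nat.totient x.2 : ℝ)) := by
    intro x hx
    obtain ⟨_, _, _, _, a5, a6, a7, a8, a9, _⟩ := mem_PP hx
    rw [Nat.totient_mul (hcop x hx), Nat.totient_mul ((Nat.coprime_primes a5 a6).2 a9)]; push_cast; ring
  have hφx : ∀ x ∈ PP z0 D, (1 : ℝ) ≤ (Nat.totient x.1 : ℝ) ∧ (1 : ℝ) ≤ (Nat.totient x.2 : ℝ) := by
    intro x hx
    obtain ⟨_, _, _, _, a5, a6, a7, a8, a9, _⟩ := mem_PP hx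
    exact ⟨by exact_mod_cast Nat.totient_pos.2 a5.pos, by exact_mod_cast Nat.totient_pos.2 a6.pos⟩
  obtain ⟨E, hE⟩ : ∃ E, E = (2 ^ 2 ^ J) ^ (C0 * b) := ⟨_, rfl⟩
  rw [← hE] at j2
  have herr2 := e1 (ℕ × ℕ) (PP z0 D) (fun x => Wz z0 * (x.1 * x.2)) z0 J E j1 j3
    (fun x hx => by
      obtain ⟨a1, _, a3, _⟩ := mem_PP hx
      exact Nat.mul_pos (Wz_pos z0) (Nat.mul_pos a1 a3))
    (fun x hx => by
      obtain ⟨_, _, _, _, _, _, _, _, _, a10⟩ := mem_PP hx
      exact lev X (by omega) δ (Wz z0) (x.1 * x.2) E e5 (le_trans (by exact_mod_cast a10) hDle) j2)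
    (fun n hn1 hnX => by
      have h2 : ((PP z0 D).filter (fun x => Wz z0 * (x.1 * x.2) ∣ n)) ⊆
          (n.divisors.filter IsPrimePow) ×ˢ (n.divisors.filter IsPrimePow) := by
        intro x hx
        rw [mem_filter] at hx
        obtain ⟨_, _, _, _, a5, a6, _⟩ := mem_PP hx.1
        rw [mem_product, mem_filter, mem_filter, Nat.mem_divisors, Nat.mem_divisors]
        have d1 : x.1 * x.2 ∣ n := (dvd_mul_left _ _).trans hx.2
        exact ⟨⟨⟨(dvd_mul_right _ _).trans d1, by omega⟩, a5.isPrimePow⟩,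
          ⟨⟨(dvd_mul_left _ _).trans d1, by omega⟩, a6.isPrimePow⟩⟩
      have h3 : (((PP z0 D).filter (fun x => Wz z0 * (x.1 * x.2) ∣ n)).card : ℝ) ≤
          ((n.divisors.filter IsPrimePow).card : ℝ) * ((n.divisors.filter IsPrimePow).card : ℝ) := by
        have := card_le_card h2
        rw [card_product] at this
        exact_mod_cast this
      have h4 := pp_count n hn1
      have h5 : Real.log n ≤ Real.log X := Real.log_le_log (by exact_mod_cast hn1) (by exact_mod_cast hnX)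
      have h6 : (0 : ℝ) ≤ ((n.divisors.filter IsPrimePow).card : ℝ) := Nat.cast_nonneg _
      have h7 : ((n.divisors.filter IsPrimePow).card : ℝ) ≤ 2 * Real.log X := by linarith
      have h8 : ((n.divisors.filter IsPrimePow).card : ℝ) * ((n.divisors.filter IsPrimePow).card : ℝ) ≤
          (2 * Real.log X) * (2 * Real.log X) := mul_le_mul h7 h7 h6 (by linarith)
      nlinarith)
    (by
      have g1 : ∑ x ∈ PP z0 D, 1 / (Nat.totient (Wz z0 * (x.1 * x.2)) : ℝ) ≤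
          ∑ x ∈ ((Icc 1 D).filter Nat.Prime) ×ˢ ((Icc 1 D).filter Nat.Prime),
            1 / (Nat.totient x.1 : ℝ) * (1 / (Nat.totient x.2 : ℝ)) := by
        calc ∑ x ∈ PP z0 D, 1 / (Nat.totient (Wz z0 * (x.1 * x.2)) : ℝ) ≤
              ∑ x ∈ PP z0 D, 1 / (Nat.totient x.1 : ℝ) * (1 / (Nat.totient x.2 : ℝ)) := by
              apply sum_le_sum
              intro x hx
              obtain ⟨t1, t2⟩ := hφx x hx
              rw [hφ x hx, one_div_mul_one_div]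
              apply one_div_le_one_div_of_le (by positivity)
              have : 0 < (Nat.totient x.1 : ℝ) * (Nat.totient x.2 : ℝ) := by positivity
              nlinarith
          _ ≤ _ := by
              apply sum_le_sum_of_subset_of_nonneg
              · intro x hx
                obtain ⟨a1, a2, a3, a4, a5, a6, _⟩ := mem_PP hx
                rw [mem_product, mem_filter, mem_filter, mem_Icc, mem_Icc]
                exact ⟨⟨⟨a1, a2⟩, a5⟩, ⟨⟨a3, a4⟩, a6⟩⟩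
              · intro x _ _; positivity
      have g2 : ∑ x ∈ ((Icc 1 D).filter Nat.Prime) ×ˢ ((Icc 1 D).filter Nat.Prime),
            1 / (Nat.totient x.1 : ℝ) * (1 / (Nat.totient x.2 : ℝ)) =
          (∑ q ∈ (Icc 1 D).filter Nat.Prime, 1 / (Nat.totient q : ℝ)) *
            (∑ q ∈ (Icc 1 D).filter Nat.Prime, 1 / (Nat.totient q : ℝ)) := by
        rw [sum_product, sum_mul_sum]
      have g3 : 0 ≤ ∑ q ∈ (Icc 1 D).filter Nat.Prime, 1 / (Nat.totient q : ℝ) := sum_nonneg fun _ _ => by positivity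
      rw [← hL] at e3 e7 ⊢
      have g4 : ∑ q ∈ (Icc 1 D).filter Nat.Prime, 1 / (Nat.totient q : ℝ) ≤ 2.2 * L := by linarith
      have g5 := mul_le_mul g4 g4 g3 (by linarith)
      nlinarith)
  have hEs0 : ∀ q, 0 ≤ Es X q z0 J k E := by
    intro q
    unfold Es
    exact sum_nonneg fun T _ => mul_nonneg (by positivity) (Em_nonneg _ _)
  -- each term
  have hterm : ∀ x ∈ PP z0 D, (1 - η) * M0 X z0 J k * (Real.log x.1 / x.1 * (Real.log x.2 / x.2)) -
      L ^ 3 * Es X (Wz z0 * (x.1 * x.2)) z0 J k E ≤ Real.log x.1 * Real.log x.2 *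
        ((((Sf X (Wz z0) w0 z0 J H).filter (fun p => x.1 ∣ p + h1 ∧ x.2 ∣ p + h2)).card : ℕ) : ℝ) := by
    rintro ⟨q, r⟩ hx
    have hcx := hcop _ hx
    have hφxx := hφ _ hx
    obtain ⟨t1, t2⟩ := hφx _ hx
    obtain ⟨a1, a2, a3, a4, a5, a6, a7, a8, a9, a10⟩ := mem_PP hx
    simp only at a1 a2 a3 a4 a5 a6 a7 a8 a9 a10 hcx hφxx t1 t2 ⊢
    have hqr : Nat.Coprime q r := (Nat.coprime_primes a5 a6).2 a9
    obtain ⟨s1, s2⟩ := cls_spec (h1 := h1) (h2 := h2) hqr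
    have hq1 : ¬ q ∣ h1 := fun hd => by have := Nat.le_of_dvd h0 hd; omega
    have hr2 : ¬ r ∣ h2 := fun hd => by have := Nat.le_of_dvd (by omega) hd; omega
    have hcc0 := cls_cop a5 a6 a9 hq1 hr2
    obtain ⟨cc, c1, c2⟩ : ∃ cc : ℕ, cc ≡ w0 [MOD Wz z0] ∧ cc ≡ cls h1 h2 q r [MOD q * r] :=
      ⟨Nat.chineseRemainder hcx w0 (cls h1 h2 q r), (Nat.chineseRemainder hcx w0 (cls h1 h2 q r)).2.1,
        (Nat.chineseRemainder hcx w0 (cls h1 h2 q r)).2.2⟩
    have hcc : cc.Coprime (Wz z0 * (q * r)) := by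
      apply Nat.Coprime.mul_right
      · unfold Nat.Coprime; rw [c1.gcd_eq]; exact hw0
      · unfold Nat.Coprime; rw [c2.gcd_eq]; exact hcc0
    have hiff : ∀ p : ℕ, (q ∣ p + h1 ∧ r ∣ p + h2) ↔ p ≡ cls h1 h2 q r [MOD q * r] := by
      intro p
      rw [← Nat.modEq_and_modEq_iff_modEq_mul hqr, ← modEq_iff h1 q p a1, ← modEq_iff h2 r p a3]
      constructor
      · rintro ⟨u1, u2⟩; exact ⟨u1.trans s1.symm, u2.trans s2.symm⟩
      · rintro ⟨u1, u2⟩; exact ⟨u1.trans s1, u2.trans s2⟩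
    have g1 : ((Sf X (Wz z0 * (q * r)) cc z0 J H).card : ℝ) ≤
        (((Sf X (Wz z0) w0 z0 J H).filter (fun p => q ∣ p + h1 ∧ r ∣ p + h2)).card : ℝ) := by
      have g2 : (Sf X (Wz z0) w0 z0 J H).filter (fun p => q ∣ p + h1 ∧ r ∣ p + h2) =
          (Sf X (Wz z0) w0 z0 J H).filter (fun p => p ≡ cls h1 h2 q r [MOD q * r]) := by
        apply filter_congr
        intro p _
        rw [hiff p]
      rw [g2]
      have g3 := Sf_sub2 (X := X) (J := J) (H := H) hcx c1 c2 (by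
        intro l hl hd p hp h hh
        obtain ⟨b1, b2, b3⟩ := mem_PZ hl
        obtain ⟨v1, v2, v3, v4⟩ := hle h hh
        obtain ⟨u1, u2⟩ := (hiff p).2 hp
        rcases (b1.dvd_mul).1 hd with hd | hd
        · rw [Nat.prime_dvd_prime_iff_eq b1 a5] at hd
          rw [hd]
          exact not_both a7 (by omega) v2 (Ne.symm v3) u1
        · rw [Nat.prime_dvd_prime_iff_eq b1 a6] at hd
          rw [hd]
          exact not_both a8 h2z v2 (Ne.symm v4) u2)
      exact_mod_cast card_le_card g3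
    have g3 := (abs_le.1 (hFL b J z0 H X (Wz z0 * (q * r)) cc (by rw [hH]; exact hb) (by rw [hH]; exact hz)
      (fun h hh => ⟨(hle h hh).1, (hle h hh).2.1⟩) (Nat.mul_pos (Wz_pos z0) (Nat.mul_pos a1 a3)) hcc)).1
    rw [hH, ← hE] at g3
    have g4 := Vm_ge (Wz z0 * (q * r)) z0 J k hz2
    have hV1 := Vm_pos 1 z0 J k hz2
    have hq0 : (0 : ℝ) < q := by exact_mod_cast a1
    have hr0 : (0 : ℝ) < r := by exact_mod_cast a3
    have hφqle : (Nat.totient q : ℝ) ≤ q := by exact_mod_cast Nat.totient_le q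
    have hφrle : (Nat.totient r : ℝ) ≤ r := by exact_mod_cast Nat.totient_le r
    have g5 : M0 X z0 J k / (q * r) ≤ (piN X : ℝ) / (Nat.totient (Wz z0 * (q * r)) : ℝ) * Vm (Wz z0 * (q * r)) z0 J k := by
      rw [hφxx]
      calc M0 X z0 J k / (q * r) ≤ M0 X z0 J k / ((Nat.totient q : ℝ) * (Nat.totient r : ℝ)) := by
            apply div_le_div_of_nonneg_left m2.le (by positivity)
            exact mul_le_mul hφqle hφrle (by positivity) (by positivity)
        _ = (piN X : ℝ) / ((Nat.totient (Wz z0) : ℝ) * ((Nat.totient q : ℝ) * (Nat.totient r : ℝ))) * Vm 1 z0 J k := by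
            unfold M0
            field_simp
        _ ≤ _ := mul_le_mul_of_nonneg_left g4 (by positivity)
    have hbp : (0 : ℝ) ≤ (1 / 2 : ℝ) ^ b := by positivity
    have g6 : (1 - η) * (M0 X z0 J k / (q * r)) - L * Es X (Wz z0 * (q * r)) z0 J k E ≤
        ((Sf X (Wz z0 * (q * r)) cc z0 J H).card : ℝ) := by
      have g9 : ((J : ℝ) + 2) * Es X (Wz z0 * (q * r)) z0 J k E ≤ L * Es X (Wz z0 * (q * r)) z0 J k E := by
        rw [hL]; exact mul_le_mul_of_nonneg_right j4 (hEs0 _)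
      obtain ⟨T, hT⟩ : ∃ T : ℝ, T = (piN X : ℝ) / (Nat.totient (Wz z0 * (q * r)) : ℝ) * Vm (Wz z0 * (q * r)) z0 J k := ⟨_, rfl⟩
      rw [← hT] at g3 g5
      have hM0 : 0 ≤ M0 X z0 J k / ((q : ℝ) * r) := by positivity
      have g10 : (1 - η) * (M0 X z0 J k / (q * r)) ≤ (1 - (1 / 2 : ℝ) ^ b) * T := by
        calc (1 - η) * (M0 X z0 J k / (q * r)) ≤ (1 - η) * T := mul_le_mul_of_nonneg_left g5 (by linarith)
          _ ≤ _ := mul_le_mul_of_nonneg_right (by linarith) (hM0.trans g5)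
      linarith
    have hlogq : Real.log q ≤ L := by
      rw [hL]; exact Real.log_le_log hq0 (by exact_mod_cast a2.trans hDX)
    have hlogr : Real.log r ≤ L := by
      rw [hL]; exact Real.log_le_log hr0 (by exact_mod_cast a4.trans hDX)
    have hlogq0 : 0 ≤ Real.log (q : ℝ) := Real.log_natCast_nonneg q
    have hlogr0 : 0 ≤ Real.log (r : ℝ) := Real.log_natCast_nonneg r
    have hll : 0 ≤ Real.log (q : ℝ) * Real.log r := mul_nonneg hlogq0 hlogr0
    refine le_trans ?_ (mul_le_mul_of_nonneg_left (g6.trans g1) hll)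
    have hE2 := hEs0 (Wz z0 * (q * r))
    have hL0 : 0 ≤ L := by linarith
    have g11 : Real.log q * Real.log r * (L * Es X (Wz z0 * (q * r)) z0 J k E) ≤ L ^ 3 * Es X (Wz z0 * (q * r)) z0 J k E := by
      calc Real.log q * Real.log r * (L * Es X (Wz z0 * (q * r)) z0 J k E) ≤
            (L * L) * (L * Es X (Wz z0 * (q * r)) z0 J k E) := by
            apply mul_le_mul_of_nonneg_right _ (by positivity)
            exact mul_le_mul hlogq hlogr hlogr0 hL0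
        _ = _ := by ring
    have g12 : Real.log q * Real.log r * ((1 - η) * (M0 X z0 J k / (q * r))) =
        (1 - η) * M0 X z0 J k * (Real.log q / q * (Real.log r / r)) := by field_simp
    rw [mul_sub, g12]
    linarith
  refine le_trans ?_ (sum_le_sum hterm)
  rw [sum_sub_distrib, ← mul_sum, ← mul_sum]
  rw [← hL] at herr2 m1 e3 e4
  have hL0 : 0 < L := by linarith
  have s2 : L ^ 3 * ∑ x ∈ PP z0 D, Es X (Wz z0 * (x.1 * x.2)) z0 J k E ≤ (1 - η) * M0 X z0 J k := by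
    calc L ^ 3 * ∑ x ∈ PP z0 D, Es X (Wz z0 * (x.1 * x.2)) z0 J k E ≤ L ^ 3 * (C * (X / L ^ (k + 5))) :=
          mul_le_mul_of_nonneg_left herr2 (by positivity)
      _ = (C / L) * (X / L ^ (k + 1)) := by rw [pow_add, pow_add L k 1]; field_simp
      _ ≤ (c / 2) * (X / L ^ (k + 1)) := by
          apply mul_le_mul_of_nonneg_right _ (by positivity)
          rw [div_le_iff₀ hc] at e4
          rw [div_le_iff₀ hL0]
          linarith
      _ = 1 / 2 * (c * (X / L ^ (k + 1))) := by ring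
      _ ≤ 1 / 2 * M0 X z0 J k := mul_le_mul_of_nonneg_left m1 (by norm_num)
      _ ≤ _ := mul_le_mul_of_nonneg_right (by linarith) m2.le
  have s3 := mul_le_mul_of_nonneg_left (hPP D hD1) (show 0 ≤ (1 - η) * M0 X z0 J k from mul_nonneg (by linarith) m2.le)
  have s4 : 0 ≤ (1 - η) * M0 X z0 J k * Real.log D := mul_nonneg (mul_nonneg (by linarith) m2.le) hlogD0
  have s5 : (1 - η) * M0 X z0 J k * (Real.log D ^ 2 / 2 - (C3 + 1) * (1 + Real.log D)) =
      (1 - η) * M0 X z0 J k * (Real.log D ^ 2 / 2 - C3 * (1 + Real.log D)) - (1 - η) * M0 X z0 J k -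
        (1 - η) * M0 X z0 J k * Real.log D := by ring
  rw [s5]
  linarith

end Pool.Agent.K4H50.QM
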